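import Pool.Agent.H10.PS.Dat

/-!
MODULE Alg (170 lines).  Group algebra in a `Dat`.

* `ud_zero`, `ub_zero`, `ud_neg`, `ub_neg`: from `ud_add`, `ub_add`.
* `al_congr`: `al g (k • f) * al k f = al (g k) f = al ((g k g⁻¹) g) f = al (g k g⁻¹) (g • f) * al g f`, `al_K`.
* `b_pow_ud`, `b_pow_ub`: induction.
* `al_ud`: `al_congr` with `b^t ud s b^-t = ud s`.
* `exists_conj`: `K_conj` for the finitely many `b ^ t`, `t ≤ N`, and `K_anti`.
* `geo`: put `t = S' - S`, `k1 = ud S * k * ud (-S)` (in `K l` by `K_norm`), `bs y' = ud t • k1 • bs y`;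
  `uc x • bs y' = ud t • ub (σ x t) • k2 • (uc x • bs y)`, `k2 = uc x * k1 * (uc x)⁻¹` (`comm`); `t = p^i (1 + p^q r)`,
  `i = e0 n0`, so `b^n0 * ub (σ x t) = ub (σ x (1 + p^q r)) * b^n0` (`b_pow_ub`), and with `k3 = b^n0 k2 b^-n0 ∈ K l1'`
  `bs (b^n0 • uc x • y') = ud t • ub (σ x) • ub (p^q (σ x r)) • k3 • bs (b^n0 • uc x • y)`; apply `ub (-(σ x))`
  (`comm_db`).  `ud t ∈ K l1` for `i ≥ i0` and `ub (p^q ..) ∈ K l1` for `q ≥ q0` (`ud_small`, `ub_small`).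
  Fibre points: `fb (k • x) = fb x` for `k ∈ K 0`; `fb (b^n0 • uc x • y') = al (b^n0) (bs (uc x • y')) • fb y'` and
  `al_congr` for `ud t * ub (σ x t) * k2 ∈ K 0`, whose conjugate by `b^n0` is in `K 0`.
  `l` is chosen such that for `k ∈ K l` (so `k1`, `k2 ∈ K l`) and `t' ≤ N`: `b^t' k1 b^-t' ∈ K l1`.
-/

set_option autoImplicit false

open MeasureTheory Matrix Pool.Agent.H23.DM

namespace Pool.Agent.H10.PS

namespace Dat

variable {p : ℕ} [Fact p.Prime] {G F M Γ X : Type} [Group G] [Group Γ] [MulAction G F]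
  [MulAction Γ M] [MulAction G X] [MeasurableSpace X] [TopologicalSpace X] {D : ℕ}
  (d : Dat p G F M Γ X D)

theorem ud_zero : d.ud 0 = 1 := by
  have h := d.ud_add 0 0
  rw [add_zero] at h
  exact (mul_eq_left.1 h.symm)

theorem ub_zero : d.ub 0 = 1 := by
  have h := d.ub_add 0 0
  rw [add_zero] at h
  exact (mul_eq_left.1 h.symm)

theorem ud_neg (s : ℤ_[p]) : d.ud (-s) = (d.ud s)⁻¹ := by
  refine eq_inv_of_mul_eq_one_left ?_
  rw [← d.ud_add, neg_add_cancel, ud_zero]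

theorem ub_neg (s : ℤ_[p]) : d.ub (-s) = (d.ub s)⁻¹ := by
  refine eq_inv_of_mul_eq_one_left ?_
  rw [← d.ub_add, neg_add_cancel, ub_zero]

theorem al_congr {g k : G} (hk : k ∈ d.K 0) (hk' : g * k * g⁻¹ ∈ d.K 0) (f : F) :
    d.al g (k • f) = d.al g f := by
  have h1 := d.al_mul g k f
  rw [d.al_K k hk f, mul_one] at h1
  have h2 := d.al_mul (g * k * g⁻¹) g f
  rw [d.al_K _ hk', one_mul, inv_mul_cancel_right] at h2
  rw [← h1, h2]

theorem fb_K {k : G} (hk : k ∈ d.K 0) (x : X) : d.fb (k • x) = d.fb x := by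
  rw [d.fb_smul, d.al_K k hk, one_smul]

theorem b_pow_ud (t : ℕ) (s : ℤ_[p]) : d.b ^ t * d.ud s = d.ud s * d.b ^ t := by
  have h : Commute d.b (d.ud s) := d.b_ud s
  exact h.pow_left t

theorem b_pow_ub (t : ℕ) (s : ℤ_[p]) :
    d.b ^ t * d.ub (p ^ (d.e0 * t) * s) = d.ub s * d.b ^ t := by
  induction t with
  | zero => simp
  | succ t ih =>
    have e : (p : ℤ_[p]) ^ (d.e0 * (t + 1)) * s = p ^ d.e0 * (p ^ (d.e0 * t) * s) := by
      rw [mul_add, mul_one, pow_add]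
      ring
    rw [e, pow_succ, mul_assoc, d.b_ub, ← mul_assoc, ih, mul_assoc]

theorem al_ud (t : ℕ) (s : ℤ_[p]) (f : F) : d.al (d.b ^ t) (d.ud s • f) = d.al (d.b ^ t) f := by
  refine d.al_congr (d.ud_K s) ?_ f
  rw [b_pow_ud, mul_inv_cancel_right]
  exact d.ud_K s

theorem exists_conj (N l1 : ℕ) : ∃ l : ℕ, l1 ≤ l ∧ ∀ t ≤ N, ∀ k ∈ d.K l,
    d.b ^ t * k * (d.b ^ t)⁻¹ ∈ d.K l1 := by
  choose L hL using fun t : ℕ => d.K_conj (d.b ^ t) l1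
  refine ⟨max l1 ((Finset.range (N + 1)).sup L), le_max_left _ _, fun t ht k hk => ?_⟩
  refine hL t k (d.K_anti (L t) _ ?_ hk)
  exact (Finset.le_sup (f := L) (Finset.mem_range.2 (by omega))).trans (le_max_right _ _)

private theorem Alg_le0 {l : ℕ} {k : G} (hk : k ∈ d.K l) : k ∈ d.K 0 :=
  d.K_anti 0 l (Nat.zero_le l) hk

/-- the base point of `y'` -/
private theorem Alg_base {l : ℕ} {y y' : X} {s s' : ℤ_[p]} {k : G}
    (h : d.ud (-s') • d.bs y' = k • d.ud (-s) • d.bs y) :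
    d.bs y' = d.ud (s' - s) • (d.ud s * k * (d.ud s)⁻¹) • d.bs y := by
  have h1 : d.bs y' = d.ud s' • d.ud (-s') • d.bs y' := by
    rw [ud_neg, smul_inv_smul]
  have h2 : d.ud s' = d.ud (s' - s) * d.ud s := by rw [← d.ud_add, sub_add_cancel]
  rw [h1, h, h2, ud_neg, mul_smul, mul_smul, mul_smul]

/-- Same base point up to `K l` and the `δ`-coordinate: same fibre maps along the orbit. -/
theorem al_same (N : ℕ) : ∃ l : ℕ, ∀ (y y' : X) (s s' : ℤ_[p]),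
    (∃ k ∈ d.K l, d.ud (-s') • d.bs y' = k • d.ud (-s) • d.bs y) →
    ∀ t ≤ N, d.al (d.b ^ t) (d.bs y') = d.al (d.b ^ t) (d.bs y) := by
  obtain ⟨l, -, hl⟩ := d.exists_conj N 0
  refine ⟨l, fun y y' s s' ⟨k, hk, h⟩ t ht => ?_⟩
  have hk1 : d.ud s * k * (d.ud s)⁻¹ ∈ d.K l := d.K_norm l k hk _ (d.ud_K s)
  rw [d.Alg_base (l := l) h, al_ud, d.al_congr (d.Alg_le0 hk1) (hl t ht _ hk1)]

/-- The geometry of a pair. -/
theorem geo (x : ℤ_[p]) (l1 : ℕ) : ∃ i0 q0 : ℕ, ∀ N : ℕ, ∃ l : ℕ, ∀ (y y' : X) (s s' : ℤ_[p])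
    (n0 q : ℕ) (r : ℤ_[p]), n0 ≤ N → i0 ≤ d.e0 * n0 → q0 ≤ q →
    s' = s + p ^ (d.e0 * n0) * (1 + p ^ q * r) →
    (∃ k ∈ d.K l, d.ud (-s') • d.bs y' = k • d.ud (-s) • d.bs y) →
    (∃ k ∈ d.K l1, d.bs (d.b ^ n0 • y') = k • d.bs (d.b ^ n0 • y)) ∧
    (d.fb (d.b ^ n0 • y') = d.al (d.b ^ n0) (d.bs y) • d.fb y') ∧
    (∃ k ∈ d.K l1, d.bs (d.ub (-(d.σ * x)) • d.b ^ n0 • d.uc x • y') =
      k • d.bs (d.b ^ n0 • d.uc x • y)) ∧
    d.fb (d.ub (-(d.σ * x)) • d.b ^ n0 • d.uc x • y') =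
      d.al (d.b ^ n0) (d.bs (d.uc x • y)) • d.fb y' := by
  obtain ⟨i0, hi0⟩ := d.ud_small l1
  obtain ⟨q0, hq0⟩ := d.ub_small l1
  refine ⟨i0, q0, fun N => ?_⟩
  obtain ⟨l, hl1, hl⟩ := d.exists_conj N l1
  refine ⟨l, fun y y' s s' n0 q r hn hi hq hs ⟨k, hk, h⟩ => ?_⟩
  have h1 := d.Alg_base (l := l) h
  obtain ⟨t, ht⟩ : ∃ t : ℤ_[p], t = s' - s := ⟨_, rfl⟩
  have ht' : t = p ^ (d.e0 * n0) * (1 + p ^ q * r) := by rw [ht, hs]; ring
  obtain ⟨k1, hk1⟩ : ∃ k1 : G, k1 = d.ud s * k * (d.ud s)⁻¹ := ⟨_, rfl⟩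
  have hk1l : k1 ∈ d.K l := by rw [hk1]; exact d.K_norm l k hk _ (d.ud_K s)
  rw [← ht, ← hk1] at h1
  have hudt : d.ud t ∈ d.K l1 := by
    have e : t = p ^ i0 * (p ^ (d.e0 * n0 - i0) * (1 + p ^ q * r)) := by
      rw [← mul_assoc, ← pow_add, Nat.add_sub_cancel' hi, ht']
    rw [e]
    exact hi0 _
  obtain ⟨k2, hk2⟩ : ∃ k2 : G, k2 = d.uc x * k1 * (d.uc x)⁻¹ := ⟨_, rfl⟩
  have hk2l : k2 ∈ d.K l := by rw [hk2]; exact d.K_norm l k1 hk1l _ (d.uc_K x)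
  -- the base point of the shifted point
  have h2 : d.uc x • d.bs y' = d.ud t • d.ub (d.σ * x * t) • k2 • d.uc x • d.bs y := by
    rw [h1, ← mul_smul, d.comm, hk2]
    simp only [mul_smul, inv_smul_smul]
  have ev : d.σ * x * t = p ^ (d.e0 * n0) * (d.σ * x * (1 + p ^ q * r)) := by
    rw [ht']; ring
  have hbb : d.b ^ n0 * d.ub (d.σ * x * t) = d.ub (d.σ * x * (1 + p ^ q * r)) * d.b ^ n0 := by
    rw [ev, b_pow_ub]
  refine ⟨⟨d.ud t * (d.b ^ n0 * k1 * (d.b ^ n0)⁻¹), (d.K l1).mul_mem hudt (hl n0 hn k1 hk1l),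
    ?_⟩, ?_, ⟨d.ud t * d.ub (p ^ q * (d.σ * x * r)) * (d.b ^ n0 * k2 * (d.b ^ n0)⁻¹),
      (d.K l1).mul_mem ((d.K l1).mul_mem hudt ?_) (hl n0 hn k2 hk2l), ?_⟩, ?_⟩
  · rw [d.bs_smul, d.bs_smul, h1, ← mul_smul, b_pow_ud]
    simp only [mul_smul, inv_smul_smul]
  · rw [d.fb_smul, h1, al_ud, d.al_congr (d.Alg_le0 hk1l) (d.Alg_le0 (hl n0 hn k1 hk1l))]
  · have e : (p : ℤ_[p]) ^ q * (d.σ * x * r) = p ^ q0 * (p ^ (q - q0) * (d.σ * x * r)) := by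
      have e' : (p : ℤ_[p]) ^ q = p ^ q0 * p ^ (q - q0) := by
        rw [← pow_add, Nat.add_sub_cancel' hq]
      rw [e']
      ring
    rw [e]
    exact hq0 _
  · have e1 : d.ub (-(d.σ * x)) * d.ub (d.σ * x * (1 + p ^ q * r)) =
        d.ub (p ^ q * (d.σ * x * r)) := by
      rw [← d.ub_add]
      congr 1
      ring
    have e2 : d.ub (-(d.σ * x)) * (d.b ^ n0 * (d.ud t * d.ub (d.σ * x * t))) =
        d.ud t * d.ub (p ^ q * (d.σ * x * r)) * d.b ^ n0 := by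
      calc d.ub (-(d.σ * x)) * (d.b ^ n0 * (d.ud t * d.ub (d.σ * x * t)))
          = d.ub (-(d.σ * x)) * ((d.b ^ n0 * d.ud t) * d.ub (d.σ * x * t)) := by
            rw [mul_assoc (d.b ^ n0)]
        _ = d.ub (-(d.σ * x)) * (d.ud t * (d.b ^ n0 * d.ub (d.σ * x * t))) := by
            rw [b_pow_ud, mul_assoc (d.ud t)]
        _ = (d.ub (-(d.σ * x)) * d.ud t) * (d.b ^ n0 * d.ub (d.σ * x * t)) :=
            (mul_assoc _ _ _).symm
        _ = (d.ud t * d.ub (-(d.σ * x))) * (d.ub (d.σ * x * (1 + p ^ q * r)) * d.b ^ n0) := by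
            rw [d.comm_db, hbb]
        _ = d.ud t * (d.ub (-(d.σ * x)) * d.ub (d.σ * x * (1 + p ^ q * r))) * d.b ^ n0 := by
            simp only [mul_assoc]
        _ = _ := by rw [e1]
    rw [d.bs_smul, d.bs_smul, d.bs_smul, d.bs_smul, d.bs_smul, h2]
    calc d.ub (-(d.σ * x)) • d.b ^ n0 • d.ud t • d.ub (d.σ * x * t) • k2 • d.uc x • d.bs y
        = (d.ub (-(d.σ * x)) * (d.b ^ n0 * (d.ud t * d.ub (d.σ * x * t)))) • k2 • d.uc x •
            d.bs y := by simp only [mul_smul]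
      _ = (d.ud t * d.ub (p ^ q * (d.σ * x * r)) * d.b ^ n0) • k2 • d.uc x • d.bs y := by
          rw [e2]
      _ = _ := by simp only [mul_smul, inv_smul_smul]
  · rw [d.fb_K (d.ub_K _), d.fb_smul, d.fb_K (d.uc_K x), d.bs_smul, h2, al_ud,
      d.al_congr (d.ub_K _) (by rw [hbb, mul_inv_cancel_right]; exact d.ub_K _),
      d.al_congr (d.Alg_le0 hk2l) (d.Alg_le0 (hl n0 hn k2 hk2l)), d.bs_smul]

end Dat

end Pool.Agent.H10.PS
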