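import Pool.Agent.H10.PS.Zp

/-!
MODULE Sum (60 lines).  The average over the `p`-adic integers as an average over `s < p ^ B`.

`G y (toZModPow B (S z)) = ∑ a, indicator {z | toZModPow B (S z) = a} z * G y a` (finite sum over
`a : ZMod (p ^ B)`); `integral_prod_mul`; `ZMod (p ^ B)` is `range (p ^ B)` via `Nat.cast` / `ZMod.val`
(`Finset.sum_nbij`).
-/

set_option autoImplicit false

open MeasureTheory H31.BE

namespace Pool.Agent.H10.PS

/-- A sum over the residues modulo `n` as a sum over the natural numbers below `n`. -/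
private lemma Sum_zmod (n : ℕ) [NeZero n] (f : ZMod n → ℝ) :
    ∑ a : ZMod n, f a = ∑ s ∈ Finset.range n, f (s : ZMod n) := by
  refine Finset.sum_nbij (fun a => a.val) ?_ ?_ ?_ ?_
  · intro a _
    exact Finset.mem_range.2 (ZMod.val_lt a)
  · intro a _ b _ hab
    exact ZMod.val_injective n hab
  · intro s hs
    have hs' : s < n := Finset.mem_range.1 (Finset.mem_coe.1 hs)
    exact ⟨(s : ZMod n), Finset.mem_coe.2 (Finset.mem_univ _), ZMod.val_cast_of_lt hs'⟩
  · intro a _
    rw [ZMod.natCast_zmod_val]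

theorem integral_res {p : ℕ} [Fact p.Prime] {X Z : Type} [MeasurableSpace X] [MeasurableSpace Z]
    {μ : Measure X} [IsProbabilityMeasure μ] {ν : Measure Z} [IsProbabilityMeasure ν]
    {S : Z → ℤ_[p]}
    (hS : ∀ (k : ℕ) (a : ZMod (p ^ k)), MeasurableSet {z | PadicInt.toZModPow k (S z) = a} ∧
      ν.real {z | PadicInt.toZModPow k (S z) = a} = 1 / (p : ℝ) ^ k) (B : ℕ)
    (G : X → ZMod (p ^ B) → ℝ) (hG : ∀ a, Integrable (fun y => G y a) μ) :
    ∫ ω, G ω.1 (PadicInt.toZModPow B (S ω.2)) ∂(μ.prod ν) =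
      (∑ s ∈ Finset.range (p ^ B), ∫ y, G y (s : ZMod (p ^ B)) ∂μ) / (p : ℝ) ^ B := by
  classical
  haveI : NeZero (p ^ B) := ⟨pow_ne_zero _ (Fact.out : p.Prime).ne_zero⟩
  have h1 : ∀ ω : X × Z, G ω.1 (PadicInt.toZModPow B (S ω.2)) =
      ∑ a : ZMod (p ^ B), G ω.1 a *
        Set.indicator {z | PadicInt.toZModPow B (S z) = a} (fun _ => (1 : ℝ)) ω.2 := by
    intro ω
    rw [Finset.sum_eq_single (PadicInt.toZModPow B (S ω.2))]
    · rw [Set.indicator_of_mem (by simp : ω.2 ∈ {z | PadicInt.toZModPow B (S z) =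
        PadicInt.toZModPow B (S ω.2)}), mul_one]
    · intro a _ ha
      rw [Set.indicator_of_notMem, mul_zero]
      intro h
      exact ha h.symm
    · intro h
      exact absurd (Finset.mem_univ _) h
  have h2 : ∀ a : ZMod (p ^ B), Integrable (fun ω : X × Z => G ω.1 a *
      Set.indicator {z | PadicInt.toZModPow B (S z) = a} (fun _ => (1 : ℝ)) ω.2) (μ.prod ν) := by
    intro a
    exact (hG a).mul_prod ((integrable_const (1 : ℝ)).indicator (hS B a).1)
  calc ∫ ω, G ω.1 (PadicInt.toZModPow B (S ω.2)) ∂(μ.prod ν)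
      = ∫ ω, (∑ a : ZMod (p ^ B), G ω.1 a *
        Set.indicator {z | PadicInt.toZModPow B (S z) = a} (fun _ => (1 : ℝ)) ω.2) ∂(μ.prod ν) := by
        refine integral_congr_ae (Filter.Eventually.of_forall fun ω => ?_)
        exact h1 ω
    _ = ∑ a : ZMod (p ^ B), ∫ ω, G ω.1 a *
        Set.indicator {z | PadicInt.toZModPow B (S z) = a} (fun _ => (1 : ℝ)) ω.2 ∂(μ.prod ν) :=
        integral_finset_sum _ (fun a _ => h2 a)
    _ = ∑ a : ZMod (p ^ B), (∫ y, G y a ∂μ) * (1 / (p : ℝ) ^ B) := by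
        refine Finset.sum_congr rfl fun a _ => ?_
        rw [integral_prod_mul (fun y => G y a)
          (Set.indicator {z | PadicInt.toZModPow B (S z) = a} (fun _ => (1 : ℝ)))]
        congr 1
        rw [integral_indicator (hS B a).1, setIntegral_const, smul_eq_mul, mul_one]
        exact (hS B a).2
    _ = (∑ a : ZMod (p ^ B), ∫ y, G y a ∂μ) / (p : ℝ) ^ B := by
        rw [← Finset.sum_mul]
        ring
    _ = _ := by
        rw [Sum_zmod (p ^ B) (fun a => ∫ y, G y a ∂μ)]

end Pool.Agent.H10.PS
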