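import Pool.Agent.H10.PS.TVs
import Pool.Agent.H10.PS.Sum
import Pool.Agent.H10.PS.Alg

/-!
MODULE Dcp (150 lines).  The coupling for a `Dat`, as an average over `s < p ^ B`.

`k` from `ud_small l`, `B = max k (i + q)`.  Put `φ' c a t = φ (d.ud (-(S ω.2)) • d.bs ω.1) a t` for a chosen `ω` with
`ξ l ω = c` (and `0` if there is none): by `h4` and the invariance of `φ` one has
`φ' (ξ l ω) a t = φ (d.ud (-(S ω.2)) • d.bs ω.1) a t` for all `ω`.  Apply `hl_tv` to `φ'`.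
For `r = toZModPow B (S z)`, `s = r.val`: `S z = s + p^B * w` (`PadicInt`: kernel of `toZModPow`,
`Ideal.mem_span_singleton`), `ud (-(S z)) = ud (p^B * (-w)) * ud (-s)` and `ud (p^B * (-w)) ∈ K l` (`p^B = p^k * ..`), so
the integrand of `hl_tv` at `(y, z)` is `G y r` with
`G y r = φ (d.ud (-(r.val)) • d.bs y) (N y) (r.val) - φ (.. same ..) (r.val + p^i)` (`(r.val : ZMod (p^(i+q)))` is
`toZModPow (i+q) (S z)` as `i + q ≤ B`: `PadicInt.cast_toZModPow`), then `integral_res`.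
Integrability of `G · r`: bounded and measurable: for every `f` the set `{y | ∃ k ∈ K l, ud (-r) • bs y = k • f}` is
measurable (`orb_meas`), finitely many orbits (`orb_fin`), `Fm N`: so `y ↦ φ (..) (N y) t` is a finite sum of
indicators (or: preimages of sets are finite unions of such sets).
-/

set_option autoImplicit false

open MeasureTheory Matrix Pool.Agent.H23.DM H31.BE

namespace Pool.Agent.H10.PS

namespace Dat

variable {p : ℕ} [Fact p.Prime] {G F M Γ X : Type} [Group G] [Group Γ] [MulAction G F]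
  [MulAction Γ M] [MulAction G X] [MeasurableSpace X] [TopologicalSpace X] {D : ℕ}

theorem meas_orb (d : Dat p G F M Γ X D) {α : Type} [Finite α] {N : X → α} (hN : Fm N) (l : ℕ)
    (g : G) (φ : F → α → ℝ) (hφ : ∀ f a, ∀ k ∈ d.K l, φ (k • f) a = φ f a) :
    Measurable fun y => φ (g • d.bs y) (N y) := by
  obtain ⟨s, hs⟩ := d.orb_fin l
  intro B _
  have h1 : (fun y => φ (g • d.bs y) (N y)) ⁻¹' B = ⋃ f ∈ s, ⋃ a ∈ {a : α | φ f a ∈ B},
      ({y : X | ∃ k ∈ d.K l, g • d.bs y = k • f} ∩ N ⁻¹' {a}) := by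
    ext y
    simp only [Set.mem_preimage, Set.mem_iUnion, Set.mem_inter_iff, Set.mem_ofPred_eq,
      Set.mem_singleton_iff, exists_prop]
    constructor
    · intro hy
      obtain ⟨f, hf, k, hk, e⟩ := hs (g • d.bs y)
      refine ⟨f, hf, N y, ?_, ⟨k, hk, e⟩, rfl⟩
      rw [e, hφ f (N y) k hk] at hy
      exact hy
    · rintro ⟨f, _, a, ha, ⟨k, hk, e⟩, rfl⟩
      rw [e, hφ f (N y) k hk]
      exact ha
  rw [h1]
  refine Finset.measurableSet_biUnion s fun f _ => ?_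
  exact MeasurableSet.biUnion (Set.toFinite _).countable fun a _ =>
    (d.orb_meas l g f).inter (hN a)

theorem coup_dat (d : Dat p G F M Γ X D) {μ : Measure X} (hμ : IsProbabilityMeasure μ) {Z : Type}
    [MeasurableSpace Z] {ν : Measure Z} {S : Z → ℤ_[p]} (hν : IsProbabilityMeasure ν)
    (hS : ∀ (k : ℕ) (a : ZMod (p ^ k)), MeasurableSet {z | PadicInt.toZModPow k (S z) = a} ∧
      ν.real {z | PadicInt.toZModPow k (S z) = a} = 1 / (p : ℝ) ^ k)
    (E : ESys p (X × Z) (μ.prod ν) D) (h2 : ∀ ω, E.S ω = S ω.2)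
    (h4 : ∀ l ω ω', E.Ξ.ξ l ω = E.Ξ.ξ l ω' → ∃ k ∈ d.K l,
        d.ud (-(S ω'.2)) • d.bs ω'.1 = k • d.ud (-(S ω.2)) • d.bs ω.1) {α : Type} [Finite α]
    {N : X → α} (hN : Fm N) (i q l : ℕ) {δ : ℝ} (h : q * Real.log p -
      hl (μ.prod ν) E.Ξ (E.Sm (i + q)) (fun ω => (E.Sm i ω, N ω.1)) l ≤ δ) :
    ∃ B : ℕ, ∀ φ : F → α → ZMod (p ^ (i + q)) → ℝ, (∀ f a t, 0 ≤ φ f a t ∧ φ f a t ≤ 1) →
      (∀ f a t, ∀ k ∈ d.K l, φ (k • f) a t = φ f a t) →
      |(∑ s ∈ Finset.range (p ^ B), ∫ y,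
          (φ (d.ud (-(s : ℤ_[p])) • d.bs y) (N y) (s : ZMod (p ^ (i + q))) -
            φ (d.ud (-(s : ℤ_[p])) • d.bs y) (N y)
              ((s : ZMod (p ^ (i + q))) + (p : ZMod (p ^ (i + q))) ^ i)) ∂μ)| ≤
        4 * √δ * (p : ℝ) ^ B := by
  classical
  have hp : 0 < p := (Fact.out : p.Prime).pos
  obtain ⟨k, hk⟩ := d.ud_small l
  obtain ⟨B, hB⟩ : ∃ B : ℕ, B = max k (i + q) := ⟨_, rfl⟩
  have hkB : k ≤ B := by rw [hB]; exact le_max_left _ _
  have hqB : i + q ≤ B := by rw [hB]; exact le_max_right _ _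
  have : NeZero (p ^ B) := ⟨(pow_pos hp _).ne'⟩
  refine ⟨B, fun φ hφ hφK => ?_⟩
  -- the function on the names of the base point
  let φ' : E.Ξ.α l → α → ZMod (p ^ (i + q)) → ℝ := fun c a t =>
    if hc : ∃ ω, E.Ξ.ξ l ω = c then
      φ (d.ud (-(S hc.choose.2)) • d.bs hc.choose.1) a t else 0
  have hφ'1 : ∀ c a t, 0 ≤ φ' c a t ∧ φ' c a t ≤ 1 := by
    intro c a t
    by_cases hc : ∃ ω, E.Ξ.ξ l ω = c
    · simp only [φ', dif_pos hc]
      exact hφ _ _ _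
    · simp only [φ', dif_neg hc]
      exact ⟨le_rfl, zero_le_one⟩
  have hφ'2 : ∀ (ω : X × Z) (a : α) (t : ZMod (p ^ (i + q))),
      φ' (E.Ξ.ξ l ω) a t = φ (d.ud (-(S ω.2)) • d.bs ω.1) a t := by
    intro ω a t
    have hc : ∃ ω', E.Ξ.ξ l ω' = E.Ξ.ξ l ω := ⟨ω, rfl⟩
    simp only [φ', dif_pos hc]
    obtain ⟨k', hk', e⟩ := h4 l hc.choose ω hc.choose_spec
    rw [e, hφK _ _ _ k' hk']
  have hN' : Fm (fun ω : X × Z => N ω.1) := fun a => (hN a).preimage measurable_fst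
  have htv := hl_tv E hN' i q l h φ' hφ'1
  -- the integrand as a function of the residue
  let G' : X → ZMod (p ^ B) → ℝ := fun y r =>
    φ (d.ud (-((r.val : ℕ) : ℤ_[p])) • d.bs y) (N y) ((r.val : ℕ) : ZMod (p ^ (i + q))) -
      φ (d.ud (-((r.val : ℕ) : ℤ_[p])) • d.bs y) (N y)
        (((r.val : ℕ) : ZMod (p ^ (i + q))) + (p : ZMod (p ^ (i + q))) ^ i)
  have hkey : ∀ ω : X × Z, φ' (E.Ξ.ξ l ω) (N ω.1) (E.Sm (i + q) ω) -
      φ' (E.Ξ.ξ l ω) (N ω.1) (E.Sm (i + q) ω + (p : ZMod (p ^ (i + q))) ^ i) =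
      G' ω.1 (PadicInt.toZModPow B (S ω.2)) := by
    intro ω
    obtain ⟨r, hr⟩ : ∃ r : ZMod (p ^ B), r = PadicInt.toZModPow B (S ω.2) := ⟨_, rfl⟩
    have hmem : S ω.2 - ((r.val : ℕ) : ℤ_[p]) ∈ RingHom.ker (PadicInt.toZModPow (p := p) B) := by
      rw [RingHom.mem_ker, map_sub, map_natCast, ZMod.natCast_zmod_val, hr, sub_self]
    rw [PadicInt.ker_toZModPow, Ideal.mem_span_singleton'] at hmem
    obtain ⟨w, hw⟩ := hmem
    have hud : d.ud (-(S ω.2)) = d.ud (p ^ k * (p ^ (B - k) * (-w))) *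
        d.ud (-((r.val : ℕ) : ℤ_[p])) := by
      rw [← d.ud_add]
      congr 1
      have e1 : (p : ℤ_[p]) ^ k * (p ^ (B - k) * (-w)) = -(w * p ^ B) := by
        rw [← mul_assoc, ← pow_add, Nat.add_sub_cancel' hkB]
        ring
      rw [e1, hw]
      ring
    have hφe : ∀ t, φ (d.ud (-(S ω.2)) • d.bs ω.1) (N ω.1) t =
        φ (d.ud (-((r.val : ℕ) : ℤ_[p])) • d.bs ω.1) (N ω.1) t := by
      intro t
      rw [hud, mul_smul, hφK _ _ _ _ (hk _)]
    have hSm : E.Sm (i + q) ω = ((r.val : ℕ) : ZMod (p ^ (i + q))) := by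
      have e2 := PadicInt.cast_toZModPow (p := p) (i + q) B hqB (S ω.2)
      rw [← hr] at e2
      unfold ESys.Sm
      rw [h2, ← e2, ZMod.natCast_val]
    rw [hφ'2, hφ'2, hφe, hφe, hSm, ← hr]
  have hmeas : ∀ (g : G) (t : ZMod (p ^ (i + q))),
      Measurable fun y => φ (g • d.bs y) (N y) t := fun g t =>
    d.meas_orb hN l g (fun f a => φ f a t) fun f a k' hk' => hφK f a t k' hk'
  have hint : ∀ (g : G) (t : ZMod (p ^ (i + q))),
      Integrable (fun y => φ (g • d.bs y) (N y) t) μ := by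
    intro g t
    refine Integrable.of_bound (hmeas g t).aestronglyMeasurable 1 (Filter.Eventually.of_forall ?_)
    intro y
    rw [Real.norm_eq_abs, abs_of_nonneg (hφ _ _ _).1]
    exact (hφ _ _ _).2
  have hG : ∀ a, Integrable (fun y => G' y a) μ := fun a => (hint _ _).sub (hint _ _)
  have hres := integral_res hS B G' hG
  have e3 : ∫ ω, (φ' (E.Ξ.ξ l ω) (N ω.1) (E.Sm (i + q) ω) -
      φ' (E.Ξ.ξ l ω) (N ω.1) (E.Sm (i + q) ω + (p : ZMod (p ^ (i + q))) ^ i)) ∂(μ.prod ν) =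
      ∫ ω, G' ω.1 (PadicInt.toZModPow B (S ω.2)) ∂(μ.prod ν) :=
    integral_congr_ae (Filter.Eventually.of_forall hkey)
  rw [e3, hres] at htv
  have hpB : (0 : ℝ) < (p : ℝ) ^ B := pow_pos (by exact_mod_cast hp) _
  rw [abs_div, abs_of_pos hpB, div_le_iff₀ hpB] at htv
  refine le_trans (le_of_eq ?_) htv
  congr 1
  refine Finset.sum_congr rfl fun s hs => ?_
  have hs' : ((s : ZMod (p ^ B))).val = s := ZMod.val_cast_of_lt (Finset.mem_range.1 hs)
  simp only [G', hs']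

end Dat

end Pool.Agent.H10.PS
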