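import Pool.Agent.H10.PS.Dt

/-!
MODULE Dj (170 lines).  Jets, measure and cocycle of the suspension for the `Dat` `sdat`.

* `sd_cmp`, `sd_tay`: from `V_le`, `V_ge`, `V_quad`, `V_err` of the jet of order one and `psn_dist` (constants of
  `psn_dist` squared; `δ' = δ / C`).
* `sd_ms`: `mb` from `hE.mp` and `S.smul_A`; `mc`: `uc = 1`; `md`: `haar_orb`.
* `exists_sdcoc`: the cocycle `D a x = (jet 1).D (al (dgh a) x.1) x.2`: measurable because `al g` is locally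
  constant (finitely many values, each on an open set: `al_lc`, `al_fin0`) and `meas`; bounded (`bdd`, `al_fin0`);
  `mul`: `al_mul`, `mul`; `D 1 x = 1`: `al_K`, `one`.
-/

set_option autoImplicit false
set_option linter.unusedSectionVars false

open MeasureTheory Filter Matrix
open scoped Topology
open Pool.Agent.H73.PZ
open Pool.Agent.H23.DM
open Pool.Agent.H67.LX

namespace Pool.Agent.H10.PS

variable {p : ℕ} [Fact p.Prime] {n : ℕ} {Γ : Subgroup (SLn p n)} {F M : Type}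
    [TopologicalSpace F] [CompactSpace F] [T2Space F] [SecondCountableTopology F]
    [MeasurableSpace F] [BorelSpace F] [MulAction (SLn p n) F]
    [TopologicalSpace M] [CompactSpace M] [T2Space M] [SecondCountableTopology M]
    [MeasurableSpace M] [BorelSpace M] [MulAction Γ M]
    [MulAction (SLn p n) (F × M)] [MulAction (AZ n) (F × M)]

theorem sd_cmp (S : Sus Γ F M) {Bd : ℝ} (hB : 1 ≤ Bd) :
    ∃ C δ : ℝ, 0 < δ ∧ ∀ m m', dist (psn S Bd m) (psn S Bd m') ≤ δ →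
      vn ((S.V.jet 1 le_rfl).V m m') ≤ C * dist (psn S Bd m) (psn S Bd m') ∧
      dist (psn S Bd m) (psn S Bd m') ≤
        C * vn ((S.V.jet 1 le_rfl).P *ᵥ (S.V.jet 1 le_rfl).V m m') ∧
      vn ((S.V.jet 1 le_rfl).V m m' - (S.V.jet 1 le_rfl).P *ᵥ (S.V.jet 1 le_rfl).V m m') ≤
        C * dist (psn S Bd m) (psn S Bd m') ^ 2 := by
  obtain ⟨A, hA1, hA⟩ := psn_dist S hB
  obtain ⟨C1, h1⟩ := (S.V.jet 1 le_rfl).V_le
  obtain ⟨C2, δ, hδ, h2⟩ := (S.V.jet 1 le_rfl).V_ge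
  obtain ⟨C3, h3⟩ := (S.V.jet 1 le_rfl).V_quad
  have hA0 : 0 ≤ A := le_trans zero_le_one hA1
  have hp1 : 0 ≤ |C1| * A := mul_nonneg (abs_nonneg _) hA0
  have hp2 : 0 ≤ A * |C2| := mul_nonneg hA0 (abs_nonneg _)
  have hp3 : 0 ≤ |C3| * A ^ 2 := mul_nonneg (abs_nonneg _) (pow_nonneg hA0 _)
  refine ⟨|C1| * A + A * |C2| + |C3| * A ^ 2, δ / A, div_pos hδ (lt_of_lt_of_le zero_lt_one hA1),
    fun m m' hd => ?_⟩
  obtain ⟨ha, hb⟩ := hA m m'
  have hd0 : 0 ≤ dist (psn S Bd m) (psn S Bd m') := dist_nonneg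
  have hq0 : 0 ≤ dist0 S.V.ψ m m' := vn_nonneg _
  have hs : dist0 S.V.ψ m m' ≤ δ := by
    refine hb.trans ?_
    have := (le_div_iff₀ (lt_of_lt_of_le zero_lt_one hA1)).1 hd
    linarith [mul_comm A (dist (psn S Bd m) (psn S Bd m'))]
  refine ⟨?_, ?_, ?_⟩
  · calc vn ((S.V.jet 1 le_rfl).V m m') ≤ C1 * dist0 S.V.ψ m m' := h1 m m'
      _ ≤ |C1| * dist0 S.V.ψ m m' := mul_le_mul_of_nonneg_right (le_abs_self _) hq0
      _ ≤ |C1| * (A * dist (psn S Bd m) (psn S Bd m')) :=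
        mul_le_mul_of_nonneg_left hb (abs_nonneg _)
      _ = (|C1| * A) * dist (psn S Bd m) (psn S Bd m') := by ring
      _ ≤ _ := mul_le_mul_of_nonneg_right (by linarith) hd0
  · have hv0 : 0 ≤ vn ((S.V.jet 1 le_rfl).P *ᵥ (S.V.jet 1 le_rfl).V m m') := vn_nonneg _
    calc dist (psn S Bd m) (psn S Bd m') ≤ A * dist0 S.V.ψ m m' := ha
      _ ≤ A * (C2 * vn ((S.V.jet 1 le_rfl).P *ᵥ (S.V.jet 1 le_rfl).V m m')) :=
        mul_le_mul_of_nonneg_left (h2 m m' hs) hA0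
      _ ≤ A * (|C2| * vn ((S.V.jet 1 le_rfl).P *ᵥ (S.V.jet 1 le_rfl).V m m')) :=
        mul_le_mul_of_nonneg_left (mul_le_mul_of_nonneg_right (le_abs_self _) hv0) hA0
      _ = (A * |C2|) * vn ((S.V.jet 1 le_rfl).P *ᵥ (S.V.jet 1 le_rfl).V m m') := by ring
      _ ≤ _ := mul_le_mul_of_nonneg_right (by linarith) hv0
  · calc vn ((S.V.jet 1 le_rfl).V m m' - (S.V.jet 1 le_rfl).P *ᵥ (S.V.jet 1 le_rfl).V m m')
        ≤ C3 * dist0 S.V.ψ m m' ^ 2 := h3 m m'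
      _ ≤ |C3| * dist0 S.V.ψ m m' ^ 2 :=
        mul_le_mul_of_nonneg_right (le_abs_self _) (pow_nonneg hq0 _)
      _ ≤ |C3| * (A * dist (psn S Bd m) (psn S Bd m')) ^ 2 :=
        mul_le_mul_of_nonneg_left (pow_le_pow_left₀ hq0 hb 2) (abs_nonneg _)
      _ = (|C3| * A ^ 2) * dist (psn S Bd m) (psn S Bd m') ^ 2 := by ring
      _ ≤ _ := mul_le_mul_of_nonneg_right (by linarith) (pow_nonneg hd0 _)

theorem sd_tay (S : Sus Γ F M) {Bd : ℝ} (hB : 1 ≤ Bd) (γ : Γ) :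
    ∃ C δ : ℝ, 0 < δ ∧ ∀ m m', dist (psn S Bd m) (psn S Bd m') ≤ δ →
      vn ((S.V.jet 1 le_rfl).V (γ • m) (γ • m') -
        (S.V.jet 1 le_rfl).D γ m *ᵥ (S.V.jet 1 le_rfl).V m m') ≤
        C * dist (psn S Bd m) (psn S Bd m') ^ (1 + 1) := by
  obtain ⟨A, hA1, hA⟩ := psn_dist S hB
  obtain ⟨C1, h1⟩ := (S.V.jet 1 le_rfl).V_err γ
  have hA0 : 0 ≤ A := le_trans zero_le_one hA1
  refine ⟨|C1| * A ^ (1 + 1), 1, one_pos, fun m m' _ => ?_⟩
  obtain ⟨_, hb⟩ := hA m m'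
  have hq0 : 0 ≤ dist0 S.V.ψ m m' := vn_nonneg _
  calc vn ((S.V.jet 1 le_rfl).V (γ • m) (γ • m') -
        (S.V.jet 1 le_rfl).D γ m *ᵥ (S.V.jet 1 le_rfl).V m m')
      ≤ C1 * dist0 S.V.ψ m m' ^ (1 + 1) := h1 m m'
    _ ≤ |C1| * dist0 S.V.ψ m m' ^ (1 + 1) :=
      mul_le_mul_of_nonneg_right (le_abs_self _) (pow_nonneg hq0 _)
    _ ≤ |C1| * (A * dist (psn S Bd m) (psn S Bd m')) ^ (1 + 1) :=
      mul_le_mul_of_nonneg_left (pow_le_pow_left₀ hq0 hb _) (abs_nonneg _)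
    _ = (|C1| * A ^ (1 + 1)) * dist (psn S Bd m) (psn S Bd m') ^ (1 + 1) := by
      rw [mul_pow, mul_assoc]

/-- The jet of order one for `sdat`. -/
noncomputable def sjet (S : Sus Γ F M) {Bd : ℝ} (hB : 1 ≤ Bd)
    (hBd : ∀ i m, |S.V.ψ i m| ≤ Bd) {j k : Fin n} (hjk : j ≠ k) (b : AZ n) (hb : rt j k b = 0) :
    (sdat S hB hBd hjk b hb).Jet 1 where
  ι := (S.V.jet 1 le_rfl).ι
  ft := (S.V.jet 1 le_rfl).fin
  de := (S.V.jet 1 le_rfl).dec
  jv := (S.V.jet 1 le_rfl).V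
  DJ := (S.V.jet 1 le_rfl).D
  P1 := (S.V.jet 1 le_rfl).P
  mul := (S.V.jet 1 le_rfl).mul
  one := (S.V.jet 1 le_rfl).one
  P1_idem := (S.V.jet 1 le_rfl).P_idem
  P1_inv := (S.V.jet 1 le_rfl).P_inv
  cmp := sd_cmp S hB
  tay := sd_tay S hB
  bdd := (S.V.jet 1 le_rfl).bdd

theorem sd_ms (S : Sus Γ F M) {μ : Measure (F × M)} (hE : Sys (AZ n) (F × M) μ)
    (hov : S.OvH μ) {Bd : ℝ} (hB : 1 ≤ Bd) (hBd : ∀ i m, |S.V.ψ i m| ≤ Bd) {j k : Fin n}
    (hjk : j ≠ k) (b : AZ n) (hb : rt j k b = 0) : (sdat S hB hBd hjk b hb).Ms μ := by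
  refine ⟨hE.prob, ?_, ?_, ?_⟩
  · have h := hE.mp b
    have he : (fun x : F × M => b • x) = fun x : F × M => (sdat S hB hBd hjk b hb).b • x := by
      funext x
      exact S.smul_A b x
    rw [← he]
    exact h
  · intro s
    have he : (fun x : F × M => (sdat S hB hBd hjk b hb).uc s • x) = id := by
      funext x
      exact one_smul (SLn p n) x
    rw [he]
    exact MeasurePreserving.id μ
  · intro s l f
    exact haar_orb S hov _ l f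

theorem Dj_meas (S : Sus Γ F M) (g : SLn p n) :
    MM fun x : F × M => (S.V.jet 1 le_rfl).D (S.B.al g x.1) x.2 := by
  intro i j t ht
  have hf := al_fin0 S g
  have he : (fun x : F × M => (S.V.jet 1 le_rfl).D (S.B.al g x.1) x.2 i j) ⁻¹' t =
      ⋃ γ ∈ hf.toFinset, ((Prod.fst ⁻¹' {f : F | S.B.al g f = γ}) ∩
        ((fun x : F × M => (S.V.jet 1 le_rfl).D γ x.2 i j) ⁻¹' t)) := by
    ext x
    simp only [Set.mem_preimage, Set.mem_iUnion, Set.mem_inter_iff, Set.mem_ofPred_eq,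
      Set.Finite.mem_toFinset, Set.mem_range, exists_prop]
    constructor
    · intro h
      exact ⟨S.B.al g x.1, ⟨x.1, rfl⟩, rfl, h⟩
    · rintro ⟨γ, _, h1, h2⟩
      rw [h1]
      exact h2
  rw [he]
  refine Finset.measurableSet_biUnion _ fun γ _ => ?_
  refine MeasurableSet.inter ?_ ?_
  · exact measurable_fst ((S.B.al_lc g).isOpen_fiber γ).measurableSet
  · exact (((S.V.jet 1 le_rfl).meas γ i j).comp measurable_snd) ht

theorem Dj_bdd (S : Sus Γ F M) (g : SLn p n) :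
    ∃ C : ℝ, ∀ x : F × M, fn ((S.V.jet 1 le_rfl).D (S.B.al g x.1) x.2) ≤ C := by
  have hf := al_fin0 S g
  choose B hBd using (S.V.jet 1 le_rfl).bdd
  obtain ⟨C, hC⟩ := (hf.image B).bddAbove
  exact ⟨C, fun x => (hBd _ _).trans (hC ⟨_, ⟨x.1, rfl⟩, rfl⟩)⟩

theorem exists_sdcoc (S : Sus Γ F M) {μ : Measure (F × M)} (hE : Sys (AZ n) (F × M) μ)
    {Bd : ℝ} (hB : 1 ≤ Bd) (hBd : ∀ i m, |S.V.ψ i m| ≤ Bd) {j k : Fin n}
    (hjk : j ≠ k) (b : AZ n) (hb : rt j k b = 0) :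
    ∃ c : Coc (AZ n) (F × M) (sjet S hB hBd hjk b hb).ι μ,
      (sdat S hB hBd hjk b hb).Cj (sjet S hB hBd hjk b hb) (dgh p n) c b := by
  refine ⟨⟨fun a x => (S.V.jet 1 le_rfl).D (S.B.al (dgh p n a) x.1) x.2, ?_, ?_, ?_, ?_⟩,
    ⟨S.smul_A, fun a a' => map_mul _ a a', map_one _, rfl, fun a x => rfl⟩⟩
  · intro a
    exact Dj_meas S (dgh p n a)
  · intro a
    obtain ⟨C, hC⟩ := Dj_bdd S (dgh p n a)
    exact ⟨C, Filter.Eventually.of_forall hC⟩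
  · intro a a'
    refine Filter.Eventually.of_forall fun x => ?_
    change (S.V.jet 1 le_rfl).D (S.B.al (dgh p n (a * a')) x.1) x.2 =
      (S.V.jet 1 le_rfl).D (S.B.al (dgh p n a) (a' • x).1) (a' • x).2 *
        (S.V.jet 1 le_rfl).D (S.B.al (dgh p n a') x.1) x.2
    rw [S.smul_A a' x, S.fst_smul, S.snd_smul, map_mul, S.B.al_mul]
    exact (S.V.jet 1 le_rfl).mul _ _ _
  · refine Filter.Eventually.of_forall fun x => ?_
    have h1 : (S.V.jet 1 le_rfl).D (S.B.al (dgh p n 1) x.1) x.2 = 1 := by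
      rw [map_one, S.B.al_K 1 (one_mem _)]
      exact (S.V.jet 1 le_rfl).one _
    change ((S.V.jet 1 le_rfl).D (S.B.al (dgh p n 1) x.1) x.2)ᵀ =
      (S.V.jet 1 le_rfl).D (S.B.al (dgh p n 1) x.1) x.2
    rw [h1, Matrix.transpose_one]

end Pool.Agent.H10.PS
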