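import Pool.Agent.H10.PS.Dat
import Pool.Agent.H10.PS.Alg

/-!
MODULE ESd (230 lines).  The entropy system of a `Dat`.

`Ω = X × Z`, `P = μ.prod ν`, `τ (y, z) = (b • y, z)`, `S (y, z) = S z`, `ψ (y, z) = d.ψ (d.fb y)`.  Let
`f^ (y, z) = ud (-(S z)) • bs y`.  `ξ l ω` = the class of `f^ ω` modulo the orbits of `K l`:
`α l = MulAction.orbitRel.Quotient (d.K l) F` (finite by `orb_fin`), or a finite set of representatives from
`orb_fin`.
* `mono`: `K_anti`.  `shift`: `f^ (τ ω) = b • f^ ω` (`b_ud`, so `b * ud (-s) = ud (-s) * b`), and for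
  `l'` from `K_conj d.b l` the class of `b • f` modulo `K l` is determined by the class of `f`
  modulo `K l'` (`b • k • f = (b k b⁻¹) • b • f`).
* measurability: by `ud_small` there is `k` with `ud (p ^ k * s) ∈ K l`, so the class of `f^ (y, z)` depends only
  on `y` and the residue `a` of `S z` modulo `p ^ k` (`ud (-(s + p^k r)) = ud (p^k (-r)) * ud (-s)`):
  the fibre over the class of `f` is the finite union over `a` of
  `{y | ∃ k ∈ K l, ud (-a) • bs y = k • f} ×ˢ {z | S z ≡ a}`, `a` a representative (`orb_meas`).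
* `unif`: for `k' ≥ k` the set `{S ≡ a mod p^k'} ∩ {ξ l = c}` is
  `{y | ∃ k ∈ K l, ud (-a) • bs y = k • f} ×ˢ {z | S z ≡ a mod p^k'}`, of measure `μ.real {..} / p^k'` (`Measure.prod_prod`),
  and by `hμ.md` the first factor is `μ.real {y | ∃ k ∈ K l, bs y = k • f}`, independent of `a`; sum over `a` to get
  the measure of `{ξ l = c}`; for `k' < k` sum over the residues modulo `p^k` above `a`.
* `shift` of the last property: `ξ l ω = ξ l ω'` says that `f^ ω'` and `f^ ω` are in one `K l` orbit.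
-/

set_option autoImplicit false

open MeasureTheory Matrix Pool.Agent.H23.DM H31.BE

namespace Pool.Agent.H10.PS

namespace Dat

variable {p : ℕ} [Fact p.Prime] {G F M Γ X : Type} [Group G] [Group Γ] [MulAction G F]
  [MulAction Γ M] [MulAction G X] [MeasurableSpace X] [TopologicalSpace X] {D : ℕ}

/-- the orbits of `K l` -/
private def esd_st (d : Dat p G F M Γ X D) (l : ℕ) : Setoid F where
  r f f' := ∃ k ∈ d.K l, f' = k • f
  iseqv := by
    refine ⟨fun f => ⟨1, (d.K l).one_mem, (one_smul G f).symm⟩, ?_, ?_⟩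
    · rintro f f' ⟨k, hk, rfl⟩
      exact ⟨k⁻¹, (d.K l).inv_mem hk, (inv_smul_smul k f).symm⟩
    · rintro f f' f'' ⟨k, hk, rfl⟩ ⟨k', hk', rfl⟩
      exact ⟨k' * k, (d.K l).mul_mem hk' hk, (mul_smul k' k f).symm⟩

private theorem esd_mk (d : Dat p G F M Γ X D) (l : ℕ) (f f' : F) :
    Quotient.mk (esd_st d l) f = Quotient.mk (esd_st d l) f' ↔ ∃ k ∈ d.K l, f' = k • f :=
  ⟨fun h => Quotient.exact h, fun h => Quotient.sound h⟩

private theorem esd_mk2 (d : Dat p G F M Γ X D) (l : ℕ) (f f' : F) :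
    Quotient.mk (esd_st d l) f = Quotient.mk (esd_st d l) f' ↔ ∃ k ∈ d.K l, f = k • f' := by
  rw [eq_comm, esd_mk]

private theorem esd_fin (d : Dat p G F M Γ X D) (l : ℕ) : Finite (Quotient (esd_st d l)) := by
  obtain ⟨s, hs⟩ := d.orb_fin l
  refine Finite.of_surjective (fun f : s => Quotient.mk (esd_st d l) f.1) ?_
  intro c
  induction c using Quotient.inductionOn with
  | h f =>
    obtain ⟨f', hf', k, hk, h⟩ := hs f
    exact ⟨⟨f', hf'⟩, (esd_mk d l f' f).2 ⟨k, hk, h⟩⟩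

/-- the name of a point -/
private noncomputable def esd_xi {Z : Type} (d : Dat p G F M Γ X D) (S : Z → ℤ_[p]) (l : ℕ) (ω : X × Z) :
    Quotient (esd_st d l) :=
  Quotient.mk (esd_st d l) (d.ud (-(S ω.2)) • d.bs ω.1)

private theorem esd_res {k : ℕ} {s s' : ℤ_[p]}
    (h : PadicInt.toZModPow k s = PadicInt.toZModPow k s') : ∃ r, s = s' + p ^ k * r := by
  have h1 : s - s' ∈ RingHom.ker (PadicInt.toZModPow (p := p) k) := by
    rw [RingHom.mem_ker, map_sub, h, sub_self]
  rw [PadicInt.ker_toZModPow, Ideal.mem_span_singleton] at h1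
  obtain ⟨r, hr⟩ := h1
  exact ⟨r, by rw [← hr]; ring⟩

private theorem esd_rep (k : ℕ) (a : ZMod (p ^ k)) : ∃ s : ℤ_[p], PadicInt.toZModPow k s = a := by
  have : NeZero (p ^ k) := ⟨pow_ne_zero k (Fact.out : p.Prime).ne_zero⟩
  refine ⟨(a.val : ℤ_[p]), ?_⟩
  rw [map_natCast, ZMod.natCast_zmod_val]

private theorem esd_dep (d : Dat p G F M Γ X D) {l k : ℕ} (hk : ∀ s, d.ud (p ^ k * s) ∈ d.K l)
    {s s' : ℤ_[p]} (h : PadicInt.toZModPow k s = PadicInt.toZModPow k s') {f f0 : F}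
    (h1 : ∃ κ ∈ d.K l, d.ud (-s) • f = κ • f0) : ∃ κ ∈ d.K l, d.ud (-s') • f = κ • f0 := by
  obtain ⟨r, hr⟩ := esd_res h
  obtain ⟨κ, hκ, h2⟩ := h1
  have e1 : d.ud (-s') = d.ud (p ^ k * r) * d.ud (-s) := by
    rw [← d.ud_add]
    congr 1
    rw [hr]
    ring
  refine ⟨d.ud (p ^ k * r) * κ, (d.K l).mul_mem (hk r) hκ, ?_⟩
  rw [e1, mul_smul, h2, mul_smul]

private theorem esd_meas {Z : Type} [MeasurableSpace Z] (d : Dat p G F M Γ X D) {S : Z → ℤ_[p]}
    (hS : ∀ (k : ℕ) (a : ZMod (p ^ k)), MeasurableSet {z | PadicInt.toZModPow k (S z) = a}) (l : ℕ) :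
    Fm (esd_xi d S l) := by
  intro c
  induction c using Quotient.inductionOn with
  | h f0 =>
    obtain ⟨k, hk⟩ := d.ud_small l
    have : NeZero (p ^ k) := ⟨pow_ne_zero k (Fact.out : p.Prime).ne_zero⟩
    choose sa hsa using esd_rep (p := p) k
    have e1 : esd_xi d S l ⁻¹' {Quotient.mk (esd_st d l) f0} = ⋃ a : ZMod (p ^ k),
        ({x : X | ∃ κ ∈ d.K l, d.ud (-(sa a)) • d.bs x = κ • f0} ×ˢ
          {z | PadicInt.toZModPow k (S z) = a}) := by
      ext ω
      simp only [Set.mem_preimage, Set.mem_singleton_iff, Set.mem_iUnion, Set.mem_prod,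
        Set.mem_ofPred_eq]
      unfold esd_xi
      rw [esd_mk2]
      constructor
      · intro h
        exact ⟨PadicInt.toZModPow k (S ω.2), esd_dep d hk (hsa _).symm h, rfl⟩
      · rintro ⟨a, h, ha⟩
        exact esd_dep d hk ((hsa a).trans ha.symm) h
    rw [e1]
    exact MeasurableSet.iUnion fun a => (d.orb_meas l (d.ud (-(sa a))) f0).prod (hS k a)

private theorem esd_prod (d : Dat p G F M Γ X D) {μ : Measure X} (hμ : d.Ms μ) {Z : Type}
    [MeasurableSpace Z] {ν : Measure Z} {S : Z → ℤ_[p]} (hν : IsProbabilityMeasure ν)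
    (hS : ∀ (k : ℕ) (a : ZMod (p ^ k)), MeasurableSet {z | PadicInt.toZModPow k (S z) = a}) (l : ℕ)
    (f0 : F) {B : Set Z} (hB : MeasurableSet B) :
    (μ.prod ν).real (Prod.snd ⁻¹' B ∩ esd_xi d S l ⁻¹' {Quotient.mk (esd_st d l) f0}) =
      μ.real {x | ∃ k ∈ d.K l, d.bs x = k • f0} * ν.real B := by
  have := hμ.prob
  have hm : MeasurableSet (Prod.snd ⁻¹' B ∩ esd_xi d S l ⁻¹' {Quotient.mk (esd_st d l) f0}) :=
    (measurable_snd hB).inter (esd_meas d hS l _)
  have h1 : ∀ z, μ ((fun x => (x, z)) ⁻¹' (Prod.snd ⁻¹' B ∩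
      esd_xi d S l ⁻¹' {Quotient.mk (esd_st d l) f0})) =
      B.indicator (fun _ => μ {x | ∃ k ∈ d.K l, d.bs x = k • f0}) z := by
    intro z
    by_cases hz : z ∈ B
    · rw [Set.indicator_of_mem hz]
      have e1 : (fun x => (x, z)) ⁻¹' (Prod.snd ⁻¹' B ∩
          esd_xi d S l ⁻¹' {Quotient.mk (esd_st d l) f0}) =
          {x | ∃ k ∈ d.K l, d.ud (-(S z)) • d.bs x = k • f0} := by
        ext x
        simp only [Set.mem_preimage, Set.mem_inter_iff, hz, true_and, Set.mem_singleton_iff,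
          Set.mem_ofPred_eq]
        unfold esd_xi
        rw [esd_mk2]
      rw [e1]
      exact (ENNReal.toReal_eq_toReal_iff' (measure_ne_top _ _) (measure_ne_top _ _)).1
        (hμ.md (-(S z)) l f0)
    · rw [Set.indicator_of_notMem hz]
      have e1 : (fun x => (x, z)) ⁻¹' (Prod.snd ⁻¹' B ∩
          esd_xi d S l ⁻¹' {Quotient.mk (esd_st d l) f0}) = ∅ := by
        ext x
        simp [hz]
      rw [e1, measure_empty]
  unfold Measure.real
  rw [Measure.prod_apply_symm hm, lintegral_congr h1, lintegral_indicator_const hB,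
    ENNReal.toReal_mul]

theorem exists_esys (d : Dat p G F M Γ X D) {μ : Measure X} (hμ : d.Ms μ) {Z : Type}
    [MeasurableSpace Z] {ν : Measure Z} {S : Z → ℤ_[p]} (hν : IsProbabilityMeasure ν)
    (hS : ∀ (k : ℕ) (a : ZMod (p ^ k)), MeasurableSet {z | PadicInt.toZModPow k (S z) = a} ∧
      ν.real {z | PadicInt.toZModPow k (S z) = a} = 1 / (p : ℝ) ^ k) :
    ∃ E : ESys p (X × Z) (μ.prod ν) D, (∀ ω, E.τ ω = (d.b • ω.1, ω.2)) ∧
      (∀ ω, E.S ω = S ω.2) ∧ (∀ ω, E.ψ ω = d.ψ (d.fb ω.1)) ∧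
      ∀ l ω ω', E.Ξ.ξ l ω = E.Ξ.ξ l ω' → ∃ k ∈ d.K l,
        d.ud (-(S ω'.2)) • d.bs ω'.1 = k • d.ud (-(S ω.2)) • d.bs ω.1 := by
  have := hμ.prob
  have hS1 : ∀ (k : ℕ) (a : ZMod (p ^ k)), MeasurableSet {z | PadicInt.toZModPow k (S z) = a} :=
    fun k a => (hS k a).1
  let Ξ : Filt (X × Z) :=
    { α := fun l => Quotient (esd_st d l)
      fin := esd_fin d
      ξ := fun l ω => esd_xi d S l ω
      meas := fun l => esd_meas d hS1 l
      mono := by
        intro l l' hl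
        refine ⟨Quotient.map' (s₁ := esd_st d l') (s₂ := esd_st d l) id ?_, fun ω => rfl⟩
        rintro f f' ⟨k, hk, h⟩
        exact ⟨k, d.K_anti l l' hl hk, h⟩ }
  let E : ESys p (X × Z) (μ.prod ν) D :=
    { τ := fun ω => (d.b • ω.1, ω.2)
      mp := hμ.mb.prod (MeasurePreserving.id ν)
      Ξ := Ξ
      shift := by
        intro l
        obtain ⟨l', hl'⟩ := d.K_conj d.b l
        refine ⟨l', Quotient.map' (s₁ := esd_st d l') (s₂ := esd_st d l) (fun f => d.b • f) ?_,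
          fun ω => ?_⟩
        · rintro f f' ⟨k, hk, rfl⟩
          refine ⟨d.b * k * d.b⁻¹, hl' k hk, ?_⟩
          rw [smul_smul, smul_smul, inv_mul_cancel_right]
        · show Quotient.mk (esd_st d l) (d.ud (-(S ω.2)) • d.bs (d.b • ω.1)) =
            Quotient.mk (esd_st d l) (d.b • d.ud (-(S ω.2)) • d.bs ω.1)
          rw [d.bs_smul, smul_smul, smul_smul, d.b_ud]
      S := fun ω => S ω.2
      Smeas := fun k a => measurable_snd (hS1 k a)
      Sinv := fun ω => rfl
      unif := by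
        intro k l a c
        induction c using Quotient.inductionOn with
        | h f0 =>
          have h1 := esd_prod d hμ hν hS1 l f0 (hS1 k a)
          have h2 := esd_prod d hμ hν hS1 l f0 (MeasurableSet.univ (α := Z))
          rw [Set.preimage_univ, Set.univ_inter, probReal_univ, mul_one] at h2
          rw [(hS k a).2, ← h2, mul_one_div] at h1
          exact h1
      ψ := fun ω => d.ψ (d.fb ω.1)
      ψmeas := fun i => (d.ψmeas i).comp measurable_fst
      ψ0 := fun ω i => d.ψ0 _ i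
      ψ1 := fun ω i => d.ψ1 _ i }
  refine ⟨E, fun ω => rfl, fun ω => rfl, fun ω => rfl, ?_⟩
  intro l ω ω' h
  exact (esd_mk d l _ _).1 h

end Dat

end Pool.Agent.H10.PS
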