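import Mathlib

/-!
MODULE Fc (70 lines).  Counting of the floor names.

If `|x - y| ≤ c` then `|⌊x⌋ - ⌊y⌋| ≤ c + 1`.  If there is no `ω` with `Q ω` the set is empty.  Otherwise fix one,
`ω₀`; all `v` in the set lie in `Set.pi univ (pi univ (Icc (⌊g ω₀ j i⌋ - (c+1)) (⌊g ω₀ j i⌋ + (c+1))))`
(`Set.Icc` of functions, or `Fintype.piFinset`), of cardinality `(2 (c+1) + 1)^(L * card κ)`.
-/

set_option autoImplicit false

namespace Pool.Agent.H10.PS

theorem floor_ncard {Ω κ : Type} [Fintype κ] {L : ℕ} (g : Ω → Fin L → κ → ℝ) (Q : Ω → Prop)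
    {c : ℕ} (h : ∀ ω ω', Q ω → Q ω' → ∀ j i, |g ω j i - g ω' j i| ≤ c) :
    {v : Fin L → κ → ℤ | ∃ ω, Q ω ∧ v = fun j i => ⌊g ω j i⌋}.Finite ∧
      {v : Fin L → κ → ℤ | ∃ ω, Q ω ∧ v = fun j i => ⌊g ω j i⌋}.ncard ≤
        (2 * c + 3) ^ (L * Fintype.card κ) := by
  classical
  by_cases hQ : ∃ ω, Q ω
  · obtain ⟨ω₀, h₀⟩ := hQ
    set T : Finset (Fin L → κ → ℤ) := Fintype.piFinset fun j => Fintype.piFinset fun i =>
      Finset.Icc (⌊g ω₀ j i⌋ - ((c : ℤ) + 1)) (⌊g ω₀ j i⌋ + ((c : ℤ) + 1)) with hT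
    have hsub : {v : Fin L → κ → ℤ | ∃ ω, Q ω ∧ v = fun j i => ⌊g ω j i⌋} ⊆
        (T : Set (Fin L → κ → ℤ)) := by
      rintro v ⟨ω, hω, rfl⟩
      rw [Finset.mem_coe, hT, Fintype.mem_piFinset]
      intro j
      rw [Fintype.mem_piFinset]
      intro i
      rw [Finset.mem_Icc]
      have h1 := h ω ω₀ hω h₀ j i
      rw [abs_le] at h1
      have h2 := Int.floor_le (g ω j i)
      have h3 := Int.lt_floor_add_one (g ω j i)
      have h4 := Int.floor_le (g ω₀ j i)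
      have h5 := Int.lt_floor_add_one (g ω₀ j i)
      constructor
      · have h6 : ((⌊g ω₀ j i⌋ - ((c : ℤ) + 1) : ℤ) : ℝ) < (⌊g ω j i⌋ : ℝ) := by
          push_cast
          linarith
        exact (Int.cast_lt.1 h6).le
      · have h6 : ((⌊g ω j i⌋ : ℤ) : ℝ) < ((⌊g ω₀ j i⌋ + ((c : ℤ) + 1) : ℤ) : ℝ) := by
          push_cast
          linarith
        exact (Int.cast_lt.1 h6).le
    have hc : T.card = (2 * c + 3) ^ (L * Fintype.card κ) := by
      rw [hT, Fintype.card_piFinset]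
      have h1 : ∀ j : Fin L, (Fintype.piFinset fun i =>
          Finset.Icc (⌊g ω₀ j i⌋ - ((c : ℤ) + 1)) (⌊g ω₀ j i⌋ + ((c : ℤ) + 1))).card =
            (2 * c + 3) ^ Fintype.card κ := by
        intro j
        rw [Fintype.card_piFinset]
        have h2 : ∀ i : κ, (Finset.Icc (⌊g ω₀ j i⌋ - ((c : ℤ) + 1))
            (⌊g ω₀ j i⌋ + ((c : ℤ) + 1))).card = 2 * c + 3 := by
          intro i
          rw [Int.card_Icc]
          omega
        rw [Finset.prod_congr rfl fun i _ => h2 i, Finset.prod_const, Finset.card_univ]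
      rw [Finset.prod_congr rfl fun j _ => h1 j, Finset.prod_const, Finset.card_univ,
        Fintype.card_fin, ← pow_mul, mul_comm L]
    refine ⟨T.finite_toSet.subset hsub, ?_⟩
    refine (Set.ncard_le_ncard hsub T.finite_toSet).trans ?_
    rw [Set.ncard_coe_finset, hc]
  · have he : {v : Fin L → κ → ℤ | ∃ ω, Q ω ∧ v = fun j i => ⌊g ω j i⌋} = ∅ := by
      apply Set.eq_empty_of_forall_notMem
      rintro v ⟨ω, hω, -⟩
      exact hQ ⟨ω, hω⟩
    rw [he]
    exact ⟨Set.finite_empty, by rw [Set.ncard_empty]; exact Nat.zero_le _⟩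

end Pool.Agent.H10.PS
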