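import Pool.Agent.H10.PS.DigA

/-!
MODULE DigB (110 lines).  Choice of the digits.

`s = q e0`.  Consider `i = s j` with `j ∈ J`, the natural numbers with `k ≤ 8 s j` and `2 s j ≤ k`.  As
`16 s ≤ k` there are at least `k / (4 s)` of them (`J` contains all integers in `[k/(8s), k/(2s)]`, whose
length is `3k/(8s)`, and `3k/(8s) - 1 ≥ k/(4s)`), and `s j + q ≤ s (j+1)`; the largest `j` has
`s j + q ≤ k/2 + q ≤ k`.  By `def_add` and `def_nonneg` the sum of the deficits `dfc (s j) (s j + q)`, `j ∈ J`, is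
at most `dfc 0 k` (induction on the elements of `J` in increasing order: `∑_{j ∈ J, j < m} ≤ dfc 0 (s m)`).
So one of them is `≤ 4 s / k * dfc 0 k ≤ 4 s η`.  Finally `hi ≤ hl l` (`hi_le`).
-/

set_option autoImplicit false

open MeasureTheory H31.BE

namespace Pool.Agent.H10.PS

variable {p : ℕ} [Fact p.Prime] {Ω α : Type} [MeasurableSpace Ω] {P : Measure Ω}
  [IsProbabilityMeasure P] {D : ℕ} [Finite α]

theorem exists_digits (E : ESys p Ω P D) {N : Ω → α} (hN : Fm N) {k : ℕ} {η : ℝ} (hη : 0 ≤ η)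
    (h : hi P E.Ξ N (fun _ => ()) - hi P E.Ξ N (E.Sm k) ≤ η * k) {q e0 : ℕ} (hq : 1 ≤ q)
    (he0 : 1 ≤ e0) (hk : 16 * (q * e0) ≤ k) :
    ∃ i : ℕ, e0 ∣ i ∧ k ≤ 8 * i ∧ 2 * i ≤ k ∧ ∀ l : ℕ,
      q * Real.log p - hl P E.Ξ (E.Sm (i + q)) (fun ω => (E.Sm i ω, N ω)) l ≤
        4 * (q * e0) * η := by
  obtain ⟨s, hs⟩ : ∃ s : ℕ, s = q * e0 := ⟨_, rfl⟩
  have hsR : (s : ℝ) = (q : ℝ) * e0 := by rw [hs]; push_cast; ring
  have hs1 : 1 ≤ s := by rw [hs]; exact Nat.mul_pos hq he0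
  have hqs : q ≤ s := by rw [hs]; exact Nat.le_mul_of_pos_right q he0
  rw [← hs] at hk
  -- the sum of the deficits
  have hsum : ∀ a m : ℕ, a ≤ m →
      ∑ j ∈ Finset.Ico a m, dfc E N (s * j) (s * j + q) ≤ dfc E N (s * a) (s * m) := by
    intro a m ham
    induction m, ham using Nat.le_induction with
    | base =>
      rw [Finset.Ico_self, Finset.sum_empty]
      exact def_nonneg E hN le_rfl
    | succ m ham ih =>
      rw [Finset.sum_Ico_succ_top ham]
      have e1 : s * m + q ≤ s * (m + 1) := by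
        rw [Nat.mul_succ]; omega
      have e2 : s * a ≤ s * m := Nat.mul_le_mul_left s ham
      have e3 : s * m ≤ s * (m + 1) := Nat.mul_le_mul_left s (Nat.le_succ m)
      have d1 := def_add E hN e2 e3
      have d2 := def_add E hN (Nat.le_add_right (s * m) q) e1
      have d3 := def_nonneg E hN e1
      linarith
  obtain ⟨c, hc⟩ : ∃ c : ℕ, c = k / (8 * s) := ⟨_, rfl⟩
  obtain ⟨b, hb⟩ : ∃ b : ℕ, b = k / (2 * s) := ⟨_, rfl⟩
  have hc1 : 8 * s * c ≤ k := by rw [hc]; exact Nat.mul_div_le k (8 * s)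
  have hc2 : k < 8 * s * (c + 1) := by
    rw [hc]; exact Nat.lt_mul_div_succ k (by omega)
  have hb1 : 2 * s * b ≤ k := by rw [hb]; exact Nat.mul_div_le k (2 * s)
  have hb2 : k < 2 * s * (b + 1) := by
    rw [hb]; exact Nat.lt_mul_div_succ k (by omega)
  have hcb : c + 1 ≤ b + 1 := by
    by_contra hcon
    push Not at hcon
    have h1 : b + 1 ≤ c := by omega
    have h2 : 2 * s * (b + 1) ≤ 2 * s * c := Nat.mul_le_mul_left _ h1
    have h3 : 2 * s * c ≤ 8 * s * c := Nat.mul_le_mul_right c (by omega)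
    omega
  have hsk : s * (b + 1) ≤ k := by
    have h1 : 2 * (s * (b + 1)) = 2 * s * b + 2 * s := by ring
    omega
  -- real versions
  have hsp : (1 : ℝ) ≤ s := by exact_mod_cast hs1
  have rc1 : 8 * (s : ℝ) * c ≤ k := by exact_mod_cast hc1
  have rb2 : (k : ℝ) < 2 * s * (b + 1) := by exact_mod_cast hb2
  have rk : 16 * (s : ℝ) ≤ k := by exact_mod_cast hk
  have hcard : ((Finset.Ico (c + 1) (b + 1)).card : ℝ) = (b : ℝ) - c := by
    rw [Nat.card_Ico, Nat.cast_sub hcb]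
    push_cast
    ring
  have hbig : (k : ℝ) ≤ 4 * s * ((b : ℝ) - c) := by
    nlinarith
  have hpos : (0 : ℝ) < (b : ℝ) - c := by
    by_contra hcon
    push Not at hcon
    have h1 : 4 * (s : ℝ) * ((b : ℝ) - c) ≤ 0 :=
      mul_nonpos_of_nonneg_of_nonpos (by linarith) hcon
    linarith
  have hne : (Finset.Ico (c + 1) (b + 1)).Nonempty := by
    rw [← Finset.card_pos]
    have : (0 : ℝ) < ((Finset.Ico (c + 1) (b + 1)).card : ℝ) := by rw [hcard]; exact hpos
    exact_mod_cast this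
  have htot : dfc E N (s * (c + 1)) (s * (b + 1)) ≤ η * k := by
    have e1 : s * (c + 1) ≤ s * (b + 1) := Nat.mul_le_mul_left s hcb
    have d1 := def_add E hN (Nat.zero_le (s * (c + 1))) e1
    have d2 := def_add E hN (Nat.zero_le (s * (b + 1))) hsk
    have d3 := def_nonneg E hN (Nat.zero_le (s * (c + 1)))
    have d4 := def_nonneg E hN hsk
    have d5 := def_le E hN k
    linarith
  have hle : ∑ j ∈ Finset.Ico (c + 1) (b + 1), dfc E N (s * j) (s * j + q) ≤
      ∑ _j ∈ Finset.Ico (c + 1) (b + 1), 4 * (s : ℝ) * η := by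
    rw [Finset.sum_const, nsmul_eq_mul, hcard]
    refine ((hsum _ _ hcb).trans htot).trans ?_
    calc η * k ≤ η * (4 * s * ((b : ℝ) - c)) := mul_le_mul_of_nonneg_left hbig hη
      _ = ((b : ℝ) - c) * (4 * s * η) := by ring
  obtain ⟨j, hj, hjle⟩ := Finset.exists_le_of_sum_le hne hle
  rw [Finset.mem_Ico] at hj
  refine ⟨s * j, ⟨q * j, by rw [hs]; ring⟩, ?_, ?_, fun l => ?_⟩
  · have h1 : 8 * s * (c + 1) ≤ 8 * s * j := Nat.mul_le_mul_left _ hj.1
    have h2 : 8 * s * j = 8 * (s * j) := by ring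
    omega
  · have h1 : 2 * s * j ≤ 2 * s * b := Nat.mul_le_mul_left _ (by omega)
    have h2 : 2 * s * j = 2 * (s * j) := by ring
    omega
  · have hSm : ∀ m : ℕ, Fm (E.Sm m) := fun m => E.Smeas m
    have h1 := hi_le (P := P) E.Ξ (hSm (s * j + q)) ((hSm (s * j)).prodMk hN) l
    have h2 : dfc E N (s * j) (s * j + q) =
        q * Real.log p - hi P E.Ξ (E.Sm (s * j + q)) (fun ω => (E.Sm (s * j) ω, N ω)) := by
      unfold dfc
      push_cast
      ring
    rw [← hsR]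
    linarith

end Pool.Agent.H10.PS
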