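import Pool.Agent.H10.PS.En2

/-!
MODULE En4 (120 lines).  The counting lemma.

Let `χ ω : Bool := ω ∈ G`.  `hi ≤ hl l = H(R | R', ξ l) ≤ H(χ) + H(R | χ, R', ξ l)`
(`entc_chain`, `entc_comp_left`, `entc_le_ent`), `H(χ) ≤ log 2` (`ent_le_log_card`), and
`H(R | χ, R', ξ l) ≤ ∫ log (N' (χ, R', ξ l))` with `N' = N` on `χ = true` and `N' = Nat.card α` on
`χ = false` (`entc_le_count`, EntD: the number of values of positive probability in an atom; such a
value is taken at some `ω ∈ G` in the atom).  The integral is `≤ log N + η log (Nat.card α)`.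
`α` is nonempty as `Ω` is.
-/

set_option autoImplicit false

open MeasureTheory H31.BE

namespace Pool.Agent.H10.PS

variable {Ω α β : Type} [MeasurableSpace Ω] {P : Measure Ω} [IsProbabilityMeasure P] [Finite α]
  [Finite β]

theorem hi_count (Ξ : Filt Ω) {R : Ω → α} {R' : Ω → β} (hR : Fm R) (hR' : Fm R') {G : Set Ω}
    (hG : MeasurableSet G) {η : ℝ} (hη : P.real Gᶜ ≤ η) {l N : ℕ} (hN : 1 ≤ N)
    (h : ∀ (b : β) (c : Ξ.α l), {a | ∃ ω ∈ G, R ω = a ∧ R' ω = b ∧ Ξ.ξ l ω = c}.ncard ≤ N) :
    hi P Ξ R R' ≤ Real.log 2 + Real.log N + η * Real.log (Nat.card α) := by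
  classical
  set χ : Ω → Bool := fun ω => decide (ω ∈ G) with hχd
  have hχ : Fm χ := by
    intro c
    cases c
    · have e : χ ⁻¹' {false} = Gᶜ := by
        ext ω
        simp [hχd]
      rw [e]
      exact hG.compl
    · have e : χ ⁻¹' {true} = G := by
        ext ω
        simp [hχd]
      rw [e]
      exact hG
  have : Nonempty α := by
    obtain ⟨ω⟩ : Nonempty Ω := nonempty_of_isProbabilityMeasure P
    exact ⟨R ω⟩
  have hg : Fm (fun ω => (R' ω, Ξ.ξ l ω)) := hR'.prodMk (Ξ.meas l)
  refine (hi_le Ξ hR hR' l).trans ?_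
  unfold hl
  have h1 := entc_comp_left (P := P) (hR.prodMk hχ) hg (Prod.fst : α × Bool → α)
  have h2 := entc_chain (P := P) hR hχ hg
  have h3 := (entc_le_ent (P := P) hχ hg).trans (ent_le_log_card (P := P) χ hχ)
  have h4 : (Nat.card Bool : ℝ) = 2 := by
    rw [Nat.card_eq_fintype_card, Fintype.card_bool]
    norm_num
  rw [h4] at h3
  have hcard : 1 ≤ Nat.card α := Nat.card_pos
  have h5 := entc_le_count (P := P) hR (hχ.prodMk hg)
    (fun q : Bool × (β × Ξ.α l) => if q.1 = true then N else Nat.card α)
    (by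
      intro q
      split_ifs
      · exact hN
      · exact hcard)
    (by
      rintro ⟨c, b, x⟩
      cases c
      · rw [if_neg (by simp)]
        rw [← Set.ncard_univ]
        exact Set.ncard_le_ncard (Set.subset_univ _) (Set.toFinite _)
      · rw [if_pos rfl]
        refine le_trans (Set.ncard_le_ncard ?_ (Set.toFinite _)) (h b x)
        intro a ha
        have hne : (R ⁻¹' {a} ∩ (fun ω => (χ ω, R' ω, Ξ.ξ l ω)) ⁻¹' {(true, b, x)}).Nonempty := by
          rw [Set.nonempty_iff_ne_empty]
          intro he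
          rw [Set.mem_ofPred_eq, he, measureReal_empty] at ha
          exact lt_irrefl _ ha
        obtain ⟨ω, hω1, hω2⟩ := hne
        simp only [Set.mem_preimage, Set.mem_singleton_iff, Prod.mk.injEq] at hω1 hω2
        refine ⟨ω, ?_, hω1, hω2.2.1, hω2.2.2⟩
        have := hω2.1
        simpa [hχd] using this)
  have hlN : 0 ≤ Real.log N := Real.log_nonneg (by exact_mod_cast hN)
  have hlc : 0 ≤ Real.log (Nat.card α) := Real.log_nonneg (by exact_mod_cast hcard)
  have h6 : ∫ ω, Real.log ((if (χ ω, R' ω, Ξ.ξ l ω).1 = true then N else Nat.card α : ℕ) : ℝ) ∂P ≤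
      Real.log N + η * Real.log (Nat.card α) := by
    have e1 : ∫ ω, (Real.log N + (Gᶜ).indicator (fun _ => Real.log (Nat.card α)) ω) ∂P =
        Real.log N + P.real Gᶜ * Real.log (Nat.card α) := by
      rw [integral_add (integrable_const _) ((integrable_const _).indicator hG.compl),
        integral_indicator_const _ hG.compl, integral_const]
      simp
    refine le_trans (integral_mono_of_nonneg (Filter.Eventually.of_forall fun ω => ?_)
      ((integrable_const _).add ((integrable_const _).indicator hG.compl))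
      (Filter.Eventually.of_forall fun ω => ?_)) (e1.le.trans ?_)
    · exact Real.log_natCast_nonneg _
    · by_cases hω : ω ∈ G
      · simp [hχd, hω]
      · simp [hχd, hω]
        exact hlN
    · have := mul_le_mul_of_nonneg_right hη hlc
      linarith
  simp only at h1
  linarith

end Pool.Agent.H10.PS
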