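import Pool.Agent.H10.PS.Pig
import Pool.Agent.H10.PS.DigB
import Pool.Agent.H10.PS.En4

/-!
MODULE Sw (110 lines).  (I1) for arbitrary names `N` which take at most `c` values on each cell name.

`mi_switch`: by `hi_chain` (twice), `hi_anti`, `hi_comp_le` (also for the exchange of the two components):
`hi(N|()) - hi(N|S) ≤ hi((N',N)|()) - hi((N',N)|S)` because `hi(N'|(N,())) ≥ hi(N'|(N,S))`; and
`hi((N',N)|()) = hi((N,N')|()) = hi(N'|()) + hi(N|(N',()))`, `hi(N|(N',())) ≤ log 2 + log c` (`hi_count` with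
`G = univ`, `η = 0`), `hi((N',N)|S) ≥ hi(N'|S)`.
`I1g`: as `I1` (`I1.lean`): `pigeon` with `η / (8 (q e0))`, `T ≥` the bound of `I1` and so large that
`log 2 + log c ≤ η / (8 (q e0)) * (R T)`, then `mi_switch` and `exists_digits` for `N`.
-/

set_option autoImplicit false

open MeasureTheory H31.BE

namespace Pool.Agent.H10.PS

variable {p : ℕ} [Fact p.Prime] {Ω : Type} [MeasurableSpace Ω] {P : Measure Ω}
  [IsProbabilityMeasure P] {D : ℕ}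

theorem mi_switch (E : ESys p Ω P D) {α β : Type} [Finite α] [Finite β] {N : Ω → α} {N' : Ω → β}
    (hN : Fm N) (hN' : Fm N') {c : ℕ} (hc : 1 ≤ c)
    (h : ∀ b, {a | ∃ ω, N ω = a ∧ N' ω = b}.ncard ≤ c) (k : ℕ) :
    hi P E.Ξ N (fun _ => ()) - hi P E.Ξ N (E.Sm k) ≤
      (hi P E.Ξ N' (fun _ => ()) - hi P E.Ξ N' (E.Sm k)) + Real.log 2 + Real.log c := by
  have hS : Fm (E.Sm k) := E.Smeas k
  have hU : Fm (fun _ : Ω => ()) := Fm.const ()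
  have e1 := hi_chain (P := P) (Ξ := E.Ξ) hN' hN hU
  have e2 := hi_chain (P := P) (Ξ := E.Ξ) hN' hN hS
  have e3 := hi_chain (P := P) (Ξ := E.Ξ) hN hN' hU
  have a1 := hi_anti (P := P) (Ξ := E.Ξ) hN' (hN.prodMk hS)
    (fun z : α × ZMod (p ^ k) => (z.1, ()))
  have a2 := hi_comp_le (P := P) (Ξ := E.Ξ) (hN.prodMk hN') hU (fun z : α × β => (z.2, z.1))
  have a3 := hi_comp_le (P := P) (Ξ := E.Ξ) (hN'.prodMk hN) hS (fun z : β × α => z.1)
  have a4 := hi_count (P := P) E.Ξ (G := Set.univ) hN (hN'.prodMk hU) MeasurableSet.univ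
    (η := 0) (l := 0) (by simp) hc (by
      intro b x
      refine le_trans (Set.ncard_le_ncard ?_ (Set.toFinite _)) (h b.1)
      rintro a ⟨ω, -, h1, h2, -⟩
      exact ⟨ω, h1, by rw [← h2]⟩)
  linarith

theorem I1g (E : ESys p Ω P D) {Λ c0 θ0 : ℝ} (hΛ : 0 ≤ Λ) (hc0 : 0 ≤ c0)
    (hTE : ∀ θ : ℝ, θ0 ≤ θ → ∀ M n : ℕ, 1 ≤ M → E.TE Λ c0 θ M n) {q e0 : ℕ} (hq : 1 ≤ q)
    (he0 : 1 ≤ e0) {η : ℝ} (hη : 0 < η) :
    ∃ κ0 : ℝ, 0 < κ0 ∧ ∀ θ : ℝ, θ0 ≤ θ → 1 ≤ θ → ∀ R : ℕ, κ0 * θ ≤ R → ∀ L : ℕ, 1 ≤ L →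
      ∀ c : ℕ, 1 ≤ c → ∀ T0 : ℕ, ∃ T : ℕ, T0 ≤ T ∧ ∀ (α : Type) (_ : Finite α) (N : Ω → α),
        Fm N → (∀ b, {a | ∃ ω, N ω = a ∧ E.nm θ T L ω = b}.ncard ≤ c) →
        ∃ i : ℕ, e0 ∣ i ∧ R * T ≤ 8 * i ∧ 2 * i ≤ R * T ∧ ∀ l : ℕ,
          q * Real.log p -
            hl P E.Ξ (E.Sm (i + q)) (fun ω => (E.Sm i ω, N ω)) l ≤ η := by
  have h1q : (0 : ℝ) < q := by exact_mod_cast hq
  have h1e : (0 : ℝ) < e0 := by exact_mod_cast he0
  have hη' : (0 : ℝ) < η / (8 * (q * e0)) := by positivity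
  obtain ⟨κ0, hκ0, h⟩ := pigeon E hΛ hc0 hTE hη'
  refine ⟨κ0, hκ0, ?_⟩
  intro θ h0 h1 R hR L hL c hc T0
  have hRpos : (0 : ℝ) < R := lt_of_lt_of_le (by positivity) hR
  have hR1 : 1 ≤ R := by exact_mod_cast hRpos
  have hR1' : (1 : ℝ) ≤ R := by exact_mod_cast hR1
  obtain ⟨T3, hT3⟩ := exists_nat_ge ((Real.log 2 + Real.log c) / (η / (8 * (q * e0))))
  obtain ⟨T, hT, hT1, hh⟩ := h θ h0 h1 R hR L hL (max T0 (max T3 (16 * (q * e0))))
  have hTa : T0 ≤ T := le_trans (le_max_left _ _) hT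
  have hTb : T3 ≤ T := le_trans ((le_max_left _ _).trans (le_max_right _ _)) hT
  have hTc : 16 * (q * e0) ≤ T := le_trans ((le_max_right _ _).trans (le_max_right _ _)) hT
  have hk : 16 * (q * e0) ≤ R * T := by
    calc 16 * (q * e0) ≤ T := hTc
      _ = 1 * T := (one_mul _).symm
      _ ≤ R * T := Nat.mul_le_mul_right _ hR1
  have hlog : Real.log 2 + Real.log c ≤ η / (8 * (q * e0)) * (R * T) := by
    have b1 : (T3 : ℝ) ≤ R * T := by
      have b2 : (T3 : ℝ) ≤ T := by exact_mod_cast hTb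
      have b3 : (0 : ℝ) ≤ T := Nat.cast_nonneg _
      nlinarith
    have b4 := hT3.trans b1
    rw [div_le_iff₀ hη'] at b4
    linarith
  refine ⟨T, hTa, ?_⟩
  intro α hα N hN hcard
  have hm := mi_switch (P := P) E hN (E.Fm_nm θ T L) hc hcard (R * T)
  have hfin : hi P E.Ξ N (fun _ => ()) - hi P E.Ξ N (E.Sm (R * T)) ≤
      η / (4 * (q * e0)) * ((R * T : ℕ) : ℝ) := by
    have e1 : η / (4 * (q * e0)) * ((R * T : ℕ) : ℝ) =
        η / (8 * (q * e0)) * (R * T) + η / (8 * (q * e0)) * (R * T) := by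
      push_cast
      field_simp
      ring
    rw [e1]
    linarith
  obtain ⟨i, hi1, hi2, hi3, hi4⟩ := exists_digits E hN (k := R * T)
    (η := η / (4 * (q * e0))) (by positivity) hfin hq he0 hk
  refine ⟨i, hi1, hi2, hi3, fun l => ?_⟩
  refine (hi4 l).trans (le_of_eq ?_)
  field_simp

end Pool.Agent.H10.PS
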