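import Pool.Agent.H10.PS.TEc
import Pool.Agent.H10.PS.Dj
import Pool.Agent.H10.PS.Dcp
import Pool.Agent.H10.PS.Sw
import Pool.Agent.H10.PS.Fc
import Pool.Agent.H10.PS.ESd

/-!
Assembly of the coupling for the suspension (helper10): everything except the form of the names and the
shift of the window (see `H67/LX/Coup.lean`).
-/

set_option autoImplicit false
set_option linter.unusedSectionVars false

open MeasureTheory Filter Matrix
open scoped Topology
open Pool.Agent.H73.PZ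
open Pool.Agent.H23.DM
open Pool.Agent.H67.LX
open H31.BE

namespace Pool.Agent.H10.PS

variable {p : ℕ} [Fact p.Prime] {n : ℕ} {Γ : Subgroup (SLn p n)} {F M : Type}
    [TopologicalSpace F] [CompactSpace F] [T2Space F] [SecondCountableTopology F]
    [MeasurableSpace F] [BorelSpace F] [MulAction (SLn p n) F]
    [TopologicalSpace M] [CompactSpace M] [T2Space M] [SecondCountableTopology M]
    [MeasurableSpace M] [BorelSpace M] [MulAction Γ M]
    [MulAction (SLn p n) (F × M)] [MulAction (AZ n) (F × M)]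

/-- Two points of `[0,1]` in the same cell are `1/N`-close. -/
private theorem Asm_cel {N : ℕ} (hN : 1 ≤ N) {x y : ℝ} (hx : 0 ≤ x) (hx1 : x ≤ 1) (hy : 0 ≤ y)
    (hy1 : y ≤ 1) (h : cel N x = cel N y) : |x - y| ≤ 1 / N := by
  have hN0 : (0 : ℝ) < N := by exact_mod_cast hN
  have h1 : min ⌊(N : ℝ) * x⌋₊ N = min ⌊(N : ℝ) * y⌋₊ N := congrArg Fin.val h
  have hNx : 0 ≤ (N : ℝ) * x := by positivity
  have hNy : 0 ≤ (N : ℝ) * y := by positivity
  have h2 : ⌊(N : ℝ) * x⌋₊ ≤ N := by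
    have : ⌊(N : ℝ) * x⌋₊ ≤ ⌊(N : ℝ)⌋₊ := Nat.floor_le_floor (by nlinarith)
    rwa [Nat.floor_natCast] at this
  have h3 : ⌊(N : ℝ) * y⌋₊ ≤ N := by
    have : ⌊(N : ℝ) * y⌋₊ ≤ ⌊(N : ℝ)⌋₊ := Nat.floor_le_floor (by nlinarith)
    rwa [Nat.floor_natCast] at this
  rw [min_eq_left h2, min_eq_left h3] at h1
  have a1 := Nat.floor_le hNx
  have a2 := Nat.lt_floor_add_one ((N : ℝ) * x)
  have b1 := Nat.floor_le hNy
  have b2 := Nat.lt_floor_add_one ((N : ℝ) * y)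
  rw [h1] at a1 a2
  have h4 : |(N : ℝ) * x - N * y| ≤ 1 := by
    rw [abs_le]
    constructor <;> linarith
  rw [le_div_iff₀ hN0]
  calc |x - y| * N = |(N : ℝ) * x - N * y| := by
        rw [← mul_sub, abs_mul, abs_of_pos hN0, mul_comm]
    _ ≤ 1 := h4

/-- The coupling with the `floor` names of `b^(j T) y`, `j < L`. -/
theorem coup_sus (S : Sus Γ F M) {μ : Measure (F × M)} (hE : Sys (AZ n) (F × M) μ)
    (hov : S.OvH μ) {j k : Fin n} (hjk : j ≠ k) (b : AZ n) (hb : rt j k b = 0)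
    (e : ℕ) (he : 1 ≤ e) (q : ℕ) (hq : 1 ≤ q) {η : ℝ} (hη : 0 < η) :
    ∃ ε : ℝ, 0 < ε ∧ ∀ L R : ℕ, 1 ≤ R → ∀ T0 : ℕ, ∃ T : ℕ, T0 ≤ T ∧ ∃ i : ℕ,
      R * T ≤ 8 * e * i ∧ i + q ≤ R * T ∧ ∀ l : ℕ, ∃ B : ℕ,
        ∀ φ : F → (Fin L → S.V.κ → ℤ) → ZMod (p ^ (e * (i + q))) → ℝ,
          (∀ f v t, 0 ≤ φ f v t ∧ φ f v t ≤ 1) →
          (∀ f v t, ∀ g ∈ KM p n (l + 2), φ (g • f) v t = φ f v t) →
          |(∑ s ∈ Finset.range (p ^ B), ∫ y : F × M,
              (φ (EE hjk (-((p : ℚ_[p]) ^ 2 * (s : ℚ_[p]))) • y.1)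
                  (fun j i => ⌊S.V.ψ i ((dgh p n b) ^ ((j : ℕ) * T) • y).2 /
                    Real.exp (-(ε * (R * T)))⌋) (s : ZMod _) -
                φ (EE hjk (-((p : ℚ_[p]) ^ 2 * (s : ℚ_[p]))) • y.1)
                  (fun j i => ⌊S.V.ψ i ((dgh p n b) ^ ((j : ℕ) * T) • y).2 /
                    Real.exp (-(ε * (R * T)))⌋)
                  ((s : ZMod _) + (p : ZMod _) ^ (e * i))) ∂μ)| ≤ η * p ^ B := by
  classical
  have hprob : IsProbabilityMeasure μ := hE.prob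
  obtain ⟨Bd, hB, hBd⟩ := exists_bd S
  obtain ⟨Z, mZ, ν, Sz, hν, hS⟩ := exists_Zp p
  have hms := sd_ms S hE hov hB hBd hjk b hb
  obtain ⟨c, hc⟩ := exists_sdcoc S hE hB hBd hjk b hb
  obtain ⟨d, hd⟩ : ∃ d, d = sdat S hB hBd hjk b hb := ⟨_, rfl⟩
  obtain ⟨E, h1, h2, h3, h4⟩ := (sdat S hB hBd hjk b hb).exists_esys hms hν hS
  obtain ⟨Λ, c0, θ0, hΛ, hc0, hTE⟩ :=
    (sdat S hB hBd hjk b hb).exists_TE hE (sjet S hB hBd hjk b hb) c hc hν E h1 h3 h4
  have heq : 1 ≤ e * q := Nat.mul_pos he hq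
  obtain ⟨κ0, hκ0, hI⟩ := I1g E hΛ hc0 hTE heq he (η := (η / 4) ^ 2) (by positivity)
  refine ⟨1 / κ0, by positivity, ?_⟩
  intro L R hR T00
  have hR0 : (0 : ℝ) < R := by exact_mod_cast hR
  obtain ⟨m, hm⟩ := exists_nat_ge (max (max θ0 1 * κ0 / R) 1)
  have hm1 : (1 : ℝ) ≤ m := (le_max_right _ _).trans hm
  have hm1' : 1 ≤ m := by exact_mod_cast hm1
  have hm2 : max θ0 1 * κ0 / R ≤ m := (le_max_left _ _).trans hm
  obtain ⟨θ, hθ⟩ : ∃ θ : ℝ, θ = 1 / κ0 * (R * m) := ⟨_, rfl⟩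
  have hθm : max θ0 1 ≤ θ := by
    rw [hθ, one_div_mul_eq_div, le_div_iff₀ hκ0]
    rw [div_le_iff₀ hR0] at hm2
    linarith
  have hθ0 : θ0 ≤ θ := (le_max_left _ _).trans hθm
  have hθ1 : 1 ≤ θ := (le_max_right _ _).trans hθm
  have hκθ : κ0 * θ ≤ ((R * m : ℕ) : ℝ) := by
    rw [hθ]
    push_cast
    apply le_of_eq
    field_simp
  obtain ⟨c1, hc1⟩ := exists_nat_ge (2 * Bd)
  obtain ⟨T', hT', H⟩ := hI θ hθ0 hθ1 (R * m) hκθ (L * m + 1) (by omega)
    ((2 * c1 + 3) ^ (L * Fintype.card S.V.κ)) (Nat.one_le_pow _ _ (by omega))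
    (max T00 (2 * q))
  have hT1 : T00 ≤ T' := (le_max_left _ _).trans hT'
  have hT2 : 2 * q ≤ T' := (le_max_right _ _).trans hT'
  obtain ⟨T, hT⟩ : ∃ T : ℕ, T = m * T' := ⟨_, rfl⟩
  have hTT' : T' ≤ T := by rw [hT]; exact Nat.le_mul_of_pos_left _ hm1'
  obtain ⟨ρ, hρ⟩ : ∃ ρ : ℝ, ρ = Real.exp (-(1 / κ0 * (R * T))) := ⟨_, rfl⟩
  have hρ0 : 0 < ρ := by rw [hρ]; exact Real.exp_pos _
  have hρθ : ρ = Real.exp (-(θ * T')) := by
    rw [hρ, hθ, hT]
    congr 1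
    push_cast
    ring
  obtain ⟨N0, hN0⟩ : ∃ N0 : F × M → Fin L → S.V.κ → ℤ, N0 = fun y j i =>
      ⌊S.V.ψ i ((dgh p n b) ^ ((j : ℕ) * T) • y).2 / ρ⌋ := ⟨_, rfl⟩
  -- the names take finitely many values
  have hfinN : (Set.range N0).Finite := by
    obtain ⟨c2, hc2⟩ := exists_nat_ge (2 * Bd / ρ)
    have h := (floor_ncard (Ω := F × M) (κ := S.V.κ) (L := L)
      (fun y j i => S.V.ψ i ((dgh p n b) ^ ((j : ℕ) * T) • y).2 / ρ) (fun _ => True) (c := c2)
      (by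
        intro ω ω' _ _ j i
        have a1 := abs_le.1 (hBd i ((dgh p n b) ^ ((j : ℕ) * T) • ω).2)
        have a2 := abs_le.1 (hBd i ((dgh p n b) ^ ((j : ℕ) * T) • ω').2)
        rw [← sub_div, abs_div, abs_of_pos hρ0]
        refine le_trans (div_le_div_of_nonneg_right ?_ hρ0.le) hc2
        rw [abs_le]
        constructor <;> linarith)).1
    refine h.subset ?_
    rintro v ⟨y, rfl⟩
    exact ⟨y, trivial, by rw [hN0]⟩
  have hfin : Finite (Set.range N0) := hfinN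
  obtain ⟨N, hN⟩ : ∃ N : F × M → Set.range N0, N = fun y => ⟨N0 y, y, rfl⟩ := ⟨_, rfl⟩
  have hNm : Fm N := by
    rintro ⟨v, y0, hv⟩
    have e1 : N ⁻¹' {⟨v, y0, hv⟩} = ⋂ j : Fin L, ⋂ i : S.V.κ,
        {y | ⌊S.V.ψ i ((dgh p n b) ^ ((j : ℕ) * T) • y).2 / ρ⌋ = v j i} := by
      ext y
      simp only [Set.mem_preimage, Set.mem_singleton_iff, Set.mem_iInter, Set.mem_ofPred_eq]
      rw [hN]
      constructor
      · intro h j i
        have h' : N0 y = v := congrArg Subtype.val h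
        rw [← h', hN0]
      · intro h
        apply Subtype.ext
        change N0 y = v
        rw [hN0]
        funext j i
        exact h j i
    rw [e1]
    refine MeasurableSet.iInter fun j => MeasurableSet.iInter fun i => ?_
    have hm : Measurable fun y : F × M => ⌊S.V.ψ i ((dgh p n b) ^ ((j : ℕ) * T) • y).2 / ρ⌋ :=
      (((S.V.ψ_cont i).measurable.comp (measurable_snd.comp
        (S.measurable_smul ((dgh p n b) ^ ((j : ℕ) * T))))).div_const ρ).floor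
    exact hm (measurableSet_singleton _)
  have hNm' : Fm fun ω : (F × M) × Z => N ω.1 := Fm.comp_measurable measurable_fst hNm
  have hcount : ∀ b' : Fin (L * m + 1) → Fin (Fintype.card S.V.κ) → Fin (sc θ T' + 1),
      {a : Set.range N0 | ∃ ω : (F × M) × Z, N ω.1 = a ∧ E.nm θ T' (L * m + 1) ω = b'}.ncard ≤
        (2 * c1 + 3) ^ (L * Fintype.card S.V.κ) := by
    intro b'
    have hb := floor_ncard (Ω := (F × M) × Z) (κ := S.V.κ) (L := L)
      (fun ω j i => S.V.ψ i ((dgh p n b) ^ ((j : ℕ) * T) • ω.1).2 / ρ)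
      (fun ω => E.nm θ T' (L * m + 1) ω = b') (c := c1)
      (by
        intro ω ω' hω hω' j i
        have hj : (j : ℕ) * m < L * m + 1 :=
          Nat.lt_succ_of_le (Nat.mul_le_mul_right m j.2.le)
        have h5 := congrFun (congrFun (hω.trans hω'.symm) ⟨(j : ℕ) * m, hj⟩)
          (Fintype.equivFin S.V.κ i)
        change cel (sc θ T') (E.ψ (E.τ^[(j : ℕ) * m * T'] ω) (Fintype.equivFin S.V.κ i)) =
          cel (sc θ T') (E.ψ (E.τ^[(j : ℕ) * m * T'] ω') (Fintype.equivFin S.V.κ i)) at h5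
        have hit : ∀ (t : ℕ) (ω : (F × M) × Z), (E.τ^[t] ω).1 = (dgh p n b) ^ t • ω.1 := by
          intro t ω
          induction t with
          | zero => simp
          | succ t ih =>
            rw [Function.iterate_succ_apply', h1, pow_succ', mul_smul, ← ih]
            rfl
        have hψ : ∀ ω : (F × M) × Z, E.ψ (E.τ^[(j : ℕ) * m * T'] ω) (Fintype.equivFin S.V.κ i) =
            (S.V.ψ i ((dgh p n b) ^ ((j : ℕ) * T) • ω.1).2 + Bd) / (2 * Bd) := by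
          intro ω
          rw [h3]
          change psn S Bd (E.τ^[(j : ℕ) * m * T'] ω).1.2 (Fintype.equivFin S.V.κ i) = _
          rw [hit, psn, Equiv.symm_apply_apply, hT, mul_assoc]
        have hsc : 1 ≤ sc θ T' := Nat.one_le_ceil_iff.2 (Real.exp_pos _)
        have h6 := Asm_cel hsc (E.ψ0 _ _) (E.ψ1 _ _) (E.ψ0 _ _) (E.ψ1 _ _) h5
        rw [hψ, hψ] at h6
        have h7 : 1 / (sc θ T' : ℝ) ≤ ρ := by
          have h8 : Real.exp (θ * T') ≤ sc θ T' := Nat.le_ceil _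
          rw [hρθ, Real.exp_neg, one_div]
          exact inv_anti₀ (Real.exp_pos _) h8
        have h9 := h6.trans h7
        have hB0 : (0 : ℝ) < 2 * Bd := by linarith
        rw [← sub_div, abs_div, abs_of_pos hB0, div_le_iff₀ hB0, add_sub_add_right_eq_sub] at h9
        rw [← sub_div, abs_div, abs_of_pos hρ0, div_le_iff₀ hρ0]
        refine h9.trans ?_
        rw [mul_comm]
        exact mul_le_mul_of_nonneg_right hc1 hρ0.le)
    refine le_trans ?_ hb.2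
    refine Set.ncard_le_ncard_of_injOn Subtype.val ?_ Subtype.val_injective.injOn hb.1
    rintro a ⟨ω, hω1, hω2⟩
    refine ⟨ω, hω2, ?_⟩
    rw [← hω1, hN, hN0]
  obtain ⟨i', ⟨i, hi⟩, hi1, hi2, hi3⟩ := H (Set.range N0) hfin (fun ω => N ω.1) hNm' hcount
  refine ⟨T, hT1.trans hTT', i, ?_, ?_, ?_⟩
  · have : R * T = R * m * T' := by rw [hT, mul_assoc]
    rw [this, mul_assoc 8 e i, ← hi]
    exact hi1
  · have e1 : R * T = R * m * T' := by rw [hT, mul_assoc]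
    have e2 : T' ≤ R * m * T' := Nat.le_mul_of_pos_left _ (Nat.mul_pos hR hm1')
    have e3 : i ≤ i' := by rw [hi]; exact Nat.le_mul_of_pos_left _ he
    rw [e1]
    omega
  · intro l
    obtain ⟨B, hB'⟩ := (sdat S hB hBd hjk b hb).coup_dat hprob hν hS E h2 h4 hNm i' (e * q) l (hi3 l)
    refine ⟨B, ?_⟩
    have hsq : 4 * √((η / 4) ^ 2) = η := by
      rw [Real.sqrt_sq (by positivity)]
      ring
    rw [hsq] at hB'
    have key : ∀ K : ℕ, K = i' + e * q → ∀ φ : F → (Fin L → S.V.κ → ℤ) → ZMod (p ^ K) → ℝ,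
        (∀ f v t, 0 ≤ φ f v t ∧ φ f v t ≤ 1) →
        (∀ f v t, ∀ g ∈ KM p n (l + 2), φ (g • f) v t = φ f v t) →
        |(∑ s ∈ Finset.range (p ^ B), ∫ y : F × M,
            (φ (EE hjk (-((p : ℚ_[p]) ^ 2 * (s : ℚ_[p]))) • y.1) (N0 y) (s : ZMod (p ^ K)) -
              φ (EE hjk (-((p : ℚ_[p]) ^ 2 * (s : ℚ_[p]))) • y.1) (N0 y)
                ((s : ZMod (p ^ K)) + (p : ZMod (p ^ K)) ^ i')) ∂μ)| ≤ η * p ^ B := by
      intro K hK φ hφ hφ'
      subst hK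
      have h := hB' (fun f a t => φ f a.1 t) (fun f a t => hφ f a.1 t)
        (fun f a t g hg => hφ' f a.1 t g hg)
      have hud : ∀ s : ℕ, (sdat S hB hBd hjk b hb).ud (-(s : ℤ_[p])) =
          EE hjk (-((p : ℚ_[p]) ^ 2 * (s : ℚ_[p]))) := by
        intro s
        change EE hjk ((p : ℚ_[p]) ^ 2 * ((-(s : ℤ_[p]) : ℤ_[p]) : ℚ_[p])) = _
        congr 1
        push_cast
        ring
      simp only [hud] at h
      have hNN : ∀ y, (N y).1 = N0 y := by
        intro y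
        rw [hN]
      simp only [hNN] at h
      exact h
    intro φ hφ hφ'
    have h := key (e * (i + q)) (by rw [hi]; ring) φ hφ hφ'
    rw [hN0, hρ, hi] at h
    exact h

end Pool.Agent.H10.PS
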