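import Pool.Agent.H10.PS.Defs

/-!
MODULE Cel (110 lines).  Cells and names: elementary facts.

`cel N t = ⌊N t⌋₊` for `0 ≤ t ≤ 1`.  Same cell: `|N t - N t'| ≤ 1` (both are in `[m, m+1]`).
`cel_near`: `N |t - t'| ≤ 2` gives that the floors differ by at most `2`.
`sc θ T = ⌈exp (θ T)⌉₊`: `exp (θ T) ≤ sc θ T ≤ exp (θ T) + 1`.
`Fm_cl`, `Fm_nm`: `Fm.pi` and measurability of `ψ`, of `⌊·⌋₊` (`Nat.measurable_floor`), of the
iterates of `τ` (`E.mp.measurable.iterate`).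
`log_sc`: `log (sc θ T + 1) ≤ log (exp (θ T) + 2) ≤ θ T + log 3`.
-/

set_option autoImplicit false

open MeasureTheory H31.BE

namespace Pool.Agent.H10.PS

private theorem cel_val {N : ℕ} {t : ℝ} (h1 : t ≤ 1) :
    ((cel N t : Fin (N + 1)) : ℕ) = ⌊(N : ℝ) * t⌋₊ := by
  simp only [cel]
  apply min_eq_left
  apply Nat.floor_le_of_le
  have hN : (0 : ℝ) ≤ N := Nat.cast_nonneg N
  nlinarith

theorem cel_close {N : ℕ} (hN : 1 ≤ N) {t t' : ℝ} (h0 : 0 ≤ t) (h1 : t ≤ 1) (h0' : 0 ≤ t')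
    (h1' : t' ≤ 1) (h : cel N t = cel N t') : |t - t'| ≤ 1 / N := by
  have hNpos : (0 : ℝ) < N := by exact_mod_cast hN
  have hv : ⌊(N : ℝ) * t⌋₊ = ⌊(N : ℝ) * t'⌋₊ := by
    rw [← cel_val h1, ← cel_val h1', h]
  have a1 := Nat.floor_le (mul_nonneg hNpos.le h0)
  have a2 := Nat.lt_floor_add_one ((N : ℝ) * t)
  have b1 := Nat.floor_le (mul_nonneg hNpos.le h0')
  have b2 := Nat.lt_floor_add_one ((N : ℝ) * t')
  rw [hv] at a1 a2
  have e : |t - t'| * N = |(t - t') * N| := by rw [abs_mul, abs_of_pos hNpos]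
  rw [le_div_iff₀ hNpos, e, abs_le]
  constructor <;> nlinarith

theorem cel_near {N : ℕ} {t t' : ℝ} (h0 : 0 ≤ t) (h1 : t ≤ 1) (h0' : 0 ≤ t')
    (h1' : t' ≤ 1) (h : |t - t'| * N ≤ 2) :
    ((cel N t' : ℕ) : ℤ) - 2 ≤ (cel N t : ℕ) ∧ ((cel N t : ℕ) : ℤ) ≤ (cel N t' : ℕ) + 2 := by
  have hN0 : (0 : ℝ) ≤ N := Nat.cast_nonneg N
  rw [cel_val h1, cel_val h1']
  have h2 : |(N : ℝ) * t - N * t'| ≤ 2 := by
    rw [← mul_sub, abs_mul, abs_of_nonneg hN0, mul_comm]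
    exact h
  have h3 := abs_le.mp h2
  have e1 : ⌊(N : ℝ) * t⌋₊ ≤ ⌊(N : ℝ) * t'⌋₊ + 2 := by
    have : ⌊(N : ℝ) * t⌋₊ ≤ ⌊(N : ℝ) * t' + (2 : ℕ)⌋₊ := Nat.floor_le_floor (by push_cast; linarith)
    rwa [Nat.floor_add_natCast (mul_nonneg hN0 h0')] at this
  have e2 : ⌊(N : ℝ) * t'⌋₊ ≤ ⌊(N : ℝ) * t⌋₊ + 2 := by
    have : ⌊(N : ℝ) * t'⌋₊ ≤ ⌊(N : ℝ) * t + (2 : ℕ)⌋₊ := Nat.floor_le_floor (by push_cast; linarith)
    rwa [Nat.floor_add_natCast (mul_nonneg hN0 h0)] at this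
  constructor <;> omega

theorem exp_le_sc (θ : ℝ) (T : ℕ) : Real.exp (θ * T) ≤ sc θ T := Nat.le_ceil _

theorem sc_pos (θ : ℝ) (T : ℕ) : 1 ≤ sc θ T :=
  Nat.one_le_iff_ne_zero.mpr (Nat.ceil_pos.mpr (Real.exp_pos _)).ne'

theorem sc_le (θ : ℝ) (T : ℕ) : (sc θ T : ℝ) ≤ Real.exp (θ * T) + 1 :=
  (Nat.ceil_lt_add_one (Real.exp_pos _).le).le

theorem log_sc {θ : ℝ} (hθ : 0 ≤ θ) (T : ℕ) : Real.log ((sc θ T : ℝ) + 1) ≤ θ * T + 2 := by
  have h1 : (0 : ℝ) ≤ θ * T := mul_nonneg hθ (Nat.cast_nonneg T)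
  have h2 : (1 : ℝ) ≤ Real.exp (θ * T) := Real.one_le_exp h1
  have h3 : (sc θ T : ℝ) + 1 ≤ Real.exp (θ * T + 2) := by
    have e2 : (3 : ℝ) ≤ Real.exp 2 := by
      have := Real.add_one_le_exp (2 : ℝ)
      linarith
    rw [Real.exp_add]
    have := sc_le θ T
    nlinarith
  have h4 : (0 : ℝ) < (sc θ T : ℝ) + 1 := by positivity
  calc Real.log ((sc θ T : ℝ) + 1) ≤ Real.log (Real.exp (θ * T + 2)) := Real.log_le_log h4 h3
    _ = θ * T + 2 := Real.log_exp _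

theorem cel_close_sc {θ : ℝ} {T : ℕ} {t t' : ℝ} (h0 : 0 ≤ t) (h1 : t ≤ 1) (h0' : 0 ≤ t')
    (h1' : t' ≤ 1) (h : cel (sc θ T) t = cel (sc θ T) t') : |t - t'| ≤ Real.exp (-(θ * T)) := by
  refine (cel_close (sc_pos θ T) h0 h1 h0' h1' h).trans ?_
  rw [Real.exp_neg, one_div]
  exact inv_anti₀ (Real.exp_pos _) (exp_le_sc θ T)

private theorem measurable_cel (N : ℕ) : Measurable (cel N) := by
  have h : Measurable fun t : ℝ => min ⌊(N : ℝ) * t⌋₊ N :=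
    (Nat.measurable_floor.comp (measurable_const.mul measurable_id)).min measurable_const
  refine measurable_to_countable' fun a => ?_
  have : cel N ⁻¹' {a} = (fun t : ℝ => min ⌊(N : ℝ) * t⌋₊ N) ⁻¹' {(a : ℕ)} := by
    ext t
    simp only [Set.mem_preimage, Set.mem_singleton_iff, cel, Fin.ext_iff]
  rw [this]
  exact h (measurableSet_singleton _)

namespace ESys

variable {p : ℕ} [Fact p.Prime] {Ω : Type} [MeasurableSpace Ω] {P : Measure Ω} {D : ℕ}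

theorem Fm_cl (E : ESys p Ω P D) (N n : ℕ) : Fm fun ω => E.cl N (E.τ^[n] ω) := by
  refine Fm.pi (f := fun (i : Fin D) ω => cel N (E.ψ (E.τ^[n] ω) i)) fun i => ?_
  intro a
  have hm : Measurable fun ω => cel N (E.ψ (E.τ^[n] ω) i) :=
    (measurable_cel N).comp ((E.ψmeas i).comp (E.mp.measurable.iterate n))
  exact hm (measurableSet_singleton a)

theorem Fm_nm (E : ESys p Ω P D) (θ : ℝ) (T L : ℕ) : Fm (E.nm θ T L) :=
  Fm.pi (f := fun (j : Fin L) ω => E.cl (sc θ T) (E.τ^[j * T] ω)) fun j => E.Fm_cl (sc θ T) (j * T)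

theorem Fm_Sm (E : ESys p Ω P D) (k : ℕ) : Fm (E.Sm k) := E.Smeas k

theorem Sm_cast (E : ESys p Ω P D) {k j : ℕ} (h : k ≤ j) (ω : Ω) :
    E.Sm k ω = ZMod.castHom (pow_dvd_pow p h) (ZMod (p ^ k)) (E.Sm j ω) := by
  have := PadicInt.zmod_cast_comp_toZModPow (p := p) k j h
  have h2 := congrArg (fun f => f (E.S ω)) this
  simpa [Sm] using h2.symm

end ESys

end Pool.Agent.H10.PS
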