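import Pool.Agent.H10.PS.En3
import Pool.Agent.H10.PS.Cel

/-!
MODULE Blk (110 lines).  The block inequality.

`nm θ T (M L)` and the family `j ↦ nm θ T L (τ^[j L T] ω)`, `j : Fin M`, are functions of each other
(`E.nm θ T (M * L) ω ⟨j * L + i, _⟩ = E.nm θ T L (τ^[j * L * T] ω) i`; `Function.iterate_add_apply`).
`hi(nm(ML)) ≤ hi((nm(ML), Sm k)) = hi(Sm k) + hi(nm(ML) | Sm k)` (`hi_comp_le`, `hi_chain`; the conditioning
`(Sm k, ())` and `Sm k` differ by a bijection: `hi_anti`),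
`hi(Sm k) = k log p` (`hi_Sm`), `hi(nm(ML) | Sm k) ≤ ∑_{j<M} hi(nm L ∘ τ^[jLT] | Sm k)` (`hi_comp_le`,
`hi_pi_le`) and each term is `≤ hi(nm L | Sm k)` (`hi_shift` with `R' = Sm k`, `Sm_iterate`).
-/

set_option autoImplicit false

open MeasureTheory H31.BE

namespace Pool.Agent.H10.PS

variable {p : ℕ} [Fact p.Prime] {Ω : Type} [MeasurableSpace Ω] {P : Measure Ω}
  [IsProbabilityMeasure P] {D : ℕ}

omit [IsProbabilityMeasure P] in
private theorem block_fac (E : ESys p Ω P D) (θ : ℝ) (T L M : ℕ) :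
    ∃ φ : (Fin M → Fin L → Fin D → Fin (sc θ T + 1)) → Fin (M * L) → Fin D → Fin (sc θ T + 1),
      E.nm θ T (M * L) = fun ω => φ (fun j => E.nm θ T L (E.τ^[j * (L * T)] ω)) := by
  have hd : ∀ n : Fin (M * L), (n : ℕ) / L < M := fun n =>
    Nat.div_lt_of_lt_mul (lt_of_lt_of_eq n.2 (mul_comm M L))
  have hm : ∀ n : Fin (M * L), (n : ℕ) % L < L := fun n =>
    Nat.mod_lt _ (Nat.pos_of_ne_zero (by
      rintro rfl
      exact absurd n.2 (by simp)))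
  refine ⟨fun g n => g ⟨n / L, hd n⟩ ⟨n % L, hm n⟩, ?_⟩
  funext ω n
  show E.cl (sc θ T) (E.τ^[(n : ℕ) * T] ω) =
    E.cl (sc θ T) (E.τ^[((n : ℕ) % L) * T] (E.τ^[((n : ℕ) / L) * (L * T)] ω))
  have h := Nat.mod_add_div (n : ℕ) L
  have e : (n : ℕ) * T = ((n : ℕ) % L) * T + ((n : ℕ) / L) * (L * T) := by
    calc (n : ℕ) * T = ((n : ℕ) % L + L * ((n : ℕ) / L)) * T := by rw [h]
      _ = ((n : ℕ) % L) * T + ((n : ℕ) / L) * (L * T) := by ring
  rw [← Function.iterate_add_apply, ← e]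

theorem block (E : ESys p Ω P D) (θ : ℝ) (T L M k : ℕ) :
    hi P E.Ξ (E.nm θ T (M * L)) (fun _ => ()) ≤
      k * Real.log p + M * hi P E.Ξ (E.nm θ T L) (E.Sm k) := by
  have hR : Fm (E.nm θ T (M * L)) := E.Fm_nm θ T (M * L)
  have hS : Fm (E.Sm k) := E.Fm_Sm k
  have hU : Fm (fun _ : Ω => ()) := fun a => by
    have : (fun _ : Ω => ()) ⁻¹' {a} = Set.univ := by
      ext ω
      simp
    rw [this]
    exact MeasurableSet.univ
  have hF : ∀ j : Fin M, Fm fun ω => E.nm θ T L (E.τ^[j * (L * T)] ω) := fun j =>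
    Fm_iterate E (E.Fm_nm θ T L) _
  -- the names of the long block from the names of the short ones
  obtain ⟨φ, hφ⟩ := block_fac E θ T L M
  have h1 : hi P E.Ξ (E.nm θ T (M * L)) (fun _ => ()) ≤
      hi P E.Ξ (fun ω => (E.nm θ T (M * L) ω, E.Sm k ω)) (fun _ => ()) :=
    hi_comp_le E.Ξ (hR.prodMk hS) hU Prod.fst
  rw [hi_chain E.Ξ hR hS hU, hi_Sm] at h1
  have h2 : hi P E.Ξ (E.nm θ T (M * L)) (fun ω => (E.Sm k ω, ())) ≤
      hi P E.Ξ (E.nm θ T (M * L)) (E.Sm k) :=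
    hi_anti E.Ξ hR (hS.prodMk hU) Prod.fst
  have h3 := hi_comp_le (P := P) E.Ξ (Fm.pi hF) hS φ
  rw [← hφ] at h3
  have h4 : hi P E.Ξ (fun ω (j : Fin M) => E.nm θ T L (E.τ^[j * (L * T)] ω)) (E.Sm k) ≤
      ∑ j : Fin M, hi P E.Ξ (fun ω => E.nm θ T L (E.τ^[j * (L * T)] ω)) (E.Sm k) :=
    hi_pi_le E.Ξ hF hS
  have h5 : ∀ j : Fin M, hi P E.Ξ (fun ω => E.nm θ T L (E.τ^[j * (L * T)] ω)) (E.Sm k) ≤
      hi P E.Ξ (E.nm θ T L) (E.Sm k) := by
    intro j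
    have h := hi_shift E (E.Fm_nm θ T L) hS (j * (L * T))
    have e : (fun ω => E.Sm k (E.τ^[j * (L * T)] ω)) = E.Sm k :=
      funext fun ω => Sm_iterate E k _ ω
    rwa [e] at h
  have h6 : ∑ j : Fin M, hi P E.Ξ (fun ω => E.nm θ T L (E.τ^[j * (L * T)] ω)) (E.Sm k) ≤
      M * hi P E.Ξ (E.nm θ T L) (E.Sm k) := by
    refine (Finset.sum_le_sum fun j _ => h5 j).trans (le_of_eq ?_)
    rw [Finset.sum_const, Finset.card_univ, Fintype.card_fin, nsmul_eq_mul]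
  linarith

end Pool.Agent.H10.PS
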