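import Pool.Agent.H10.PS.Defs
import Pool.Agent.H23.DM.Sp4

/-!
MP_d9606f_gt, theorem (P*).  The abstract setting for a triple of roots `γ, δ, β = γ + δ` (helper10).

* `G` acts on `F` (base), `Γ` on `M` (fibre), `G` on `X` (the suspension): `bs : X → F`, `fb : X → M`,
  `fb (g • x) = al g (bs x) • fb x`.
* `K l`: the congruence subgroups (`K 0` is the group `KM 2` of the papers: torsion free, trivial
  cocycle).
* `b`: the element of the diagonal group with `δ(b) = 0`, `γ(b) = β(b) = e0 ≥ 1`.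
* `uc x = E_γ(p² x)`, `ud w = E_δ(p² w)`, `ub s = E_β(p² s)`, `σ = ± p²`.
* `ψ : M → [0,1]^D`: the coordinates of the fibre.
* `d.Ms μ`: what is used of the measure.
* `d.Jet r`: the `r`-jets in piecewise charts.  `d.Cj J c`: `c` is the cocycle given by the jets.
* `d.Fol μ x`: the statement (I2).
-/

set_option autoImplicit false

open MeasureTheory Matrix Pool.Agent.H23.DM

namespace Pool.Agent.H10.PS

noncomputable section

/-- The abstract setting of (P*). -/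
structure Dat (p : ℕ) [Fact p.Prime] (G F M Γ X : Type) [Group G] [Group Γ] [MulAction G F]
    [MulAction Γ M] [MulAction G X] [MeasurableSpace X] [TopologicalSpace X] (D : ℕ) where
  /-- base point -/
  bs : X → F
  /-- fibre point -/
  fb : X → M
  /-- the cocycle -/
  al : G → F → Γ
  bs_smul : ∀ (g : G) (x : X), bs (g • x) = g • bs x
  fb_smul : ∀ (g : G) (x : X), fb (g • x) = al g (bs x) • fb x
  al_mul : ∀ (g g' : G) (f : F), al (g * g') f = al g (g' • f) * al g' f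
  /-- congruence subgroups -/
  K : ℕ → Subgroup G
  K_anti : ∀ l l', l ≤ l' → K l' ≤ K l
  K_norm : ∀ l : ℕ, ∀ k ∈ K l, ∀ g ∈ K 0, g * k * g⁻¹ ∈ K l
  K_conj : ∀ (g : G) (l : ℕ), ∃ l' : ℕ, ∀ k ∈ K l', g * k * g⁻¹ ∈ K l
  al_K : ∀ k ∈ K 0, ∀ f : F, al k f = 1
  /-- finitely many orbits -/
  orb_fin : ∀ l : ℕ, ∃ s : Finset F, ∀ f : F, ∃ f' ∈ s, ∃ k ∈ K l, f = k • f'
  orb_meas : ∀ (l : ℕ) (g : G) (f : F), MeasurableSet {x : X | ∃ k ∈ K l, g • bs x = k • f}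
  smul_meas : ∀ g : G, Measurable fun x : X => g • x
  /-- the diagonal element -/
  b : G
  /-- the root group of `γ` -/
  uc : ℤ_[p] → G
  /-- the root group of `δ` -/
  ud : ℤ_[p] → G
  /-- the root group of `β` -/
  ub : ℤ_[p] → G
  σ : ℤ_[p]
  e0 : ℕ
  he0 : 1 ≤ e0
  ud_add : ∀ s t, ud (s + t) = ud s * ud t
  ub_add : ∀ s t, ub (s + t) = ub s * ub t
  uc_K : ∀ s, uc s ∈ K 0
  ud_K : ∀ s, ud s ∈ K 0
  ub_K : ∀ s, ub s ∈ K 0
  ud_small : ∀ l, ∃ k : ℕ, ∀ s, ud (p ^ k * s) ∈ K l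
  ub_small : ∀ l, ∃ k : ℕ, ∀ s, ub (p ^ k * s) ∈ K l
  comm : ∀ x w, uc x * ud w = ud w * ub (σ * x * w) * uc x
  comm_db : ∀ w s, ud w * ub s = ub s * ud w
  b_ud : ∀ w, b * ud w = ud w * b
  b_ub : ∀ s, b * ub (p ^ e0 * s) = ub s * b
  /-- fibre coordinates -/
  ψ : M → Fin D → ℝ
  ψ0 : ∀ m i, 0 ≤ ψ m i
  ψ1 : ∀ m i, ψ m i ≤ 1
  ψmeas : ∀ i, Measurable fun x : X => ψ (fb x) i
  /-- every element of `Γ` acts by a Lipschitz map -/
  lip : ∀ γ : Γ, ∃ C : ℝ, ∀ m m' : M, dist (ψ (γ • m)) (ψ (γ • m')) ≤ C * dist (ψ m) (ψ m')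
  /-- `al g` takes finitely many values -/
  al_fin : ∀ g : G, (Set.range (al g)).Finite

namespace Dat

variable {p : ℕ} [Fact p.Prime] {G F M Γ X : Type} [Group G] [Group Γ] [MulAction G F]
  [MulAction Γ M] [MulAction G X] [MeasurableSpace X] [TopologicalSpace X] {D : ℕ}

/-- What is used of the measure `μ`. -/
structure Ms (d : Dat p G F M Γ X D) (μ : Measure X) : Prop where
  prob : IsProbabilityMeasure μ
  mb : MeasurePreserving (fun x : X => d.b • x) μ μ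
  mc : ∀ s, MeasurePreserving (fun x : X => d.uc s • x) μ μ
  md : ∀ s l (f : F), μ.real {x | ∃ k ∈ d.K l, d.ud s • d.bs x = k • f} =
    μ.real {x | ∃ k ∈ d.K l, d.bs x = k • f}

/-- Jets of order `r` in piecewise charts. -/
structure Jet (d : Dat p G F M Γ X D) (r : ℕ) where
  /-- index set of the monomials -/
  ι : Type
  ft : Fintype ι
  de : DecidableEq ι
  /-- the vector of the monomials of the difference of the coordinates -/
  jv : M → M → ι → ℝ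
  /-- the jet of an element of `Γ` at a point -/
  DJ : Γ → M → Matrix ι ι ℝ
  /-- the projection to the first order part -/
  P1 : Matrix ι ι ℝ
  mul : ∀ γ γ' m, DJ (γ * γ') m = DJ γ (γ' • m) * DJ γ' m
  one : ∀ m, DJ 1 m = 1
  P1_idem : P1 * P1 = P1
  P1_inv : ∀ γ m, P1 * (DJ γ m * P1) = DJ γ m * P1
  /-- comparison of the vector with the distance -/
  cmp : ∃ C δ : ℝ, 0 < δ ∧ ∀ m m', dist (d.ψ m) (d.ψ m') ≤ δ →
    vn (jv m m') ≤ C * dist (d.ψ m) (d.ψ m') ∧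
    dist (d.ψ m) (d.ψ m') ≤ C * vn (P1 *ᵥ jv m m') ∧
    vn (jv m m' - P1 *ᵥ jv m m') ≤ C * dist (d.ψ m) (d.ψ m') ^ 2
  /-- Taylor -/
  tay : ∀ γ, ∃ C δ : ℝ, 0 < δ ∧ ∀ m m', dist (d.ψ m) (d.ψ m') ≤ δ →
    vn (jv (γ • m) (γ • m') - DJ γ m *ᵥ jv m m') ≤ C * dist (d.ψ m) (d.ψ m') ^ (r + 1)
  /-- bounds -/
  bdd : ∀ γ, ∃ C : ℝ, ∀ m, fn (DJ γ m) ≤ C

attribute [instance] Jet.ft Jet.de

/-- `c` is the cocycle of the jets and `bA` acts as `b`. -/
structure Cj (d : Dat p G F M Γ X D) {r : ℕ} (J : d.Jet r) {A : Type} [CommGroup A]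
    [MulAction A X] {μ : Measure X} (aG : A → G) (c : Coc A X J.ι μ) (bA : A) : Prop where
  act : ∀ a (x : X), a • x = aG a • x
  mul : ∀ a a', aG (a * a') = aG a * aG a'
  one : aG 1 = 1
  hb : aG bA = d.b
  coc : ∀ a x, c.D a x = J.DJ (d.al (aG a) (d.bs x)) (d.fb x)

/-- (I2): if the orbits under `b` of `y` and of a nearby point in the same fibre are
`exp (-θ T)`-close at the times `j T`, `j ≤ n`, then the shifted points `u_γ(x) y` stay close at all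
times up to `R T`. -/
def Fol (d : Dat p G F M Γ X D) (μ : Measure X) (x : ℤ_[p]) : Prop :=
  ∀ κ : ℝ, 0 < κ → ∃ θ1 : ℝ, ∀ θ : ℝ, θ1 ≤ θ → ∀ R : ℕ, (R : ℝ) ≤ κ * θ + 1 → ∃ n : ℕ,
    ∀ η : ℝ, 0 < η → ∃ T0 : ℕ, ∀ T : ℕ, T0 ≤ T → ∃ Gd : Set X, MeasurableSet Gd ∧
      μ.real Gdᶜ ≤ η ∧ ∀ y ∈ Gd, ∀ m : M,
        (∀ j ≤ n, dist (d.ψ (d.fb (d.b ^ (j * T) • y))) (d.ψ (d.al (d.b ^ (j * T)) (d.bs y) • m)) ≤
          Real.exp (-(θ * T))) →
        ∀ t ≤ R * T,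
          dist (d.ψ (d.fb (d.b ^ t • y))) (d.ψ (d.al (d.b ^ t) (d.bs y) • m)) ≤
            Real.exp (-(θ * T / 4)) ∧
          dist (d.ψ (d.fb (d.b ^ t • d.uc x • y)))
            (d.ψ (d.al (d.b ^ t) (d.bs (d.uc x • y)) • m)) ≤ Real.exp (-(θ * T / 4))

end Dat

end

end Pool.Agent.H10.PS
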