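import Pool.Agent.H31.BE.EntF

/-!
MP_d9606f_gt, theorem (P*) (paper `/team-store/h10_pstar.md`).  Definitions for the entropy part
(helper10).

* `Filt Ω`: a sequence of finer and finer finite partitions `ξ l` of `Ω`.
* `hl P Ξ R R' l = H(R | R', ξ l)`, `hi P Ξ R R' = inf_l H(R | R', ξ l)` (relative entropy).
* `ESys p Ω P D`: a measure preserving map `τ`, partitions `Ξ` (names of the base point), a `τ`-invariant
  `p`-adic integer `S`, uniformly distributed relative to `Ξ`, and a bounded map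
  `ψ : Ω → [0,1]^D` (the fibre coordinate).
* `cel N t`: the cell of `t ∈ [0,1]` in the grid of mesh `1/N`; `sc θ T = ⌈exp (θ T)⌉`.
* `E.nm θ T L`: the names (cells of mesh `exp (-θ T)`) at the times `j T`, `j < L`.
* `E.Sm k`: the residue of `S` modulo `p^k`.
* `E.TE Λ c0 θ M n`: the two-ended closeness.
-/

set_option autoImplicit false

open MeasureTheory H31.BE

namespace Pool.Agent.H10.PS

noncomputable section

/-- A sequence of finer and finer finite partitions. -/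
structure Filt (Ω : Type) [MeasurableSpace Ω] where
  /-- the index set of the partition number `l` -/
  α : ℕ → Type
  fin : ∀ l, Finite (α l)
  /-- the partition number `l` -/
  ξ : ∀ l, Ω → α l
  meas : ∀ l, Fm (ξ l)
  mono : ∀ l l', l ≤ l' → ∃ φ : α l' → α l, ∀ ω, ξ l ω = φ (ξ l' ω)

instance {Ω : Type} [MeasurableSpace Ω] (Ξ : Filt Ω) (l : ℕ) : Finite (Ξ.α l) := Ξ.fin l

/-- `H(R | R', ξ l)`. -/
def hl {Ω α β : Type} [MeasurableSpace Ω] [Finite α] [Finite β] (P : Measure Ω) (Ξ : Filt Ω)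
    (R : Ω → α) (R' : Ω → β) (l : ℕ) : ℝ :=
  entc P R (fun ω => (R' ω, Ξ.ξ l ω))

/-- `inf_l H(R | R', ξ l)`. -/
def hi {Ω α β : Type} [MeasurableSpace Ω] [Finite α] [Finite β] (P : Measure Ω) (Ξ : Filt Ω)
    (R : Ω → α) (R' : Ω → β) : ℝ :=
  ⨅ l, hl P Ξ R R' l

/-- The cell of `t ∈ [0,1]` in the grid of mesh `1/N`. -/
def cel (N : ℕ) (t : ℝ) : Fin (N + 1) := ⟨min ⌊(N : ℝ) * t⌋₊ N, by omega⟩

/-- The number of cells. -/
def sc (θ : ℝ) (T : ℕ) : ℕ := ⌈Real.exp (θ * T)⌉₊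

/-- The setting of the entropy argument. -/
structure ESys (p : ℕ) [Fact p.Prime] (Ω : Type) [MeasurableSpace Ω] (P : Measure Ω) (D : ℕ) where
  /-- the dynamics -/
  τ : Ω → Ω
  mp : MeasurePreserving τ P P
  /-- names of the base point -/
  Ξ : Filt Ω
  shift : ∀ l, ∃ l', ∃ φ : Ξ.α l' → Ξ.α l, ∀ ω, Ξ.ξ l (τ ω) = φ (Ξ.ξ l' ω)
  /-- the `p`-adic coordinate -/
  S : Ω → ℤ_[p]
  Smeas : ∀ k, Fm fun ω => PadicInt.toZModPow k (S ω)
  Sinv : ∀ ω, S (τ ω) = S ω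
  unif : ∀ k l (a : ZMod (p ^ k)) (c : Ξ.α l),
    P.real ((fun ω => PadicInt.toZModPow k (S ω)) ⁻¹' {a} ∩ Ξ.ξ l ⁻¹' {c}) =
      P.real (Ξ.ξ l ⁻¹' {c}) / (p : ℝ) ^ k
  /-- the fibre coordinate -/
  ψ : Ω → Fin D → ℝ
  ψmeas : ∀ i, Measurable fun ω => ψ ω i
  ψ0 : ∀ ω i, 0 ≤ ψ ω i
  ψ1 : ∀ ω i, ψ ω i ≤ 1

namespace ESys

variable {p : ℕ} [Fact p.Prime] {Ω : Type} [MeasurableSpace Ω] {P : Measure Ω} {D : ℕ}

/-- The residue of `S` modulo `p ^ k`. -/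
def Sm (E : ESys p Ω P D) (k : ℕ) : Ω → ZMod (p ^ k) := fun ω => PadicInt.toZModPow k (E.S ω)

/-- The cells at time `0`. -/
def cl (E : ESys p Ω P D) (N : ℕ) : Ω → Fin D → Fin (N + 1) := fun ω i => cel N (E.ψ ω i)

/-- The names at the times `j T`, `j < L`. -/
def nm (E : ESys p Ω P D) (θ : ℝ) (T L : ℕ) : Ω → Fin L → Fin D → Fin (sc θ T + 1) :=
  fun ω j => E.cl (sc θ T) (E.τ^[j * T] ω)

/-- Two-ended closeness: two points with the same base point (approximately) which are `exp (-θ T)`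
close at all times `j T`, `j ≤ n`, very close at the time `0` and at a time near the end are
`exp (-M θ T)` close at all these times.  The first point is in a good set of large measure. -/
def TE (E : ESys p Ω P D) (Λ c0 θ : ℝ) (M n : ℕ) : Prop :=
  ∀ η : ℝ, 0 < η → ∃ T0 : ℕ, ∀ T : ℕ, T0 ≤ T → ∃ G : Set Ω, MeasurableSet G ∧ P.real Gᶜ ≤ η ∧
    ∃ l : ℕ, ∀ ω ∈ G, ∀ ω' : Ω, E.Ξ.ξ l ω = E.Ξ.ξ l ω' →
      (∀ j ≤ n, ∀ i, |E.ψ (E.τ^[j * T] ω) i - E.ψ (E.τ^[j * T] ω') i| ≤ Real.exp (-(θ * T))) →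
      (∀ i, |E.ψ ω i - E.ψ ω' i| ≤ Real.exp (-(3 * M * θ * T))) →
      (∀ i, |E.ψ (E.τ^[(n - ⌈c0 * M * θ⌉₊) * T] ω) i - E.ψ (E.τ^[(n - ⌈c0 * M * θ⌉₊) * T] ω') i| ≤
        Real.exp (-((2 * M * θ + Λ * ⌈c0 * M * θ⌉₊) * T))) →
      ∀ j ≤ n, ∀ i, |E.ψ (E.τ^[j * T] ω) i - E.ψ (E.τ^[j * T] ω') i| ≤ Real.exp (-(M * θ * T))

end ESys

end

end Pool.Agent.H10.PS
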