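import Pool.Agent.H10.PS.En3
import Pool.Agent.H10.PS.Cel

/-!
MODULE DigA (130 lines).  The deficit of the digits given names `N`.

`def_add`: for `a ≤ b ≤ c`, `Sm b` is a function of `Sm c` and `Sm a` of `Sm b` (`Sm_cast`):
`hi(Sm c | Sm a, N) = hi((Sm c, Sm b) | Sm a, N) = hi(Sm b | Sm a, N) + hi(Sm c | Sm b, (Sm a, N))`
(`hi_comp_le`, `hi_chain`) and the conditioning `(Sm b, (Sm a, N))` is equivalent to `(Sm b, N)` (`hi_anti`).
`def_nonneg`: `hi(Sm b | Sm a, N) ≤ hl .. l = entc`, and given `Sm a` there are at most `p ^ (b - a)` values of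
`Sm b` (`entc_le_log_of_count`, H31/BE/EntD; a fibre of the cast `ZMod (p^b) → ZMod (p^a)`, or
`AddMonoidHom` fibre count, has `p ^ (b - a)` elements).
`def_le`: symmetry of the mutual information:
`hi(Sm k) + hi(N | Sm k) = hi(N) + hi(Sm k | N)` (`hi_chain` in both orders, `hi_comp_le` with `Prod.swap`), and
`hi(Sm k) = k log p` (`hi_Sm`).
-/

set_option autoImplicit false

open MeasureTheory H31.BE

namespace Pool.Agent.H10.PS

variable {p : ℕ} [Fact p.Prime] {Ω α : Type} [MeasurableSpace Ω] {P : Measure Ω}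
  [IsProbabilityMeasure P] {D : ℕ} [Finite α]

private theorem digA_fiber {a b : ℕ} (hab : a ≤ b) (y : ZMod (p ^ a)) :
    {x : ZMod (p ^ b) | ZMod.castHom (pow_dvd_pow p hab) (ZMod (p ^ a)) x = y}.ncard ≤
      p ^ (b - a) := by
  classical
  have hp : 0 < p := (Fact.out : p.Prime).pos
  set f : ZMod (p ^ b) →+ ZMod (p ^ a) :=
    (ZMod.castHom (pow_dvd_pow p hab) (ZMod (p ^ a))).toAddMonoidHom with hf
  have hsurj : Function.Surjective f := ZMod.castHom_surjective (pow_dvd_pow p hab)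
  have hfib : ∀ z : ZMod (p ^ a),
      (Finset.univ.filter fun g => f g = z).card = (Finset.univ.filter fun g => f g = y).card := by
    intro z
    exact AddMonoidHom.card_fiber_eq_of_mem_range f (hsurj z) (hsurj y)
  have h1 : (Finset.univ : Finset (ZMod (p ^ b))).card =
      ∑ z : ZMod (p ^ a), (Finset.univ.filter fun g => f g = z).card :=
    Finset.card_eq_sum_card_fiberwise (fun _ _ => Finset.mem_coe.2 (Finset.mem_univ _))
  simp only [hfib, Finset.sum_const, Finset.card_univ, ZMod.card, smul_eq_mul] at h1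
  have h2 : p ^ b = p ^ a * p ^ (b - a) := by
    rw [← pow_add, Nat.add_sub_cancel' hab]
  have h3 : (Finset.univ.filter fun g => f g = y).card = p ^ (b - a) :=
    (Nat.eq_of_mul_eq_mul_left (pow_pos hp a) (h2.symm.trans h1)).symm
  have h4 : {x : ZMod (p ^ b) | ZMod.castHom (pow_dvd_pow p hab) (ZMod (p ^ a)) x = y} =
      ((Finset.univ.filter fun g => f g = y : Finset (ZMod (p ^ b))) : Set (ZMod (p ^ b))) := by
    ext x
    simp [hf]
  rw [h4, Set.ncard_coe_finset, h3]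

/-- The deficit of the digits `a, .., b-1` given the digits before and `N`. -/
noncomputable def dfc (E : ESys p Ω P D) (N : Ω → α) (a b : ℕ) : ℝ :=
  ((b : ℝ) - a) * Real.log p - hi P E.Ξ (E.Sm b) (fun ω => (E.Sm a ω, N ω))

theorem def_add (E : ESys p Ω P D) {N : Ω → α} (hN : Fm N) {a b c : ℕ} (hab : a ≤ b)
    (hbc : b ≤ c) : dfc E N a c = dfc E N a b + dfc E N b c := by
  have hSa := E.Fm_Sm a
  have hSb := E.Fm_Sm b
  have hSc := E.Fm_Sm c
  have hh : Fm (fun ω => (E.Sm a ω, N ω)) := hSa.prodMk hN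
  have hg : Fm (fun ω => (E.Sm b ω, N ω)) := hSb.prodMk hN
  have h1 := hi_chain (P := P) E.Ξ hSc hSb hh
  have h2 : hi P E.Ξ (fun ω => (E.Sm c ω, E.Sm b ω)) (fun ω => (E.Sm a ω, N ω)) =
      hi P E.Ξ (E.Sm c) (fun ω => (E.Sm a ω, N ω)) := by
    apply le_antisymm
    · have h := hi_comp_le (P := P) E.Ξ hSc hh
        (fun x => (x, ZMod.castHom (pow_dvd_pow p hbc) (ZMod (p ^ b)) x))
      have h' : (fun ω => (E.Sm c ω, ZMod.castHom (pow_dvd_pow p hbc) (ZMod (p ^ b)) (E.Sm c ω))) =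
          fun ω => (E.Sm c ω, E.Sm b ω) := by
        funext ω
        rw [← E.Sm_cast hbc ω]
      rw [h'] at h
      exact h
    · exact hi_comp_le (P := P) E.Ξ (hSc.prodMk hSb) hh Prod.fst
  have h3 : hi P E.Ξ (E.Sm c) (fun ω => (E.Sm b ω, (E.Sm a ω, N ω))) =
      hi P E.Ξ (E.Sm c) (fun ω => (E.Sm b ω, N ω)) := by
    apply le_antisymm
    · exact hi_anti (P := P) E.Ξ hSc (hSb.prodMk hh)
        (fun x : ZMod (p ^ b) × (ZMod (p ^ a) × α) => (x.1, x.2.2))
    · have h := hi_anti (P := P) E.Ξ hSc hg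
        (fun x : ZMod (p ^ b) × α =>
          (x.1, (ZMod.castHom (pow_dvd_pow p hab) (ZMod (p ^ a)) x.1, x.2)))
      have h' : (fun ω => (E.Sm b ω, (ZMod.castHom (pow_dvd_pow p hab) (ZMod (p ^ a)) (E.Sm b ω),
          N ω))) = fun ω => (E.Sm b ω, (E.Sm a ω, N ω)) := by
        funext ω
        rw [← E.Sm_cast hab ω]
      simp only at h
      rw [h'] at h
      exact h
  rw [h2, h3] at h1
  unfold dfc
  rw [h1]
  ring

theorem def_nonneg (E : ESys p Ω P D) {N : Ω → α} (hN : Fm N) {a b : ℕ} (hab : a ≤ b) :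
    0 ≤ dfc E N a b := by
  have hp : 0 < p := (Fact.out : p.Prime).pos
  have hSb := E.Fm_Sm b
  have hh : Fm (fun ω => (E.Sm a ω, N ω)) := (E.Fm_Sm a).prodMk hN
  have h1 := hi_le (P := P) E.Ξ hSb hh 0
  have h2 : hl P E.Ξ (E.Sm b) (fun ω => (E.Sm a ω, N ω)) 0 ≤
      Real.log ((p ^ (b - a) : ℕ) : ℝ) := by
    unfold hl
    refine entc_le_log_of_count hSb (hh.prodMk (E.Ξ.meas 0)) (p ^ (b - a))
      (Nat.one_le_iff_ne_zero.2 (pow_pos hp _).ne') ?_
    rintro ⟨⟨y, n⟩, z⟩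
    refine le_trans (Set.ncard_le_ncard ?_ (Set.toFinite _)) (digA_fiber hab y)
    intro x hx
    by_contra hxy
    have hx' : 0 < P.real (E.Sm b ⁻¹' {x} ∩
      (fun ω => ((E.Sm a ω, N ω), E.Ξ.ξ 0 ω)) ⁻¹' {((y, n), z)}) := hx
    revert hx'
    have h0 : E.Sm b ⁻¹' {x} ∩ (fun ω => ((E.Sm a ω, N ω), E.Ξ.ξ 0 ω)) ⁻¹' {((y, n), z)} = ∅ := by
      ext ω
      simp only [Set.mem_inter_iff, Set.mem_preimage, Set.mem_singleton_iff, Prod.mk.injEq,
        Set.mem_empty_iff_false, iff_false, not_and]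
      intro h3 h4
      exfalso
      apply hxy
      show ZMod.castHom (pow_dvd_pow p hab) (ZMod (p ^ a)) x = y
      rw [← h3, ← E.Sm_cast hab ω]
      exact h4.1
    rw [h0, measureReal_empty]
    exact lt_irrefl 0
  have h3 : Real.log ((p ^ (b - a) : ℕ) : ℝ) = ((b : ℝ) - a) * Real.log p := by
    rw [Nat.cast_pow, Real.log_pow, Nat.cast_sub hab]
  unfold dfc
  rw [h3] at h2
  linarith

theorem def_le (E : ESys p Ω P D) {N : Ω → α} (hN : Fm N) (k : ℕ) :
    dfc E N 0 k = hi P E.Ξ N (fun _ => ()) - hi P E.Ξ N (E.Sm k) := by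
  have hS := E.Fm_Sm k
  have hu : Fm (fun _ : Ω => ()) := Fm.const ()
  have h1 := hi_chain (P := P) E.Ξ hS hN hu
  have h2 := hi_chain (P := P) E.Ξ hN hS hu
  have h3 : hi P E.Ξ (fun ω => (E.Sm k ω, N ω)) (fun _ => ()) =
      hi P E.Ξ (fun ω => (N ω, E.Sm k ω)) (fun _ => ()) := by
    apply le_antisymm
    · exact hi_comp_le (P := P) E.Ξ (hN.prodMk hS) hu Prod.swap
    · exact hi_comp_le (P := P) E.Ξ (hS.prodMk hN) hu Prod.swap
  have h4 : hi P E.Ξ (E.Sm k) (fun ω => (E.Sm 0 ω, N ω)) =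
      hi P E.Ξ (E.Sm k) (fun ω => (N ω, ())) := by
    apply le_antisymm
    · exact hi_anti (P := P) E.Ξ hS ((E.Fm_Sm 0).prodMk hN)
        (fun x : ZMod (p ^ 0) × α => (x.2, ()))
    · have h := hi_anti (P := P) E.Ξ hS (hN.prodMk hu)
        (fun x : α × Unit => ((0 : ZMod (p ^ 0)), x.1))
      have h' : (fun ω => ((0 : ZMod (p ^ 0)), N ω)) = fun ω => (E.Sm 0 ω, N ω) := by
        funext ω
        have h0 : E.Sm 0 ω = 0 := by
          have hs : Subsingleton (ZMod (p ^ 0)) := by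
            rw [pow_zero]
            infer_instance
          exact Subsingleton.elim _ _
        rw [h0]
      simp only at h
      rw [h'] at h
      exact h
  have h5 : hi P E.Ξ N (fun ω => (E.Sm k ω, ())) = hi P E.Ξ N (E.Sm k) := by
    apply le_antisymm
    · exact hi_anti (P := P) E.Ξ hN (hS.prodMk hu) (fun x : ZMod (p ^ k) × Unit => x.1)
    · exact hi_anti (P := P) E.Ξ hN hS (fun x : ZMod (p ^ k) => (x, ()))
  have h6 := hi_Sm (P := P) E k
  unfold dfc
  rw [h4]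
  rw [h3, h2, h5, h6] at h1
  push_cast
  linarith

end Pool.Agent.H10.PS
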