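import Pool.Agent.H67.LX.Cnt

/-!
MODULE Dt1 (140 lines).  The base of the suspension: congruence subgroups and orbits.

* `KM_mono`: `mem_KM`.  `KM_nrm`: `KM_conj_KK`, `KM_le_KK`.  `KM_cj`: `KM_conj` and `KM_mono`.
* `orb_fin0`: the open sets `{f' | ∃ k ∈ KM p n l, f' = k • f}` (`orbit_open`) cover the compact space `F` (`one_mem`).
* `orb_meas0`: preimage of an open set under the continuous map `x ↦ g • x.1` (`Sus.continuous_smulF`).
* `al_fin0`: a locally constant map on a compact space has finite range (`IsLocallyConstant.range_finite`).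
* `EE_K`: `EE_mem_KM`, `‖p^(l+2) w‖ ≤ p^(-(l+2))` (`padicNormE.norm_p_pow`, `PadicInt.norm_le_one`).
* `haar_orb`: `μ.map Prod.fst = S.B.h` is invariant under `g`, and the set is a preimage of the open (so
  measurable) set `{f' | ∃ k ∈ KM p n l, f' = k • f}` (`map_measureReal_apply`, `MeasurePreserving.measureReal_preimage`).
-/

set_option autoImplicit false
set_option linter.unusedSectionVars false

open MeasureTheory Filter Matrix
open scoped Topology
open Pool.Agent.H73.PZ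
open Pool.Agent.H23.DM
open Pool.Agent.H67.LX

namespace Pool.Agent.H10.PS

variable {p : ℕ} [Fact p.Prime] {n : ℕ} {Γ : Subgroup (SLn p n)} {F M : Type}
    [TopologicalSpace F] [CompactSpace F] [T2Space F] [SecondCountableTopology F]
    [MeasurableSpace F] [BorelSpace F] [MulAction (SLn p n) F]
    [TopologicalSpace M] [CompactSpace M] [T2Space M] [SecondCountableTopology M]
    [MeasurableSpace M] [BorelSpace M] [MulAction Γ M]
    [MulAction (SLn p n) (F × M)] [MulAction (AZ n) (F × M)]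

theorem KM_mono {l l' : ℕ} (h : l ≤ l') : KM p n l' ≤ KM p n l := by
  exact KM_anti h

theorem KM_nrm (l : ℕ) {k g : SLn p n} (hk : k ∈ KM p n (l + 2)) (hg : g ∈ KM p n 2) :
    g * k * g⁻¹ ∈ KM p n (l + 2) := by
  exact KM_conj_KK (KM_le_KK 2 hg) hk

theorem KM_cj (g : SLn p n) (l : ℕ) :
    ∃ l' : ℕ, ∀ k ∈ KM p n (l' + 2), g * k * g⁻¹ ∈ KM p n (l + 2) := by
  obtain ⟨M', h⟩ := KM_conj g (l + 2)
  exact ⟨M', fun k hk => h k (KM_anti (by omega) hk)⟩

theorem orb_fin0 (S : Sus Γ F M) (l : ℕ) :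
    ∃ s : Finset F, ∀ f : F, ∃ f' ∈ s, ∃ k ∈ KM p n (l + 2), f = k • f' := by
  obtain ⟨t, -, ht⟩ := (isCompact_univ (X := F)).elim_nhds_subcover
    (fun f' => {f : F | ∃ k ∈ KM p n (l + 2), f = k • f'}) (by
      intro f' _
      exact (S.B.orbit_open (l + 2) f').mem_nhds ⟨1, one_mem _, (one_smul _ _).symm⟩)
  refine ⟨t, fun f => ?_⟩
  obtain ⟨f', hf'⟩ := Set.mem_iUnion.1 (ht (Set.mem_univ f))
  obtain ⟨h1, k, hk, h2⟩ := Set.mem_iUnion.1 hf'
  exact ⟨f', h1, k, hk, h2⟩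

theorem orb_meas0 (S : Sus Γ F M) (l : ℕ) (g : SLn p n) (f : F) :
    MeasurableSet {x : F × M | ∃ k ∈ KM p n (l + 2), g • x.1 = k • f} := by
  exact ((S.B.orbit_open (l + 2) f).preimage
    ((S.continuous_smulF g).comp continuous_fst)).measurableSet

theorem al_fin0 (S : Sus Γ F M) (g : SLn p n) : (Set.range (S.B.al g)).Finite := by
  exact (S.B.al_lc g).range_finite

theorem EE_K {j k : Fin n} (hjk : j ≠ k) (l : ℕ) (w : ℤ_[p]) :
    (EE hjk ((p : ℚ_[p]) ^ 2 * ((p : ℚ_[p]) ^ l * (w : ℚ_[p]))) : SLn p n) ∈ KM p n (l + 2) := by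
  refine EE_mem_KM hjk ?_
  have hp0 : (0 : ℝ) < p := by exact_mod_cast (Fact.out : p.Prime).pos
  rw [norm_mul, norm_mul, Padic.norm_p_pow, Padic.norm_p_pow]
  have h1 : ‖(w : ℚ_[p])‖ ≤ 1 := PadicInt.norm_le_one w
  have h2 : (p : ℝ) ^ (-((l + 2 : ℕ) : ℤ)) = (p : ℝ) ^ (-((2 : ℕ) : ℤ)) * (p : ℝ) ^ (-(l : ℤ)) := by
    rw [← zpow_add₀ hp0.ne']
    congr 1
    push_cast
    ring
  rw [h2]
  refine mul_le_mul_of_nonneg_left ?_ (by positivity)
  exact mul_le_of_le_one_right (by positivity) h1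

theorem haar_orb (S : Sus Γ F M) {μ : Measure (F × M)} (hov : S.OvH μ) (g : SLn p n) (l : ℕ)
    (f : F) : μ.real {x : F × M | ∃ k ∈ KM p n (l + 2), g • x.1 = k • f} =
      μ.real {x : F × M | ∃ k ∈ KM p n (l + 2), x.1 = k • f} := by
  have hO : IsOpen {f' : F | ∃ k ∈ KM p n (l + 2), f' = k • f} := S.B.orbit_open (l + 2) f
  have h1 : {x : F × M | ∃ k ∈ KM p n (l + 2), x.1 = k • f} =
      Prod.fst ⁻¹' {f' : F | ∃ k ∈ KM p n (l + 2), f' = k • f} := rfl
  have h2 : {x : F × M | ∃ k ∈ KM p n (l + 2), g • x.1 = k • f} =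
      Prod.fst ⁻¹' ((fun f' : F => g • f') ⁻¹' {f' : F | ∃ k ∈ KM p n (l + 2), f' = k • f}) := rfl
  rw [h1, h2, ← map_measureReal_apply measurable_fst hO.measurableSet,
    ← map_measureReal_apply measurable_fst ((hO.preimage (S.continuous_smulF g)).measurableSet),
    show μ.map Prod.fst = S.B.h from hov]
  exact (S.B.inv g).measureReal_preimage hO.measurableSet.nullMeasurableSet

end Pool.Agent.H10.PS
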