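import Pool.Agent.H67.LX.Cnt

/-!
MODULE Dt2 (150 lines).  The fibre: the normalised coordinates.

`psn S Bd m i = (ψ (i-th index) m + Bd) / (2 Bd)` with `Bd ≥ 1` a bound of all `|ψ|`.
* `exists_bd`: `ψ_cont`, compactness, finitely many indices.
* `psn_dist`: sup distance of `psn` times `2 Bd` is the sup distance of `ψ`, between `dist0 / √card` and `dist0`:
  `dist0 = vn (fun i => ψ i m' - ψ i m)`, `vn v = √(∑ v i ^ 2)`, `|v i| ≤ vn v ≤ card * sup |v i|`
  (`dist_pi_le_iff`, `Real.dist_eq`).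
* `dist0_lip`: `J_err`, `fn (J γ m)` is bounded (`J_cont`, compactness, finitely many entries, `fn_le_of_entries`),
  `vn_mulVec_le`, `dist0 ≤ card * 2 Bd`.
-/

set_option autoImplicit false
set_option linter.unusedSectionVars false

open MeasureTheory Filter Matrix
open scoped Topology
open Pool.Agent.H73.PZ
open Pool.Agent.H23.DM
open Pool.Agent.H67.LX

namespace Pool.Agent.H10.PS

variable {p : ℕ} [Fact p.Prime] {n : ℕ} {Γ : Subgroup (SLn p n)} {F M : Type}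
    [TopologicalSpace F] [CompactSpace F] [T2Space F] [SecondCountableTopology F]
    [MeasurableSpace F] [BorelSpace F] [MulAction (SLn p n) F]
    [TopologicalSpace M] [CompactSpace M] [T2Space M] [SecondCountableTopology M]
    [MeasurableSpace M] [BorelSpace M] [MulAction Γ M]
    [MulAction (SLn p n) (F × M)] [MulAction (AZ n) (F × M)]

/-- The normalised coordinates of the fibre. -/
noncomputable def psn (S : Sus Γ F M) (Bd : ℝ) (m : M) (i : Fin (Fintype.card S.V.κ)) : ℝ :=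
  (S.V.ψ ((Fintype.equivFin S.V.κ).symm i) m + Bd) / (2 * Bd)

private theorem Dt2_bdd {f : M → ℝ} (hf : Continuous f) : ∃ C : ℝ, 0 ≤ C ∧ ∀ m, |f m| ≤ C := by
  obtain ⟨C, hC⟩ := (isCompact_univ : IsCompact (Set.univ : Set M)).exists_bound_of_continuousOn
    hf.continuousOn
  refine ⟨|C|, abs_nonneg _, fun m => ?_⟩
  have h := hC m (Set.mem_univ m)
  rw [Real.norm_eq_abs] at h
  exact h.trans (le_abs_self C)

theorem exists_bd (S : Sus Γ F M) : ∃ Bd : ℝ, 1 ≤ Bd ∧ ∀ i m, |S.V.ψ i m| ≤ Bd := by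
  choose C hC0 hC using fun i => Dt2_bdd (S.V.ψ_cont i)
  refine ⟨1 + ∑ i, C i, ?_, fun i m => ?_⟩
  · have := Finset.sum_nonneg fun i (_ : i ∈ Finset.univ) => hC0 i
    linarith
  · have h1 := Finset.single_le_sum (f := C) (fun i _ => hC0 i) (Finset.mem_univ i)
    linarith [hC i m]

theorem psn_dist (S : Sus Γ F M) {Bd : ℝ} (hB : 1 ≤ Bd) :
    ∃ C : ℝ, 1 ≤ C ∧ ∀ m m' : M, dist (psn S Bd m) (psn S Bd m') ≤ C * dist0 S.V.ψ m m' ∧
      dist0 S.V.ψ m m' ≤ C * dist (psn S Bd m) (psn S Bd m') := by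
  have hN : (0 : ℝ) ≤ Fintype.card S.V.κ := Nat.cast_nonneg _
  have hC : 0 ≤ Fintype.card S.V.κ * (2 * Bd) := by positivity
  have key : ∀ (m m' : M) (i : Fin (Fintype.card S.V.κ)),
      dist (psn S Bd m i) (psn S Bd m' i) * (2 * Bd) =
        |S.V.ψ ((Fintype.equivFin S.V.κ).symm i) m' - S.V.ψ ((Fintype.equivFin S.V.κ).symm i) m| := by
    intro m m' i
    have h2 : (0 : ℝ) < 2 * Bd := by linarith
    have h1 : psn S Bd m i - psn S Bd m' i =
        (S.V.ψ ((Fintype.equivFin S.V.κ).symm i) m -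
          S.V.ψ ((Fintype.equivFin S.V.κ).symm i) m') / (2 * Bd) := by
      unfold psn
      ring
    rw [Real.dist_eq, h1, abs_div, abs_of_pos h2, div_mul_cancel₀ _ h2.ne', abs_sub_comm]
  refine ⟨1 + Fintype.card S.V.κ * (2 * Bd), by linarith, fun m m' => ?_⟩
  have hd0 : 0 ≤ dist0 S.V.ψ m m' := vn_nonneg _
  have hd1 : 0 ≤ dist (psn S Bd m) (psn S Bd m') := dist_nonneg
  constructor
  · have h1 : dist (psn S Bd m) (psn S Bd m') ≤ dist0 S.V.ψ m m' := by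
      refine (dist_pi_le_iff hd0).2 fun i => ?_
      have h2 := key m m' i
      have h3 : |S.V.ψ ((Fintype.equivFin S.V.κ).symm i) m' -
          S.V.ψ ((Fintype.equivFin S.V.κ).symm i) m| ≤ dist0 S.V.ψ m m' :=
        abs_entry_le_vn (fun i => S.V.ψ i m' - S.V.ψ i m) _
      have h4 : 0 ≤ dist (psn S Bd m i) (psn S Bd m' i) := dist_nonneg
      nlinarith
    have h2 : 0 ≤ Fintype.card S.V.κ * (2 * Bd) * dist0 S.V.ψ m m' := mul_nonneg hC hd0
    linarith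
  · have h1 : dist0 S.V.ψ m m' ≤
        Fintype.card S.V.κ * (2 * Bd * dist (psn S Bd m) (psn S Bd m')) := by
      refine vn_le_of_entries (by positivity) fun k => ?_
      have h2 := key m m' (Fintype.equivFin S.V.κ k)
      rw [Equiv.symm_apply_apply] at h2
      rw [← h2, mul_comm]
      exact mul_le_mul_of_nonneg_left (dist_le_pi_dist _ _ _) (by linarith)
    have h2 : Fintype.card S.V.κ * (2 * Bd * dist (psn S Bd m) (psn S Bd m')) =
        Fintype.card S.V.κ * (2 * Bd) * dist (psn S Bd m) (psn S Bd m') := by ring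
    linarith

theorem dist0_lip (S : Sus Γ F M) (γ : Γ) : ∃ C : ℝ, 0 ≤ C ∧ ∀ m m' : M,
    dist0 S.V.ψ (γ • m) (γ • m') ≤ C * dist0 S.V.ψ m m' := by
  obtain ⟨C1, hC1⟩ := S.V.J_err γ
  obtain ⟨Bd, hBd, hψ⟩ := exists_bd S
  choose E hE0 hE using fun q : S.V.κ × S.V.κ => Dt2_bdd (S.V.J_cont γ q.1 q.2)
  have hE1 : 0 ≤ ∑ q, E q := Finset.sum_nonneg fun q _ => hE0 q
  have hfn : ∀ m, fn (S.V.J γ m) ≤ Fintype.card S.V.κ * ∑ q, E q := by
    intro m
    refine fn_le_of_entries hE1 fun i j => ?_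
    exact (hE (i, j) m).trans (Finset.single_le_sum (f := E) (fun q _ => hE0 q)
      (Finset.mem_univ (i, j)))
  have hd : ∀ m m' : M, dist0 S.V.ψ m m' ≤ Fintype.card S.V.κ * (2 * Bd) := by
    intro m m'
    refine vn_le_of_entries (by linarith) fun i => ?_
    have h1 := abs_le.1 (hψ i m)
    have h2 := abs_le.1 (hψ i m')
    rw [abs_le]
    constructor
    · linarith
    · linarith
  have hN : (0 : ℝ) ≤ Fintype.card S.V.κ := Nat.cast_nonneg _
  refine ⟨|C1| * (Fintype.card S.V.κ * (2 * Bd)) + Fintype.card S.V.κ * ∑ q, E q, by positivity,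
    fun m m' => ?_⟩
  have hd0 : 0 ≤ dist0 S.V.ψ m m' := vn_nonneg _
  set D : S.V.κ → ℝ := fun i => S.V.ψ i m' - S.V.ψ i m with hD
  set D' : S.V.κ → ℝ := fun i => S.V.ψ i (γ • m') - S.V.ψ i (γ • m) with hD'
  have e0 : dist0 S.V.ψ (γ • m) (γ • m') = vn D' := rfl
  have e1 : dist0 S.V.ψ m m' = vn D := rfl
  have e2 : D' = (D' - S.V.J γ m *ᵥ D) + S.V.J γ m *ᵥ D := by
    funext i
    simp only [Pi.add_apply, Pi.sub_apply, sub_add_cancel]
  have h1 : vn D' ≤ vn (D' - S.V.J γ m *ᵥ D) + vn (S.V.J γ m *ᵥ D) := by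
    have h := vn_add_le (D' - S.V.J γ m *ᵥ D) (S.V.J γ m *ᵥ D)
    rwa [← e2] at h
  have h2 : vn (D' - S.V.J γ m *ᵥ D) ≤ C1 * dist0 S.V.ψ m m' ^ 2 := hC1 m m'
  have h3 : C1 * dist0 S.V.ψ m m' ^ 2 ≤
      |C1| * (Fintype.card S.V.κ * (2 * Bd)) * dist0 S.V.ψ m m' := by
    calc C1 * dist0 S.V.ψ m m' ^ 2 ≤ |C1| * dist0 S.V.ψ m m' ^ 2 :=
          mul_le_mul_of_nonneg_right (le_abs_self C1) (by positivity)
      _ = |C1| * dist0 S.V.ψ m m' * dist0 S.V.ψ m m' := by ring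
      _ ≤ |C1| * (Fintype.card S.V.κ * (2 * Bd)) * dist0 S.V.ψ m m' :=
          mul_le_mul_of_nonneg_right (mul_le_mul_of_nonneg_left (hd m m') (abs_nonneg _)) hd0
  have h4 : vn (S.V.J γ m *ᵥ D) ≤ Fintype.card S.V.κ * (∑ q, E q) * dist0 S.V.ψ m m' := by
    refine (vn_mulVec_le _ _).trans ?_
    rw [e1]
    exact mul_le_mul_of_nonneg_right (hfn m) (vn_nonneg _)
  rw [e0, add_mul]
  linarith

theorem psn_lip (S : Sus Γ F M) {Bd : ℝ} (hB : 1 ≤ Bd) (γ : Γ) : ∃ C : ℝ, ∀ m m' : M,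
    dist (psn S Bd (γ • m)) (psn S Bd (γ • m')) ≤ C * dist (psn S Bd m) (psn S Bd m') := by
  obtain ⟨C, hC1, hC⟩ := psn_dist S hB
  obtain ⟨K, hK0, hK⟩ := dist0_lip S γ
  refine ⟨C * (K * C), fun m m' => ?_⟩
  have hC0 : 0 ≤ C := by linarith
  calc dist (psn S Bd (γ • m)) (psn S Bd (γ • m')) ≤ C * dist0 S.V.ψ (γ • m) (γ • m') :=
        (hC (γ • m) (γ • m')).1
    _ ≤ C * (K * dist0 S.V.ψ m m') := mul_le_mul_of_nonneg_left (hK m m') hC0
    _ ≤ C * (K * (C * dist (psn S Bd m) (psn S Bd m'))) :=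
        mul_le_mul_of_nonneg_left (mul_le_mul_of_nonneg_left (hC m m').2 hK0) hC0
    _ = C * (K * C) * dist (psn S Bd m) (psn S Bd m') := by ring

end Pool.Agent.H10.PS
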