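import Pool.Agent.H10.PS.Dat
import Pool.Agent.H10.PS.Dt1
import Pool.Agent.H10.PS.Dt2

/-!
The suspension as a `Dat` (only the root `(j,k)`; `uc = ub = 1`).  Helper10, proved from Dt1, Dt2.
-/

set_option autoImplicit false
set_option linter.unusedSectionVars false

open MeasureTheory Filter Matrix
open scoped Topology
open Pool.Agent.H73.PZ
open Pool.Agent.H23.DM
open Pool.Agent.H67.LX

namespace Pool.Agent.H10.PS

noncomputable section

variable {p : ℕ} [Fact p.Prime] {n : ℕ} {Γ : Subgroup (SLn p n)} {F M : Type}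
    [TopologicalSpace F] [CompactSpace F] [T2Space F] [SecondCountableTopology F]
    [MeasurableSpace F] [BorelSpace F] [MulAction (SLn p n) F]
    [TopologicalSpace M] [CompactSpace M] [T2Space M] [SecondCountableTopology M]
    [MeasurableSpace M] [BorelSpace M] [MulAction Γ M]
    [MulAction (SLn p n) (F × M)] [MulAction (AZ n) (F × M)]

/-- The suspension as a `Dat`. -/
def sdat (S : Sus Γ F M) {Bd : ℝ} (hB : 1 ≤ Bd) (hBd : ∀ i m, |S.V.ψ i m| ≤ Bd) {j k : Fin n}
    (hjk : j ≠ k) (b : AZ n) (hb : rt j k b = 0) :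
    Dat p (SLn p n) F M Γ (F × M) (Fintype.card S.V.κ) where
  bs := Prod.fst
  fb := Prod.snd
  al := S.B.al
  bs_smul := S.fst_smul
  fb_smul := S.snd_smul
  al_mul := S.B.al_mul
  K l := KM p n (l + 2)
  K_anti l l' h := KM_mono (Nat.add_le_add_right h 2)
  K_norm l k hk g hg := KM_nrm l hk hg
  K_conj := KM_cj
  al_K := S.B.al_K
  orb_fin := orb_fin0 S
  orb_meas := orb_meas0 S
  smul_meas := S.measurable_smul
  b := dgh p n b
  uc _ := 1
  ud w := EE hjk ((p : ℚ_[p]) ^ 2 * (w : ℚ_[p]))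
  ub _ := 1
  σ := 0
  e0 := 1
  he0 := le_rfl
  ud_add s t := by
    rw [← EE_add, PadicInt.coe_add, mul_add]
  ub_add _ _ := (one_mul _).symm
  uc_K _ := one_mem _
  ud_K w := by
    have h := EE_K (n := n) hjk 0 w
    rwa [pow_zero, one_mul] at h
  ub_K _ := one_mem _
  ud_small l := ⟨l, fun s => by
    have h := EE_K (n := n) hjk l s
    rwa [PadicInt.coe_mul, PadicInt.coe_pow, PadicInt.coe_natCast]⟩
  ub_small _ := ⟨0, fun _ => one_mem _⟩
  comm _ _ := by rw [one_mul, mul_one, mul_one]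
  comm_db _ _ := by rw [one_mul, mul_one]
  b_ud w := by
    rw [dgh_conj, hb, neg_zero, zpow_zero, one_mul]
  b_ub _ := by rw [one_mul, mul_one]
  ψ := psn S Bd
  ψ0 m i := by
    have h := abs_le.1 (hBd ((Fintype.equivFin S.V.κ).symm i) m)
    unfold psn
    exact div_nonneg (by linarith) (by linarith)
  ψ1 m i := by
    have h := abs_le.1 (hBd ((Fintype.equivFin S.V.κ).symm i) m)
    unfold psn
    rw [div_le_one (by linarith)]
    linarith
  ψmeas i := by
    have h := (S.V.ψ_cont ((Fintype.equivFin S.V.κ).symm i)).measurable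
    exact ((h.comp measurable_snd).add_const Bd).div_const (2 * Bd)
  lip := psn_lip S hB
  al_fin := al_fin0 S

end

end Pool.Agent.H10.PS
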