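import Pool.Agent.H10.PS.Defs

/-!
MODULE En1 (110 lines).  Basics of the relative entropy `hi`.

`hl_anti`: `mono` gives `φ` with `ξ l = φ ∘ ξ l'`; `entc_anti` (H31/BE/EntC) for the map
`(b, c) ↦ (b, φ c)`.  `hl_nonneg`: `entc_nonneg`.  `hi_le`: `ciInf_le` (bounded below by `0`).
`exists_hl_lt`: `exists_lt_of_ciInf_lt` and `hl_anti`.  `le_hi`: `le_ciInf`.
-/

set_option autoImplicit false

open MeasureTheory H31.BE

namespace Pool.Agent.H10.PS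

variable {Ω α β : Type} [MeasurableSpace Ω] {P : Measure Ω} [IsProbabilityMeasure P] [Finite α]
  [Finite β] (Ξ : Filt Ω) {R : Ω → α} {R' : Ω → β}

theorem hl_anti (hR : Fm R) (hR' : Fm R') {l l' : ℕ} (h : l ≤ l') :
    hl P Ξ R R' l' ≤ hl P Ξ R R' l := by
  obtain ⟨φ, hφ⟩ := Ξ.mono l l' h
  have h1 := entc_anti (P := P) hR (hR'.prodMk (Ξ.meas l')) (fun q : β × Ξ.α l' => (q.1, φ q.2))
  unfold hl
  refine h1.trans (le_of_eq ?_)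
  congr 1
  funext ω
  rw [← hφ ω]

theorem hl_nonneg (hR : Fm R) (hR' : Fm R') (l : ℕ) : 0 ≤ hl P Ξ R R' l :=
  entc_nonneg hR (hR'.prodMk (Ξ.meas l))

theorem hi_le (hR : Fm R) (hR' : Fm R') (l : ℕ) : hi P Ξ R R' ≤ hl P Ξ R R' l :=
  ciInf_le ⟨0, by rintro x ⟨l, rfl⟩; exact hl_nonneg Ξ hR hR' l⟩ l

theorem hi_nonneg (hR : Fm R) (hR' : Fm R') : 0 ≤ hi P Ξ R R' :=
  le_ciInf fun l => hl_nonneg Ξ hR hR' l

theorem exists_hl_lt (hR : Fm R) (hR' : Fm R') {ε : ℝ} (hε : 0 < ε) :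
    ∃ l0 : ℕ, ∀ l : ℕ, l0 ≤ l → hl P Ξ R R' l < hi P Ξ R R' + ε := by
  have h1 : (⨅ l, hl P Ξ R R' l) < hi P Ξ R R' + ε := by
    show hi P Ξ R R' < hi P Ξ R R' + ε
    linarith
  obtain ⟨l0, hl0⟩ := exists_lt_of_ciInf_lt h1
  exact ⟨l0, fun l hl => (hl_anti Ξ hR hR' hl).trans_lt hl0⟩

theorem le_hi (hR : Fm R) (hR' : Fm R') {c : ℝ} (h : ∀ l, c ≤ hl P Ξ R R' l) :
    c ≤ hi P Ξ R R' := by
  have := hR
  have := hR'
  exact le_ciInf h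

end Pool.Agent.H10.PS
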