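import Pool.Agent.H10.PS.En1

/-!
MODULE En2 (170 lines).  Chain rule and inequalities for the relative entropy `hi`.

All from the corresponding facts for `entc` (H31/BE/EntC: `entc_chain`, `entc_comp_left`, `entc_anti`,
`entc_pi_le`; EntD: `ent_le_log_card` with `entc_le_ent`) for each `l`, and then the limit
`l → ∞` with `hi_le`, `exists_hl_lt`, `le_hi`, `hl_anti` of En1 (finitely many sequences decreasing
in `l`; take the maximum of the `l0`).  `hi_chain` (both inequalities with a free `ε`).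
For `entc_chain` the conditioning `(R2, (R3, ξ))` and `((R2, R3), ξ)` differ by a bijection:
`entc_anti` twice (or `ent_inj`).
-/

set_option autoImplicit false

open MeasureTheory H31.BE

namespace Pool.Agent.H10.PS

variable {Ω α β γ : Type} [MeasurableSpace Ω] {P : Measure Ω} [IsProbabilityMeasure P] [Finite α]
  [Finite β] [Finite γ] (Ξ : Filt Ω)

private theorem en2_chain_l {R1 : Ω → α} {R2 : Ω → β} {R3 : Ω → γ} (h1 : Fm R1) (h2 : Fm R2)
    (h3 : Fm R3) (l : ℕ) :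
    hl P Ξ (fun ω => (R1 ω, R2 ω)) R3 l =
      hl P Ξ R2 R3 l + hl P Ξ R1 (fun ω => (R2 ω, R3 ω)) l := by
  have hξ := Ξ.meas l
  have h := entc_chain (P := P) h1 h2 (h3.prodMk hξ)
  have e : entc P R1 (fun ω => (R2 ω, (R3 ω, Ξ.ξ l ω))) =
      entc P R1 (fun ω => ((R2 ω, R3 ω), Ξ.ξ l ω)) := by
    apply le_antisymm
    · exact entc_anti (P := P) (g := fun ω => (R2 ω, (R3 ω, Ξ.ξ l ω))) h1
        (h2.prodMk (h3.prodMk hξ)) (fun q : β × (γ × Ξ.α l) => ((q.1, q.2.1), q.2.2))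
    · exact entc_anti (P := P) (g := fun ω => ((R2 ω, R3 ω), Ξ.ξ l ω)) h1
        ((h2.prodMk h3).prodMk hξ) (fun q : (β × γ) × Ξ.α l => (q.1.1, (q.1.2, q.2)))
  unfold hl
  rw [h, e]

theorem hi_chain {R1 : Ω → α} {R2 : Ω → β} {R3 : Ω → γ} (h1 : Fm R1) (h2 : Fm R2) (h3 : Fm R3) :
    hi P Ξ (fun ω => (R1 ω, R2 ω)) R3 = hi P Ξ R2 R3 + hi P Ξ R1 (fun ω => (R2 ω, R3 ω)) := by
  apply le_antisymm
  · apply le_of_forall_pos_le_add
    intro ε hε
    obtain ⟨l1, hl1⟩ := exists_hl_lt (P := P) Ξ h2 h3 (half_pos hε)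
    obtain ⟨l2, hl2⟩ := exists_hl_lt (P := P) Ξ h1 (h2.prodMk h3) (half_pos hε)
    have a1 := hl1 (max l1 l2) (le_max_left _ _)
    have a2 := hl2 (max l1 l2) (le_max_right _ _)
    have a3 := hi_le (P := P) Ξ (h1.prodMk h2) h3 (max l1 l2)
    have a4 := en2_chain_l (P := P) Ξ h1 h2 h3 (max l1 l2)
    linarith
  · apply le_hi (P := P) Ξ (h1.prodMk h2) h3
    intro l
    rw [en2_chain_l (P := P) Ξ h1 h2 h3 l]
    exact add_le_add (hi_le (P := P) Ξ h2 h3 l) (hi_le (P := P) Ξ h1 (h2.prodMk h3) l)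

theorem hi_comp_le {R : Ω → α} {R' : Ω → β} (hR : Fm R) (hR' : Fm R') (φ : α → γ) :
    hi P Ξ (fun ω => φ (R ω)) R' ≤ hi P Ξ R R' := by
  apply le_hi (P := P) Ξ hR hR'
  intro l
  refine (hi_le (P := P) Ξ (hR.comp φ) hR' l).trans ?_
  unfold hl
  exact entc_comp_left (P := P) hR (hR'.prodMk (Ξ.meas l)) φ

theorem hi_anti {R : Ω → α} {R' : Ω → β} (hR : Fm R) (hR' : Fm R') (φ : β → γ) :
    hi P Ξ R R' ≤ hi P Ξ R (fun ω => φ (R' ω)) := by
  apply le_hi (P := P) Ξ hR (hR'.comp φ)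
  intro l
  refine (hi_le (P := P) Ξ hR hR' l).trans ?_
  unfold hl
  exact entc_anti (P := P) (g := fun ω => (R' ω, Ξ.ξ l ω)) hR (hR'.prodMk (Ξ.meas l))
    (fun q : β × Ξ.α l => (φ q.1, q.2))

theorem hi_pi_le {ι : Type} [Fintype ι] {R : ι → Ω → α} {R' : Ω → β} (hR : ∀ i, Fm (R i))
    (hR' : Fm R') : hi P Ξ (fun ω i => R i ω) R' ≤ ∑ i, hi P Ξ (R i) R' := by
  have hpi : Fm (fun ω i => R i ω) := Fm.pi (f := fun (i : ι) ω => R i ω) hR
  apply le_of_forall_pos_le_add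
  intro ε hε
  have hc : (0 : ℝ) < Fintype.card ι + 1 := by positivity
  have hε' : 0 < ε / (Fintype.card ι + 1) := div_pos hε hc
  choose l0 hl0 using fun i => exists_hl_lt (P := P) Ξ (hR i) hR' hε'
  set l := ∑ i, l0 i with hldef
  have hle : ∀ i, l0 i ≤ l := fun i =>
    Finset.single_le_sum (f := l0) (fun _ _ => Nat.zero_le _) (Finset.mem_univ i)
  have h1 := hi_le (P := P) Ξ hpi hR' l
  have h2 : hl P Ξ (fun ω i => R i ω) R' l ≤ ∑ i, hl P Ξ (R i) R' l := by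
    unfold hl
    exact entc_pi_le (P := P) (f := fun (i : ι) ω => R i ω) hR (hR'.prodMk (Ξ.meas l))
  have h3 : ∑ i, hl P Ξ (R i) R' l ≤ ∑ i, (hi P Ξ (R i) R' + ε / (Fintype.card ι + 1)) :=
    Finset.sum_le_sum fun i _ => (hl0 i l (hle i)).le
  have h4 : ∑ i, (hi P Ξ (R i) R' + ε / (Fintype.card ι + 1)) =
      ∑ i, hi P Ξ (R i) R' + Fintype.card ι * (ε / (Fintype.card ι + 1)) := by
    rw [Finset.sum_add_distrib, Finset.sum_const, Finset.card_univ, nsmul_eq_mul]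
  have h5 : (Fintype.card ι : ℝ) * (ε / (Fintype.card ι + 1)) ≤ ε := by
    rw [mul_div_assoc', div_le_iff₀ hc]
    nlinarith
  linarith

theorem hi_le_card {R : Ω → α} {R' : Ω → β} (hR : Fm R) (hR' : Fm R') :
    hi P Ξ R R' ≤ Real.log (Nat.card α) := by
  refine (hi_le (P := P) Ξ hR hR' 0).trans ?_
  unfold hl
  exact (entc_le_ent (P := P) hR (hR'.prodMk (Ξ.meas 0))).trans (ent_le_log_card R hR)

end Pool.Agent.H10.PS
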