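import Pool.Agent.H10.PS.En2

/-!
MODULE En3 (90 lines).  Stationarity of the relative entropy and the entropy of the digits.

`hi_shift`: by induction on `n` it is enough to treat `n = 1` (apply the case `1` to the random
variables shifted by `n`; `Function.iterate_succ_apply`).  For every `l`: `ent_map` (H31/BE/EntF) for the
measure preserving `τ` gives `entc P (R ∘ τ) (fun ω => (R' (τ ω), ξ l (τ ω))) = hl P Ξ R R' l`.  `shift`
gives `l'`, `φ` with `ξ l ∘ τ = φ ∘ ξ l'`, so by `entc_anti`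
`hl P Ξ (R ∘ τ) (R' ∘ τ) l' ≤ hl P Ξ R R' l`; with `hi_le` and `le_hi`.
`Sm_shift`: `Sinv`.  `hl_Sm`: `unif` says that `Sm k` is uniform and independent of `ξ l`:
`ent_indep_two` (EntF) for `Sm k` and `ξ l` (the law of `Sm k` is uniform: sum `unif` over `c`), and
`ent P (Sm k) = k log p` (`p ^ k` values of probability `p⁻ᵏ`).
-/

set_option autoImplicit false

open MeasureTheory H31.BE

namespace Pool.Agent.H10.PS

variable {p : ℕ} [Fact p.Prime] {Ω α β : Type} [MeasurableSpace Ω] {P : Measure Ω}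
  [IsProbabilityMeasure P] {D : ℕ} [Finite α] [Finite β]

theorem Fm_iterate (E : ESys p Ω P D) {R : Ω → α} (hR : Fm R) (n : ℕ) :
    Fm fun ω => R (E.τ^[n] ω) := by
  exact Fm.comp_measurable (E.mp.iterate n).measurable hR

private theorem hi_shift_one (E : ESys p Ω P D) {R : Ω → α} {R' : Ω → β} (hR : Fm R) (hR' : Fm R') :
    hi P E.Ξ (fun ω => R (E.τ ω)) (fun ω => R' (E.τ ω)) ≤ hi P E.Ξ R R' := by
  have hτ : Measurable E.τ := E.mp.measurable
  have hRt : Fm fun ω => R (E.τ ω) := Fm.comp_measurable hτ hR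
  have hRt' : Fm fun ω => R' (E.τ ω) := Fm.comp_measurable hτ hR'
  refine le_hi E.Ξ hR hR' fun l => ?_
  obtain ⟨l', φ, hφ⟩ := E.shift l
  refine le_trans (hi_le E.Ξ hRt hRt' l') ?_
  have h1 := entc_anti (P := P) hRt (hRt'.prodMk (E.Ξ.meas l'))
    (fun x : β × E.Ξ.α l' => (x.1, φ x.2))
  refine le_trans h1 (le_of_eq ?_)
  have e : (fun ω => ((fun x : β × E.Ξ.α l' => (x.1, φ x.2)) (R' (E.τ ω), E.Ξ.ξ l' ω))) =
      fun ω => (R' (E.τ ω), E.Ξ.ξ l (E.τ ω)) := by
    funext ω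
    simp only [hφ ω]
  rw [e]
  unfold hl entc
  have e1 := ent_map (P := P) (P' := P) E.mp (hR.prodMk (hR'.prodMk (E.Ξ.meas l)))
  have e2 := ent_map (P := P) (P' := P) E.mp (hR'.prodMk (E.Ξ.meas l))
  rw [e1, e2]

theorem hi_shift (E : ESys p Ω P D) {R : Ω → α} {R' : Ω → β} (hR : Fm R) (hR' : Fm R') (n : ℕ) :
    hi P E.Ξ (fun ω => R (E.τ^[n] ω)) (fun ω => R' (E.τ^[n] ω)) ≤ hi P E.Ξ R R' := by
  induction n with
  | zero => exact le_refl _
  | succ n ih =>
    have h := hi_shift_one E (Fm_iterate E hR n) (Fm_iterate E hR' n)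
    exact le_trans h ih

theorem Sm_iterate (E : ESys p Ω P D) (k n : ℕ) (ω : Ω) : E.Sm k (E.τ^[n] ω) = E.Sm k ω := by
  induction n with
  | zero => rfl
  | succ n ih =>
    rw [Function.iterate_succ_apply']
    unfold ESys.Sm at ih ⊢
    rw [E.Sinv]
    exact ih

private theorem Sm_law (E : ESys p Ω P D) (k l : ℕ) (a : ZMod (p ^ k)) :
    P.real (E.Sm k ⁻¹' {a}) = 1 / (p : ℝ) ^ k := by
  let : Fintype (E.Ξ.α l) := Fintype.ofFinite _
  have hX : Fm (E.Ξ.ξ l) := E.Ξ.meas l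
  have h1 := sum_measureReal_preimage_singleton (μ := P.restrict (E.Sm k ⁻¹' {a})) Finset.univ
    (f := E.Ξ.ξ l) (fun c _ => hX c)
  have h2 : ∀ c, (P.restrict (E.Sm k ⁻¹' {a})).real (E.Ξ.ξ l ⁻¹' {c}) =
      P.real (E.Ξ.ξ l ⁻¹' {c}) / (p : ℝ) ^ k := by
    intro c
    rw [measureReal_restrict_apply (hX c), Set.inter_comm]
    exact E.unif k l a c
  simp only [h2, Finset.coe_univ, Set.preimage_univ] at h1
  rw [← Finset.sum_div, entF_sum hX] at h1
  rw [measureReal_restrict_apply MeasurableSet.univ, Set.univ_inter] at h1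
  exact h1.symm

theorem hl_Sm (E : ESys p Ω P D) (k l : ℕ) :
    hl P E.Ξ (E.Sm k) (fun _ => ()) l = k * Real.log p := by
  have hS : Fm (E.Sm k) := E.Smeas k
  have hX : Fm (E.Ξ.ξ l) := E.Ξ.meas l
  unfold hl entc
  have e1 : ent P (fun ω => (E.Sm k ω, ((), E.Ξ.ξ l ω))) = ent P (fun ω => (E.Sm k ω, E.Ξ.ξ l ω)) :=
    ent_inj (P := P) (hS.prodMk hX) (fun x : ZMod (p ^ k) × E.Ξ.α l => (x.1, ((), x.2)))
      (by rintro ⟨a, b⟩ ⟨a', b'⟩ h; simp only [Prod.mk.injEq] at h; rw [h.1, h.2.2])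
  have e2 : ent P (fun ω => ((), E.Ξ.ξ l ω)) = ent P (E.Ξ.ξ l) :=
    ent_inj (P := P) hX (fun x : E.Ξ.α l => ((), x)) (by intro a b h; exact (Prod.mk.inj h).2)
  rw [e1, e2]
  have hlaw := Sm_law E k l
  have h3 := ent_indep_two (P := P) hS hX (by
    intro a c
    rw [hlaw a]
    have := E.unif k l a c
    unfold ESys.Sm
    rw [this]
    ring)
  rw [h3]
  have hp : (0 : ℝ) < (p : ℝ) ^ k := by
    have := (Fact.out : p.Prime).pos
    have h : (0 : ℝ) < p := by exact_mod_cast this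
    positivity
  have h4 : ent P (E.Sm k) = k * Real.log p := by
    let : Fintype (ZMod (p ^ k)) := Fintype.ofFinite _
    rw [ent_eq]
    simp only [hlaw]
    rw [Finset.sum_const, nsmul_eq_mul, Finset.card_univ, ← Nat.card_eq_fintype_card, Nat.card_zmod]
    unfold Real.negMulLog
    rw [one_div, Real.log_inv, Real.log_pow]
    push_cast
    field_simp
  linarith

theorem hi_Sm (E : ESys p Ω P D) (k : ℕ) :
    hi P E.Ξ (E.Sm k) (fun _ => ()) = k * Real.log p := by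
  unfold hi
  simp only [hl_Sm]
  exact ciInf_const

end Pool.Agent.H10.PS
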