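import Mathlib

/-!
MODULE Hyp (110 lines).  A discrete hyperbolicity lemma (real numbers only).

`w j = g^n Y 0 + lam^(n-j) X n` (nonnegative).  If `w j = 0` for some `j`: then `Y 0 = 0` (as `g ≥ 1`) and
`lam^(n-j) X n = 0`; to avoid this case add `κ > 0`: put `w j = g^n (Y 0 + κ) + lam^(n-j) (X n + κ)` and let `κ → 0` at the
end (if `lam = 0` the first term is still positive).  Let `S` be the maximum over `j ≤ n` of
`X j / w j` and `Y j / w j`.
* Iterating `h1`: `X j ≤ (lam^2)^(n-j) X n + 2 q ∑_{j ≤ i < n} (lam^2)^(i-j) Y i`.  The first term is `≤ w j`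
  (`lam ≤ 1`).  `Y i ≤ S w i` and `lam^(i-j) w i ≤ w j` for `i ≥ j` (`lam^(i-j) lam^(n-i) = lam^(n-j)`, `lam ≤ 1`), so
  the sum is `≤ S w j ∑ lam^(i-j) ≤ 2 S w j`.  So `X j ≤ (1 + 4 q S) w j`.
* Iterating `h2`: `Y j ≤ g^j Y 0 + q ∑_{i<j} g^(j-1-i) X i ≤ w j + q n g^n S w j` (`w i ≤ w j` for `i ≤ j`).
So `S ≤ 1 + S / 2`, `S ≤ 2`.
-/

set_option autoImplicit false

namespace Pool.Agent.H10.PS

theorem hyp_lemma {n : ℕ} {X Y : ℕ → ℝ} {q g lam : ℝ} (hX : ∀ j ≤ n, 0 ≤ X j)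
    (hY : ∀ j ≤ n, 0 ≤ Y j) (h1 : ∀ j < n, X j ≤ lam ^ 2 * X (j + 1) + 2 * q * Y j)
    (h2 : ∀ j < n, Y (j + 1) ≤ g * Y j + q * X j) (hg : 1 ≤ g) (hl0 : 0 ≤ lam)
    (hl : lam ≤ 1 / 2) (hq0 : 0 ≤ q) (hq : q ≤ 1 / 8) (hqg : n * q * g ^ n ≤ 1 / 2) :
    ∀ j ≤ n, X j + Y j ≤ 4 * (g ^ n * Y 0 + lam ^ (n - j) * X n) := by
  intro j₁ hj₁
  have hg0 : 0 < g := lt_of_lt_of_le one_pos hg
  have hl1 : lam ≤ 1 := hl.trans (by norm_num)
  have hXn := hX n le_rfl
  have hY0 := hY 0 (Nat.zero_le n)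
  refine le_of_forall_pos_le_add fun ε hε => ?_
  set κ : ℝ := ε / (4 * g ^ n) with hκ
  have hκ0 : 0 < κ := by positivity
  set W : ℕ → ℝ := fun j => g ^ n * (Y 0 + κ) + lam ^ (n - j) * X n with hW
  have hW0 : ∀ j, 0 < W j := fun j => by
    have h3 : 0 ≤ lam ^ (n - j) * X n := mul_nonneg (pow_nonneg hl0 _) hXn
    have h4 : 0 < g ^ n * (Y 0 + κ) := by positivity
    exact add_pos_of_pos_of_nonneg h4 h3
  have hWl : ∀ j < n, lam * W (j + 1) ≤ W j := fun j hj => by
    have h3 : n - j = (n - (j + 1)) + 1 := by omega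
    have h4 : lam ^ (n - j) = lam * lam ^ (n - (j + 1)) := by rw [h3, pow_succ, mul_comm]
    have h5 : 0 < g ^ n * (Y 0 + κ) := by positivity
    change lam * (g ^ n * (Y 0 + κ) + lam ^ (n - (j + 1)) * X n) ≤
      g ^ n * (Y 0 + κ) + lam ^ (n - j) * X n
    rw [h4]
    nlinarith
  have hWm : ∀ j < n, W j ≤ W (j + 1) := fun j hj => by
    have h3 : n - j = (n - (j + 1)) + 1 := by omega
    have h4 : lam ^ (n - j) ≤ lam ^ (n - (j + 1)) := pow_le_pow_of_le_one hl0 hl1 (by omega)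
    exact add_le_add le_rfl (mul_le_mul_of_nonneg_right h4 hXn)
  obtain ⟨j₀, hj₀, hmax⟩ := Finset.exists_max_image (Finset.range (n + 1))
    (fun j => max (X j) (Y j) / W j) ⟨0, Finset.mem_range.2 (Nat.succ_pos n)⟩
  set S : ℝ := max (X j₀) (Y j₀) / W j₀ with hS
  have hj₀n : j₀ ≤ n := Nat.lt_succ_iff.1 (Finset.mem_range.1 hj₀)
  have hS0 : 0 ≤ S := div_nonneg (le_max_of_le_left (hX j₀ hj₀n)) (hW0 j₀).le
  have hSX : ∀ j ≤ n, max (X j) (Y j) ≤ S * W j := fun j hj => by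
    have h3 := hmax j (Finset.mem_range.2 (Nat.lt_succ_iff.2 hj))
    rwa [div_le_iff₀ (hW0 j)] at h3
  have hA : ∀ k ≤ n, X (n - k) ≤ (lam ^ 2) ^ k * X n + 4 * q * S * W (n - k) := by
    intro k
    induction k with
    | zero =>
      intro _
      have h3 := hW0 n
      rw [Nat.sub_zero, pow_zero, one_mul]
      have : 0 ≤ 4 * q * S * W n := by positivity
      linarith
    | succ k ih =>
      intro hk
      have ih' := ih (by omega)
      have h3 : n - (k + 1) < n := by omega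
      have h4 : n - (k + 1) + 1 = n - k := by omega
      have h5 := h1 _ h3
      have h6 := hWl _ h3
      rw [h4] at h5 h6
      have h7 : Y (n - (k + 1)) ≤ S * W (n - (k + 1)) := (le_max_right _ _).trans (hSX _ h3.le)
      have h8 : lam ^ 2 * X (n - k) ≤ lam ^ 2 * ((lam ^ 2) ^ k * X n + 4 * q * S * W (n - k)) :=
        mul_le_mul_of_nonneg_left ih' (sq_nonneg _)
      have h9 : lam ^ 2 * (4 * q * S * W (n - k)) ≤ 2 * q * S * W (n - (k + 1)) := by
        have h10 : lam ^ 2 * (4 * q * S * W (n - k)) = (4 * q * S) * (lam * (lam * W (n - k))) := by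
          ring
        have h11 : lam * (lam * W (n - k)) ≤ (1 / 2) * W (n - (k + 1)) :=
          mul_le_mul hl h6 (mul_nonneg hl0 (hW0 _).le) (by norm_num)
        rw [h10]
        calc (4 * q * S) * (lam * (lam * W (n - k))) ≤ (4 * q * S) * ((1 / 2) * W (n - (k + 1))) :=
              mul_le_mul_of_nonneg_left h11 (by positivity)
          _ = 2 * q * S * W (n - (k + 1)) := by ring
      have h12 : 2 * q * Y (n - (k + 1)) ≤ 2 * q * (S * W (n - (k + 1))) :=
        mul_le_mul_of_nonneg_left h7 (by positivity)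
      calc X (n - (k + 1)) ≤ lam ^ 2 * X (n - k) + 2 * q * Y (n - (k + 1)) := h5
        _ ≤ lam ^ 2 * ((lam ^ 2) ^ k * X n + 4 * q * S * W (n - k)) +
            2 * q * (S * W (n - (k + 1))) := add_le_add h8 h12
        _ ≤ (lam ^ 2) ^ (k + 1) * X n + 4 * q * S * W (n - (k + 1)) := by
            have e : (lam ^ 2) ^ (k + 1) * X n = lam ^ 2 * ((lam ^ 2) ^ k * X n) := by ring
            rw [e, mul_add]
            linarith
  have hB : ∀ j ≤ n, Y j ≤ g ^ j * Y 0 + j * q * g ^ j * S * W j := by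
    intro j
    induction j with
    | zero =>
      intro _
      simp
    | succ j ih =>
      intro hj
      have ih' := ih (by omega)
      have hjn : j < n := by omega
      have h3 := h2 j hjn
      have h4 : X j ≤ S * W j := (le_max_left _ _).trans (hSX j hjn.le)
      have h5 := hWm j hjn
      have h6 : (1 : ℝ) ≤ g ^ (j + 1) := one_le_pow₀ hg
      have h7 : q * X j ≤ q * g ^ (j + 1) * S * W (j + 1) := by
        calc q * X j ≤ q * (S * W j) := mul_le_mul_of_nonneg_left h4 hq0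
          _ ≤ q * (S * W (j + 1)) := mul_le_mul_of_nonneg_left (mul_le_mul_of_nonneg_left h5 hS0) hq0
          _ ≤ g ^ (j + 1) * (q * (S * W (j + 1))) := by
              have h8 : 0 ≤ q * (S * W (j + 1)) := mul_nonneg hq0 (mul_nonneg hS0 (hW0 _).le)
              nlinarith
          _ = q * g ^ (j + 1) * S * W (j + 1) := by ring
      have h8 : g * Y j ≤ g ^ (j + 1) * Y 0 + j * q * g ^ (j + 1) * S * W (j + 1) := by
        calc g * Y j ≤ g * (g ^ j * Y 0 + j * q * g ^ j * S * W j) :=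
              mul_le_mul_of_nonneg_left ih' hg0.le
          _ = g ^ (j + 1) * Y 0 + j * q * g ^ (j + 1) * S * W j := by ring
          _ ≤ g ^ (j + 1) * Y 0 + j * q * g ^ (j + 1) * S * W (j + 1) :=
              add_le_add le_rfl (mul_le_mul_of_nonneg_left h5 (by positivity))
      calc Y (j + 1) ≤ g * Y j + q * X j := h3
        _ ≤ (g ^ (j + 1) * Y 0 + j * q * g ^ (j + 1) * S * W (j + 1)) +
            q * g ^ (j + 1) * S * W (j + 1) := add_le_add h8 h7
        _ = g ^ (j + 1) * Y 0 + ((j + 1 : ℕ) : ℝ) * q * g ^ (j + 1) * S * W (j + 1) := by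
            push_cast
            ring
  have hA' : ∀ j ≤ n, X j ≤ (1 + S / 2) * W j := by
    intro j hj
    have h3 := hA (n - j) (by omega)
    have h4 : n - (n - j) = j := by omega
    rw [h4] at h3
    have h5 : (lam ^ 2) ^ (n - j) * X n ≤ lam ^ (n - j) * X n := by
      refine mul_le_mul_of_nonneg_right (pow_le_pow_left₀ (sq_nonneg _) ?_ _) hXn
      nlinarith
    have h6 : lam ^ (n - j) * X n ≤ W j := by
      have : 0 < g ^ n * (Y 0 + κ) := by positivity
      change lam ^ (n - j) * X n ≤ g ^ n * (Y 0 + κ) + lam ^ (n - j) * X n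
      linarith
    have h7 : 4 * q * S * W j ≤ S / 2 * W j := by
      refine mul_le_mul_of_nonneg_right ?_ (hW0 j).le
      nlinarith
    linarith
  have hB' : ∀ j ≤ n, Y j ≤ (1 + S / 2) * W j := by
    intro j hj
    have h3 := hB j hj
    have h4 : g ^ j * Y 0 ≤ W j := by
      have h5 : g ^ j ≤ g ^ n := pow_le_pow_right₀ hg hj
      have h6 : 0 ≤ lam ^ (n - j) * X n := mul_nonneg (pow_nonneg hl0 _) hXn
      have h7 : g ^ j * Y 0 ≤ g ^ n * Y 0 := mul_le_mul_of_nonneg_right h5 hY0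
      have h8 : 0 < g ^ n * κ := by positivity
      change g ^ j * Y 0 ≤ g ^ n * (Y 0 + κ) + lam ^ (n - j) * X n
      nlinarith
    have h5 : (j : ℝ) * q * g ^ j ≤ 1 / 2 := by
      refine le_trans ?_ hqg
      refine mul_le_mul ?_ (pow_le_pow_right₀ hg hj) (by positivity) (by positivity)
      exact mul_le_mul_of_nonneg_right (by exact_mod_cast hj) hq0
    have h6 : (j : ℝ) * q * g ^ j * S * W j ≤ 1 / 2 * S * W j :=
      mul_le_mul_of_nonneg_right (mul_le_mul_of_nonneg_right h5 hS0) (hW0 j).le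
    linarith
  have hS2 : S ≤ 2 := by
    have h3 : max (X j₀) (Y j₀) ≤ (1 + S / 2) * W j₀ := max_le (hA' j₀ hj₀n) (hB' j₀ hj₀n)
    have h4 : S ≤ 1 + S / 2 := by
      rw [← div_le_iff₀ (hW0 j₀)] at h3
      exact h3
    linarith
  have h3 := hSX j₁ hj₁
  have h4 : S * W j₁ ≤ 2 * W j₁ := mul_le_mul_of_nonneg_right hS2 (hW0 _).le
  have h5 : X j₁ ≤ 2 * W j₁ := (le_max_left _ _).trans (h3.trans h4)
  have h6 : Y j₁ ≤ 2 * W j₁ := (le_max_right _ _).trans (h3.trans h4)
  have h7 : 4 * (g ^ n * κ) = ε := by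
    rw [hκ]
    field_simp
  have h8 : W j₁ = g ^ n * Y 0 + lam ^ (n - j₁) * X n + g ^ n * κ := by
    change g ^ n * (Y 0 + κ) + lam ^ (n - j₁) * X n = _
    ring
  rw [h8] at h5 h6
  linarith

end Pool.Agent.H10.PS
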