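import Pool.Agent.H10.PS.Pig
import Pool.Agent.H10.PS.DigB

/-!
(I1), assembly.  For every `q` and `η` there is `κ0` such that for `R ≥ κ0 θ` and every window length `L`
there are arbitrarily large `T` and a digit position `i` (divisible by `e0`, in `[RT/8, RT/2]`) such that
the `q` digits from `i` on are nearly independent of the names (mesh `exp (-θ T)`, times `j T`, `j < L`),
the digits before `i` and the base point.
-/

set_option autoImplicit false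

open MeasureTheory H31.BE

namespace Pool.Agent.H10.PS

variable {p : ℕ} [Fact p.Prime] {Ω : Type} [MeasurableSpace Ω] {P : Measure Ω}
  [IsProbabilityMeasure P] {D : ℕ}

theorem I1 (E : ESys p Ω P D) {Λ c0 θ0 : ℝ} (hΛ : 0 ≤ Λ) (hc0 : 0 ≤ c0)
    (hTE : ∀ θ : ℝ, θ0 ≤ θ → ∀ M n : ℕ, 1 ≤ M → E.TE Λ c0 θ M n) {q e0 : ℕ} (hq : 1 ≤ q)
    (he0 : 1 ≤ e0) {η : ℝ} (hη : 0 < η) :
    ∃ κ0 : ℝ, 0 < κ0 ∧ ∀ θ : ℝ, θ0 ≤ θ → 1 ≤ θ → ∀ R : ℕ, κ0 * θ ≤ R → ∀ L : ℕ, 1 ≤ L →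
      ∀ T0 : ℕ, ∃ T : ℕ, T0 ≤ T ∧ ∃ i : ℕ, e0 ∣ i ∧ R * T ≤ 8 * i ∧ 2 * i ≤ R * T ∧ ∀ l : ℕ,
        q * Real.log p -
          hl P E.Ξ (E.Sm (i + q)) (fun ω => (E.Sm i ω, E.nm θ T L ω)) l ≤ η := by
  have hqe : (0 : ℝ) < 4 * (q * e0) := by
    have h1 : (0 : ℝ) < q := by exact_mod_cast hq
    have h2 : (0 : ℝ) < e0 := by exact_mod_cast he0
    positivity
  obtain ⟨κ0, hκ0, h⟩ := pigeon E hΛ hc0 hTE (η := η / (4 * (q * e0))) (by positivity)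
  refine ⟨κ0, hκ0, ?_⟩
  intro θ h0 h1 R hR L hL T0
  have hRpos : (0 : ℝ) < R := lt_of_lt_of_le (by positivity) hR
  have hR1 : 1 ≤ R := by
    have : (0 : ℝ) < (R : ℝ) := hRpos
    exact_mod_cast this
  obtain ⟨T, hT, hT1, hh⟩ := h θ h0 h1 R hR L hL (max T0 (16 * (q * e0)))
  have hk : 16 * (q * e0) ≤ R * T := by
    have h3 : 16 * (q * e0) ≤ T := le_trans (le_max_right _ _) hT
    calc 16 * (q * e0) ≤ T := h3
      _ = 1 * T := (one_mul _).symm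
      _ ≤ R * T := Nat.mul_le_mul_right _ hR1
  obtain ⟨i, hi1, hi2, hi3, hi4⟩ := exists_digits E (E.Fm_nm θ T L) (k := R * T)
    (η := η / (4 * (q * e0))) (by positivity) (by push_cast; exact hh) hq he0 hk
  refine ⟨T, le_trans (le_max_left _ _) hT, i, hi1, hi2, hi3, fun l => ?_⟩
  refine (hi4 l).trans (le_of_eq ?_)
  field_simp

end Pool.Agent.H10.PS
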