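import Pool.Agent.H10.PS.Ref

/-!
MODULE Pig (130 lines).  The pigeonhole argument.

`M = ⌈4 log p / η⌉₊ + 2`, `κ0 = 4 (D (5 + Λ c0 + Λ) + 1) / η`.  Let `θ ≥ max θ0 1`, `κ0 θ ≤ R`, `L ≥ 1`,
`T_q = M ^ q T0'` with `T0' ≥ T0, 1` and `T0' ≥` the bound of `refine_names`.  Suppose that the claim
fails for all `T_q`.  `F q = hi(nm θ T_q L) / T_q`.  By `refine_names`, `block` with `k = R T_q` and the
assumption: `hi(nm θ T_{q+1} L) ≤ R T_q log p + M (hi(nm θ T_q L) - η R T_q) + (D (5 M θ + Λ (c0 M θ + 1)) + 1) T_q`.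
Dividing by `M T_q` (and `1 / M ≤ θ`, `θ ≥ 1`):
`F (q+1) ≤ F q + R log p / M - η R + (D (5 + Λ c0 + Λ) + 1) θ ≤ F q - η R / 2`.
As `0 ≤ F q` and `F 0` is finite, `η R > 0` (`R ≥ κ0 θ > 0`), this is absurd for `q` large.
-/

set_option autoImplicit false

open MeasureTheory H31.BE

namespace Pool.Agent.H10.PS

variable {p : ℕ} [Fact p.Prime] {Ω : Type} [MeasurableSpace Ω] {P : Measure Ω}
  [IsProbabilityMeasure P] {D : ℕ}

theorem pigeon (E : ESys p Ω P D) {Λ c0 θ0 : ℝ} (hΛ : 0 ≤ Λ) (hc0 : 0 ≤ c0)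
    (hTE : ∀ θ : ℝ, θ0 ≤ θ → ∀ M n : ℕ, 1 ≤ M → E.TE Λ c0 θ M n) {η : ℝ} (hη : 0 < η) :
    ∃ κ0 : ℝ, 0 < κ0 ∧ ∀ θ : ℝ, θ0 ≤ θ → 1 ≤ θ → ∀ R : ℕ, κ0 * θ ≤ R → ∀ L : ℕ, 1 ≤ L →
      ∀ T0 : ℕ, ∃ T : ℕ, T0 ≤ T ∧ 1 ≤ T ∧
        hi P E.Ξ (E.nm θ T L) (fun _ => ()) - hi P E.Ξ (E.nm θ T L) (E.Sm (R * T)) ≤
          η * (R * T) := by
  have hp1 : (1 : ℝ) ≤ p := by exact_mod_cast (Fact.out : p.Prime).one_lt.le
  have hlp : 0 ≤ Real.log p := Real.log_nonneg hp1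
  set K : ℝ := D * (5 + Λ * c0 + Λ) + 1 with hK
  have hK1 : 0 < K := by positivity
  refine ⟨4 * K / η, by positivity, ?_⟩
  intro θ hθ0 hθ1 R hR L hL T0
  have hθ : 0 < θ := by linarith
  obtain ⟨M, hMdef⟩ : ∃ M : ℕ, M = ⌈4 * Real.log p / η⌉₊ + 2 := ⟨_, rfl⟩
  have hM : 1 ≤ M := by omega
  have hM0 : (1 : ℝ) ≤ M := by exact_mod_cast hM
  have hMl : 4 * Real.log p ≤ η * M := by
    have h1 := Nat.le_ceil (4 * Real.log p / η)
    have h2 : ((⌈4 * Real.log p / η⌉₊ : ℕ) : ℝ) ≤ M := by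
      rw [hMdef]
      push_cast
      linarith
    have h3 := h1.trans h2
    rw [div_le_iff₀ hη] at h3
    linarith
  have hRK : 4 * K * θ ≤ η * R := by
    have h1 : 4 * K / η * θ = 4 * K * θ / η := by ring
    rw [h1, div_le_iff₀ hη] at hR
    linarith
  have hR0 : 0 < η * R := by
    have : 0 < 4 * K * θ := by positivity
    linarith
  obtain ⟨T1, hT1⟩ := refine_names E hΛ hc0 hθ hM hL (hTE θ hθ0 M ((L - 1) * M) hM)
  by_contra hcon
  push Not at hcon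
  set a : ℕ → ℝ := fun T => hi P E.Ξ (E.nm θ T L) (fun _ => ()) with ha
  have ha0 : ∀ T, 0 ≤ a T := fun T => hi_nonneg (P := P) E.Ξ (E.Fm_nm θ T L) (Fm.const ())
  have key : ∀ T : ℕ, T0 ≤ T → T1 ≤ T → 1 ≤ T →
      a (M * T) / ((M * T : ℕ) : ℝ) ≤ a T / T - η * R / 2 := by
    intro T h0 h1 h2
    have hT : (0 : ℝ) < T := by exact_mod_cast h2
    have c1 := hT1 T h1
    have c2 := block (P := P) E θ T L M (R * T)
    have c3 := hcon T h0 h2
    have c4 : a (M * T) ≤ ((R * T : ℕ) : ℝ) * Real.log p + M * (a T - η * (R * T)) +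
        (D * (5 * M * θ + Λ * (c0 * M * θ + 1)) + 1) * T := by
      have c5 : hi P E.Ξ (E.nm θ T L) (E.Sm (R * T)) ≤ a T - η * (R * T) := by
        simp only [ha]
        linarith
      have c6 := mul_le_mul_of_nonneg_left c5 (by linarith : (0 : ℝ) ≤ M)
      have c7 : a (M * T) = hi P E.Ξ (E.nm θ (M * T) L) (fun _ => ()) := rfl
      linarith
    have hMT : (0 : ℝ) < ((M * T : ℕ) : ℝ) := by
      push_cast
      positivity
    rw [div_le_iff₀ hMT]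
    refine c4.trans ?_
    push_cast
    have e1 : (a T / T - η * R / 2) * (M * T) = M * a T - η * R / 2 * M * T := by
      field_simp
    rw [e1]
    have d1 : (R : ℝ) * T * Real.log p ≤ η * R * M * T / 4 := by
      have : (R : ℝ) * T * (4 * Real.log p) ≤ R * T * (η * M) :=
        mul_le_mul_of_nonneg_left hMl (by positivity)
      linarith
    have d2 : (D * (5 * M * θ + Λ * (c0 * M * θ + 1)) + 1) * T ≤ K * θ * M * T := by
      refine mul_le_mul_of_nonneg_right ?_ hT.le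
      have hMθ : 1 ≤ M * θ := by nlinarith
      have f1 : (D : ℝ) * Λ * 1 ≤ D * Λ * (M * θ) := mul_le_mul_of_nonneg_left hMθ (by positivity)
      rw [hK]
      nlinarith
    have d3 : K * θ * M * T ≤ η * R * M * T / 4 := by
      have : 4 * K * θ * (M * T) ≤ η * R * (M * T) :=
        mul_le_mul_of_nonneg_right hRK (by positivity)
      linarith
    linarith
  obtain ⟨T2, hT2⟩ : ∃ T2 : ℕ, T2 = max T0 (max T1 1) := ⟨_, rfl⟩
  have b0 : T0 ≤ T2 := by rw [hT2]; exact le_max_left _ _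
  have b1 : T1 ≤ T2 := by rw [hT2]; exact (le_max_left _ _).trans (le_max_right _ _)
  have b2 : 1 ≤ T2 := by rw [hT2]; exact (le_max_right _ _).trans (le_max_right _ _)
  have step : ∀ q : ℕ, a (M ^ q * T2) / ((M ^ q * T2 : ℕ) : ℝ) ≤ a T2 / T2 - q * (η * R / 2) := by
    intro q
    induction q with
    | zero => simp
    | succ q ih =>
      have hq : T2 ≤ M ^ q * T2 := Nat.le_mul_of_pos_left _ (pow_pos (by omega) q)
      have h1 := key (M ^ q * T2) (b0.trans hq) (b1.trans hq) (b2.trans hq)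
      have e1 : M ^ (q + 1) * T2 = M * (M ^ q * T2) := by ring
      rw [e1]
      refine h1.trans ?_
      push_cast at ih ⊢
      linarith
  obtain ⟨q, hq⟩ := exists_nat_gt (a T2 / T2 / (η * R / 2))
  have h1 := step q
  have h2 : 0 ≤ a (M ^ q * T2) / ((M ^ q * T2 : ℕ) : ℝ) := div_nonneg (ha0 _) (Nat.cast_nonneg _)
  rw [div_lt_iff₀ (by linarith)] at hq
  linarith

end Pool.Agent.H10.PS
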