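import Pool.Agent.H10.PS.En4
import Pool.Agent.H10.PS.Blk

/-!
MODULE Ref (220 lines).  The refinement inequality: the names of mesh `exp (-θ M T)` at the times
`j M T`, `j < L`, cost little more than the names of mesh `exp (-θ T)` at the times `j T`, `j < M L`.

Put `n = (L - 1) M`, `m = ⌈c0 M θ⌉₊`, `N0 = sc (3 M θ) T`, `N1 = sc (2 M θ + Λ m) T`,
`E0 ω = E.cl N0 ω`, `E1 ω = E.cl N1 (τ^[(n - m) T] ω)`, `R' = (nm θ T (M L), E0, E1)`, `R = nm θ (M T) L`.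
`hi(R) ≤ hi((R, R')) = hi(R') + hi(R | R')`, `hi(R') ≤ hi(nm θ T (ML)) + log card E0 + log card E1`
(`hi_chain`, `hi_le_card`, `hi_anti`); `log card E0 = D log (N0 + 1) ≤ D (3 M θ T + 2)` (`log_sc`), the same for
`E1`.  `hi(R | R')`: counting lemma `hi_count` with `G`, `l` from `TE` (with
`η = 1 / (D L (M θ + 2) + 1) / 4`, say) and `N = 5 ^ (D L)`: if `ω ∈ G`, `ω'` are in the same atom of
`(R', ξ l)` then by `TE` (hypotheses: `cel_close_sc` for the names, for `E0` and for `E1`; all `j ≤ n`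
are `< M L`) `|ψ(τ^[jMT] ω) - ψ(τ^[jMT] ω')| ≤ exp (-(M θ T))` for `j < L`; `sc θ (M T) ≤ exp (θ M T) + 1`, so
`cel_near`: each of the `D L` coordinates of `R ω'` is one of `5` values determined by `ω`.  So `R` takes at
most `5 ^ (D L)` values on an atom (in `G`).  `log card R = D L log (sc θ (M T) + 1) ≤ D L (θ M T + 2)`.
All constants (`log 2`, `D L log 5`, `4 D`, ..) and `η log card R` are together `≤ T` for `T` large.
If `D = 0` or `P` is trivial nothing special happens.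
-/

set_option autoImplicit false

open MeasureTheory H31.BE

namespace Pool.Agent.H10.PS

variable {p : ℕ} [Fact p.Prime] {Ω : Type} [MeasurableSpace Ω] {P : Measure Ω}
  [IsProbabilityMeasure P] {D : ℕ}

private lemma Ref_count {D L K : ℕ} (s : Set (Fin L → Fin D → Fin (K + 1)))
    (a0 : Fin L → Fin D → Fin (K + 1))
    (h : ∀ a ∈ s, ∀ j i, ((a0 j i : ℕ) : ℤ) - 2 ≤ (a j i : ℕ) ∧
      ((a j i : ℕ) : ℤ) ≤ (a0 j i : ℕ) + 2) :
    s.ncard ≤ 5 ^ (D * L) := by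
  let f : (Fin L → Fin D → Fin (K + 1)) → (Fin L → Fin D → Fin 5) :=
    fun a j i => ⟨min ((a j i : ℕ) + 2 - (a0 j i : ℕ)) 4, by omega⟩
  have hinj : Set.InjOn f s := by
    intro a ha b hb hab
    funext j i
    have h1 := h a ha j i
    have h2 := h b hb j i
    have h3 : (f a j i : ℕ) = (f b j i : ℕ) := by rw [hab]
    simp only [f] at h3
    apply Fin.ext
    omega
  have h1 : s.ncard ≤ (Set.univ : Set (Fin L → Fin D → Fin 5)).ncard :=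
    Set.ncard_le_ncard_of_injOn f (fun a _ => Set.mem_univ _) hinj
  rw [Set.ncard_univ] at h1
  have h2 : Nat.card (Fin L → Fin D → Fin 5) = 5 ^ (D * L) := by
    rw [Nat.card_fun, Nat.card_fun]; simp [pow_mul]
  omega

private lemma Ref_card (D N : ℕ) :
    Real.log (Nat.card (Fin D → Fin (N + 1))) = D * Real.log ((N : ℝ) + 1) := by
  rw [Nat.card_fun]; simp

private lemma Ref_card2 (D L N : ℕ) :
    Real.log (Nat.card (Fin L → Fin D → Fin (N + 1))) = L * (D * Real.log ((N : ℝ) + 1)) := by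
  rw [Nat.card_fun, Nat.card_fun]; simp

private lemma Ref_step (E : ESys p Ω P D) {Λ c0 θ : ℝ} {M L T : ℕ} (hθ : 0 < θ) (hL : 1 ≤ L)
    (hM : 1 ≤ M) {η : ℝ} {G : Set Ω} (hG : MeasurableSet G) (hGη : P.real Gᶜ ≤ η) {l : ℕ}
    (hh : ∀ ω ∈ G, ∀ ω' : Ω, E.Ξ.ξ l ω = E.Ξ.ξ l ω' →
      (∀ j ≤ (L - 1) * M, ∀ i, |E.ψ (E.τ^[j * T] ω) i - E.ψ (E.τ^[j * T] ω') i| ≤
        Real.exp (-(θ * T))) →
      (∀ i, |E.ψ ω i - E.ψ ω' i| ≤ Real.exp (-(3 * M * θ * T))) →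
      (∀ i, |E.ψ (E.τ^[((L - 1) * M - ⌈c0 * M * θ⌉₊) * T] ω) i -
          E.ψ (E.τ^[((L - 1) * M - ⌈c0 * M * θ⌉₊) * T] ω') i| ≤
        Real.exp (-((2 * M * θ + Λ * ⌈c0 * M * θ⌉₊) * T))) →
      ∀ j ≤ (L - 1) * M, ∀ i, |E.ψ (E.τ^[j * T] ω) i - E.ψ (E.τ^[j * T] ω') i| ≤
        Real.exp (-(M * θ * T))) :
    hi P E.Ξ (E.nm θ (M * T) L) (fun ω => (E.nm θ T (M * L) ω, E.cl (sc (3 * M * θ) T) ω,
      E.cl (sc (2 * M * θ + Λ * ⌈c0 * M * θ⌉₊) T)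
        (E.τ^[((L - 1) * M - ⌈c0 * M * θ⌉₊) * T] ω))) ≤
      Real.log 2 + Real.log ((5 ^ (D * L) : ℕ) : ℝ) +
        η * Real.log (Nat.card (Fin L → Fin D → Fin (sc θ (M * T) + 1))) := by
  have hF0 : Fm fun ω => E.cl (sc (3 * M * θ) T) ω := E.Fm_cl _ 0
  have hF1 : Fm fun ω => E.cl (sc (2 * M * θ + Λ * ⌈c0 * M * θ⌉₊) T)
        (E.τ^[((L - 1) * M - ⌈c0 * M * θ⌉₊) * T] ω) := E.Fm_cl _ _
  refine hi_count E.Ξ (E.Fm_nm _ _ _) ((E.Fm_nm _ _ _).prodMk (hF0.prodMk hF1)) hG hGη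
    (l := l) (Nat.one_le_pow _ _ (by norm_num)) ?_
  intro b c
  rcases Set.eq_empty_or_nonempty {a | ∃ ω ∈ G, E.nm θ (M * T) L ω = a ∧
    (E.nm θ T (M * L) ω, E.cl (sc (3 * M * θ) T) ω,
      E.cl (sc (2 * M * θ + Λ * ⌈c0 * M * θ⌉₊) T)
        (E.τ^[((L - 1) * M - ⌈c0 * M * θ⌉₊) * T] ω)) = b ∧ E.Ξ.ξ l ω = c} with he | ⟨a0, ω0, hω0, ha0, hb0, hc0⟩
  · rw [he]; simp
  · refine Ref_count _ a0 ?_
    rintro a ⟨ω, hω, ha, hb, hc⟩ j i
    have hpair := hb0.trans hb.symm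
    simp only [Prod.mk.injEq] at hpair
    obtain ⟨hA, hE0, hE1⟩ := hpair
    have hj := hh ω0 hω0 ω (hc0.trans hc.symm) ?_ ?_ ?_ (j * M)
      (Nat.mul_le_mul_right _ (by have := j.2; omega)) i
    · subst ha ha0
      have hle : ∀ x y : ℝ, 0 ≤ x → x ≤ 1 → 0 ≤ y → y ≤ 1 →
          |x - y| ≤ Real.exp (-(M * θ * T)) → |x - y| * (sc θ (M * T) : ℕ) ≤ 2 := by
        intro x y _ _ _ _ h
        have h1 := sc_le θ (M * T)
        have h2 : Real.exp (-(M * θ * T)) ≤ 1 := Real.exp_le_one_iff.2 (by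
          have : (0 : ℝ) ≤ M * θ * T := by positivity
          linarith)
        have h3 : Real.exp (-(M * θ * T)) * Real.exp (θ * ((M * T : ℕ) : ℝ)) = 1 := by
          rw [← Real.exp_add, Real.exp_eq_one_iff]
          push_cast
          ring
        calc |x - y| * (sc θ (M * T) : ℕ)
            ≤ Real.exp (-(M * θ * T)) * (Real.exp (θ * ((M * T : ℕ) : ℝ)) + 1) := by gcongr
          _ ≤ 2 := by rw [mul_add, h3]; linarith
      have hx := cel_near (N := sc θ (M * T)) (E.ψ0 (E.τ^[(j : ℕ) * (M * T)] ω) i)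
        (E.ψ1 (E.τ^[(j : ℕ) * (M * T)] ω) i) (E.ψ0 (E.τ^[(j : ℕ) * (M * T)] ω0) i)
        (E.ψ1 (E.τ^[(j : ℕ) * (M * T)] ω0) i) (by
          rw [abs_sub_comm, ← mul_assoc (j : ℕ) M T]
          exact hle _ _ (E.ψ0 _ _) (E.ψ1 _ _) (E.ψ0 _ _) (E.ψ1 _ _) hj)
      exact hx
    · intro j' hj' i'
      have hlt : j' < M * L := by
        have : (L - 1) * M < M * L := by
          rw [mul_comm M L]
          exact Nat.mul_lt_mul_of_pos_right (by omega) (by omega)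
        omega
      have h1 := congrFun (congrFun hA ⟨j', hlt⟩) i'
      exact cel_close_sc (E.ψ0 _ _) (E.ψ1 _ _) (E.ψ0 _ _) (E.ψ1 _ _) h1
    · intro i'
      have h1 := congrFun hE0 i'
      exact cel_close_sc (E.ψ0 _ _) (E.ψ1 _ _) (E.ψ0 _ _) (E.ψ1 _ _) h1
    · intro i'
      have h1 := congrFun hE1 i'
      exact cel_close_sc (E.ψ0 _ _) (E.ψ1 _ _) (E.ψ0 _ _) (E.ψ1 _ _) h1

theorem refine_names (E : ESys p Ω P D) {Λ c0 θ : ℝ} (hΛ : 0 ≤ Λ) (hc0 : 0 ≤ c0) (hθ : 0 < θ)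
    {M L : ℕ} (hM : 1 ≤ M) (hL : 1 ≤ L) (hTE : E.TE Λ c0 θ M ((L - 1) * M)) :
    ∃ T0 : ℕ, ∀ T : ℕ, T0 ≤ T →
      hi P E.Ξ (E.nm θ (M * T) L) (fun _ => ()) ≤
        hi P E.Ξ (E.nm θ T (M * L)) (fun _ => ()) +
          (D * (5 * M * θ + Λ * (c0 * M * θ + 1)) + 1) * T := by
  have hMθ : (0 : ℝ) ≤ M * θ := by positivity
  have hm : (⌈c0 * M * θ⌉₊ : ℝ) ≤ c0 * M * θ + 1 :=
    (Nat.ceil_lt_add_one (by positivity)).le
  set m := ⌈c0 * M * θ⌉₊ with hmdef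
  set η : ℝ := 1 / (4 * ((L : ℝ) * D * (M * θ + 2) + 1)) with hηdef
  have hpos : (0 : ℝ) < (L : ℝ) * D * (M * θ + 2) + 1 := by positivity
  have hη : 0 < η := by positivity
  obtain ⟨T1, hT1⟩ := hTE η hη
  set C : ℝ := Real.log 2 + Real.log ((5 ^ (D * L) : ℕ) : ℝ) + 4 * D with hC
  refine ⟨max T1 (⌈4 * C⌉₊ + 1), fun T hT => ?_⟩
  have hTT1 : T1 ≤ T := le_trans (le_max_left _ _) hT
  have hTC : 4 * C ≤ T := by
    have h1 : ⌈4 * C⌉₊ + 1 ≤ T := le_trans (le_max_right _ _) hT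
    have h2 : (4 * C) ≤ (⌈4 * C⌉₊ : ℝ) := Nat.le_ceil _
    have h3 : ((⌈4 * C⌉₊ : ℝ) + 1) ≤ T := by exact_mod_cast h1
    linarith
  have hT1' : (1 : ℝ) ≤ T := by
    have h1 : ⌈4 * C⌉₊ + 1 ≤ T := le_trans (le_max_right _ _) hT
    have h2 : 1 ≤ T := by omega
    exact_mod_cast h2
  obtain ⟨G, hG, hGη, l, hh⟩ := hT1 T hTT1
  have hstep := Ref_step E hθ hL hM hG hGη hh
  set A := E.nm θ T (M * L) with hA
  set R := E.nm θ (M * T) L with hR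
  set E0 : Ω → Fin D → Fin (sc (3 * M * θ) T + 1) := fun ω => E.cl (sc (3 * M * θ) T) ω with hE0
  set E1 : Ω → Fin D → Fin (sc (2 * M * θ + Λ * m) T + 1) := fun ω =>
    E.cl (sc (2 * M * θ + Λ * m) T) (E.τ^[((L - 1) * M - m) * T] ω) with hE1
  have hFA : Fm A := E.Fm_nm _ _ _
  have hFR : Fm R := E.Fm_nm _ _ _
  have hF0 : Fm E0 := E.Fm_cl _ 0
  have hF1 : Fm E1 := E.Fm_cl _ _
  have hFR' : Fm (fun ω => (A ω, E0 ω, E1 ω)) := hFA.prodMk (hF0.prodMk hF1)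
  have hFu : Fm (fun _ : Ω => ()) := Fm.const _
  -- chain
  have h1 : hi P E.Ξ R (fun _ => ()) ≤
      hi P E.Ξ (fun ω => (R ω, (A ω, E0 ω, E1 ω))) (fun _ => ()) :=
    hi_comp_le E.Ξ (hFR.prodMk hFR') hFu Prod.fst
  have h2 := hi_chain (P := P) E.Ξ hFR hFR' hFu
  have h3 : hi P E.Ξ R (fun ω => ((A ω, E0 ω, E1 ω), ())) ≤
      hi P E.Ξ R (fun ω => (A ω, E0 ω, E1 ω)) := by
    exact hi_anti E.Ξ hFR (hFR'.prodMk hFu) Prod.fst
  have h4 : hi P E.Ξ (fun ω => (A ω, E0 ω, E1 ω)) (fun _ => ()) ≤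
      hi P E.Ξ (fun ω => ((E0 ω, E1 ω), A ω)) (fun _ => ()) :=
    hi_comp_le E.Ξ ((hF0.prodMk hF1).prodMk hFA) hFu (fun x => (x.2, x.1.1, x.1.2))
  have h5 := hi_chain (P := P) E.Ξ (hF0.prodMk hF1) hFA hFu
  have h6 := hi_le_card (P := P) E.Ξ (hF0.prodMk hF1) (hFA.prodMk hFu)
  have h7 : Real.log (Nat.card ((Fin D → Fin (sc (3 * M * θ) T + 1)) ×
      (Fin D → Fin (sc (2 * M * θ + Λ * m) T + 1)))) =
      D * Real.log ((sc (3 * M * θ) T : ℝ) + 1) + D * Real.log ((sc (2 * M * θ + Λ * m) T : ℝ) + 1) := by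
    rw [Nat.card_prod, Nat.cast_mul, Real.log_mul, Ref_card, Ref_card]
    · exact_mod_cast Nat.card_pos.ne'
    · exact_mod_cast Nat.card_pos.ne'
  have h8 := log_sc (θ := 3 * M * θ) (by positivity) T
  have h9 := log_sc (θ := 2 * M * θ + Λ * m) (by positivity) T
  have h10 := log_sc hθ.le (M * T)
  rw [Ref_card2] at hstep
  have hD : (0 : ℝ) ≤ D := Nat.cast_nonneg _
  have hLn : (0 : ℝ) ≤ L := Nat.cast_nonneg _
  have h11 : η * (L * (D * Real.log ((sc θ (M * T) : ℝ) + 1))) ≤ T / 4 := by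
    have a1 : (L : ℝ) * (D * Real.log ((sc θ (M * T) : ℝ) + 1)) ≤
        ((L : ℝ) * D * (M * θ + 2) + 1) * T := by
      have a2 : Real.log ((sc θ (M * T) : ℝ) + 1) ≤ (M * θ + 2) * T := by
        push_cast at h10
        nlinarith
      calc (L : ℝ) * (D * Real.log ((sc θ (M * T) : ℝ) + 1))
          ≤ L * (D * ((M * θ + 2) * T)) := by gcongr
        _ ≤ _ := by nlinarith
    calc η * (L * (D * Real.log ((sc θ (M * T) : ℝ) + 1)))
        ≤ η * (((L : ℝ) * D * (M * θ + 2) + 1) * T) := by gcongr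
      _ = T / 4 := by rw [hηdef]; field_simp
  have h12 : D * Real.log ((sc (3 * M * θ) T : ℝ) + 1) ≤ D * (3 * M * θ * T + 2) := by gcongr
  have h13 : D * Real.log ((sc (2 * M * θ + Λ * m) T : ℝ) + 1) ≤
      D * ((2 * M * θ + Λ * m) * T + 2) := by gcongr
  have h14 : (D : ℝ) * (Λ * m * T) ≤ D * (Λ * (c0 * M * θ + 1) * T) := by gcongr
  rw [h7] at h6
  nlinarith

end Pool.Agent.H10.PS
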