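import Pool.Agent.H67.LX.Split

/-!
MODULE TEa (150 lines).  Good nodes: at all the points `b^(j T) x`, `j ≤ n`, the splitting has the
expected bounds, outside of a set of measure `≤ η`, for all large `T`.

For every one of the eight clauses the set of the bad `x` (for given `T`) has measure `→ 0` (or `0`):
`hs.2.1 (b ^ T)` (`eqv`), `hs.2.2.2` (`idem`; `idem'` by `hE.mp (b ^ T)`), `c.mul` with `b⁻¹ ^ T * b ^ T = 1`
(`inv`), `hup` (`up`), `hdn` composed with the measure preserving `x ↦ b^T x` (`dn`),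
`WP_of_finite` (`H23/DM/Le2`) for `fn (s x)`, `fn (c.D 1 x - s x)` (`MM.fn`).  Then compose with the measure
preserving maps `x ↦ b^(j T) x` for the finitely many `j ≤ n`: if each of the `8 (n + 1)` bad sets has measure
`≤ η / (8 (n + 1))` take `G` = complement of a measurable superset (`toMeasurable`) of the union.
-/

set_option autoImplicit false

open MeasureTheory Filter Matrix
open scoped Topology
open Pool.Agent.H23.DM Pool.Agent.H67.LX

namespace Pool.Agent.H10.PS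

/-- The properties of the splitting used at a node `x`. -/
structure Node {A X ι : Type} [CommGroup A] [MulAction A X] [Fintype ι] [DecidableEq ι]
    [MeasurableSpace X] {μ : Measure X} (c : Coc A X ι μ) (s : X → Matrix ι ι ℝ) (b : A)
    (r δ : ℝ) (T : ℕ) (x : X) : Prop where
  idem : s x * s x = s x
  idem' : s (b ^ T • x) * s (b ^ T • x) = s (b ^ T • x)
  eqv : s (b ^ T • x) * c.D (b ^ T) x = c.D (b ^ T) x * s x
  inv : c.D (b⁻¹ ^ T) (b ^ T • x) * c.D (b ^ T) x = c.D 1 x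
  up : fn (c.D (b ^ T) x * (c.D 1 x - s x)) ≤ Real.exp (r * T)
  dn : fn (c.D (b⁻¹ ^ T) (b ^ T • x) * s (b ^ T • x)) ≤ Real.exp (-δ * T)
  fs : fn (s x) ≤ Real.exp (r * T)
  fs' : fn (c.D 1 x - s x) ≤ Real.exp (r * T)

private theorem tea_null {X : Type} [MeasurableSpace X] {μ : Measure X} {P : ℕ → X → Prop}
    (h : ∀ t, ∀ᵐ x ∂μ, P t x) : WP μ fun t => {x | ¬ P t x} := by
  refine Tendsto.congr' ?_ tendsto_const_nhds
  exact Eventually.of_forall fun t => (ae_iff.1 (h t)).symm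

private theorem tea_union {X : Type} [MeasurableSpace X] {μ : Measure X} {E F : ℕ → Set X}
    (hE : WP μ E) (hF : WP μ F) : WP μ fun t => E t ∪ F t :=
  WP.union hE hF (Eventually.of_forall fun t => by rw [Set.sdiff_self, measure_empty])

private theorem tea_bad {A X ι : Type} [CommGroup A] [MulAction A X] [Fintype ι] [DecidableEq ι]
    [MeasurableSpace X] {μ : Measure X} (hE : Sys A X μ) (c : Coc A X ι μ)
    {s : X → Matrix ι ι ℝ} (hs : Eqv c s) (b : A) {δ : ℝ} (hdn : LeM c s b⁻¹ (-δ))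
    (hup : ∀ ε : ℝ, 0 < ε → LeM c (fun x => c.D 1 x - s x) b ε) {r : ℝ} (hr : 0 < r) :
    WP μ fun T => {x | ¬ Node c s b r δ T x} := by
  have hprob := hE.prob
  have e1 : WP μ fun _ : ℕ => {x | ¬ (s x * s x = s x)} := tea_null fun _ => hs.2.2.2
  have e2 : WP μ fun T : ℕ => {x | ¬ (s (b ^ T • x) * s (b ^ T • x) = s (b ^ T • x))} :=
    tea_null fun T => (hE.mp (b ^ T)).quasiMeasurePreserving.ae hs.2.2.2
  have e3 : WP μ fun T : ℕ => {x | ¬ (s (b ^ T • x) * c.D (b ^ T) x = c.D (b ^ T) x * s x)} :=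
    tea_null fun T => hs.2.1 (b ^ T)
  have e4 : WP μ fun T : ℕ => {x | ¬ (c.D (b⁻¹ ^ T) (b ^ T • x) * c.D (b ^ T) x = c.D 1 x)} := by
    refine tea_null fun T => ?_
    filter_upwards [c.mul (b⁻¹ ^ T) (b ^ T)] with x hx
    rw [← hx, ← mul_pow, inv_mul_cancel, one_pow]
  have e5 : WP μ fun T : ℕ => {x | Real.exp (r * T) < fn (c.D (b ^ T) x * (c.D 1 x - s x))} :=
    hup r hr
  have e6 : WP μ fun T : ℕ => (fun x : X => b ^ T • x) ⁻¹'
      {x | Real.exp (-δ * T) < fn (c.D (b⁻¹ ^ T) x * s x)} := by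
    refine WP.mono hdn (Eventually.of_forall fun T => le_of_eq ?_)
    exact hE.measure_preimage (b ^ T)
      (measurableSet_lt measurable_const (MM.fn ((c.meas (b⁻¹ ^ T)).mul hs.1)))
  have e7 : WP μ fun T : ℕ => {x | Real.exp (r * T) < fn (s x)} := WP_of_finite (MM.fn hs.1) hr
  have e8 : WP μ fun T : ℕ => {x | Real.exp (r * T) < fn (c.D 1 x - s x)} :=
    WP_of_finite (MM.fn ((c.meas 1).sub hs.1)) hr
  have hall := tea_union (tea_union (tea_union e1 e2) (tea_union e3 e4))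
    (tea_union (tea_union e5 e6) (tea_union e7 e8))
  refine WP.mono hall (Eventually.of_forall fun T => measure_mono fun x hx => ?_)
  by_contra h
  simp only [Set.mem_union, not_or] at h
  obtain ⟨⟨⟨h1, h2⟩, h3, h4⟩, ⟨h5, h6⟩, h7, h8⟩ := h
  apply hx
  exact ⟨not_not.1 h1, not_not.1 h2, not_not.1 h3, not_not.1 h4, not_lt.1 h5, not_lt.1 h6,
    not_lt.1 h7, not_lt.1 h8⟩

theorem good_nodes {A X ι : Type} [CommGroup A] [MulAction A X] [Fintype ι] [DecidableEq ι]
    [MeasurableSpace X] {μ : Measure X} (hE : Sys A X μ) (c : Coc A X ι μ)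
    {s : X → Matrix ι ι ℝ} (hs : Eqv c s) (b : A) {δ : ℝ} (hdn : LeM c s b⁻¹ (-δ))
    (hup : ∀ ε : ℝ, 0 < ε → LeM c (fun x => c.D 1 x - s x) b ε) {r : ℝ} (hr : 0 < r) (n : ℕ)
    {η : ℝ} (hη : 0 < η) :
    ∃ T0 : ℕ, ∀ T : ℕ, T0 ≤ T → ∃ G : Set X, MeasurableSet G ∧ μ.real Gᶜ ≤ η ∧
      ∀ x ∈ G, ∀ j ≤ n, Node c s b r δ T (b ^ (j * T) • x) := by
  have hprob := hE.prob
  obtain ⟨B, hB⟩ : ∃ B : ℕ → Set X, B = fun T => {x | ¬ Node c s b r δ T x} := ⟨_, rfl⟩
  have hWP : Tendsto (fun T => μ (B T)) atTop (𝓝 0) := by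
    rw [hB]
    exact tea_bad hE c hs b hdn hup hr
  have hn1 : (0 : ℝ) < (n : ℝ) + 1 := by positivity
  have hpos : 0 < ENNReal.ofReal (η / ((n : ℝ) + 1)) := ENNReal.ofReal_pos.2 (div_pos hη hn1)
  obtain ⟨T0, hT0⟩ := eventually_atTop.1 ((ENNReal.tendsto_nhds_zero.1 hWP) _ hpos)
  refine ⟨T0, fun T hT => ?_⟩
  obtain ⟨M, hM⟩ : ∃ M : Set X, M = toMeasurable μ (B T) := ⟨_, rfl⟩
  have hMm : MeasurableSet M := by
    rw [hM]
    exact measurableSet_toMeasurable μ (B T)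
  have hMμ : μ M ≤ ENNReal.ofReal (η / ((n : ℝ) + 1)) := by
    rw [hM, measure_toMeasurable]
    exact hT0 T hT
  have hpre : ∀ j : ℕ, μ ((fun x : X => b ^ (j * T) • x) ⁻¹' M) ≤
      ENNReal.ofReal (η / ((n : ℝ) + 1)) := fun j => by
    rw [hE.measure_preimage (b ^ (j * T)) hMm]
    exact hMμ
  have hUm : MeasurableSet (⋃ j ∈ Finset.range (n + 1), (fun x : X => b ^ (j * T) • x) ⁻¹' M) :=
    Finset.measurableSet_biUnion _ fun j _ => (hE.mp (b ^ (j * T))).measurable hMm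
  refine ⟨(⋃ j ∈ Finset.range (n + 1), (fun x : X => b ^ (j * T) • x) ⁻¹' M)ᶜ, hUm.compl, ?_, ?_⟩
  · rw [compl_compl]
    have h1 : μ (⋃ j ∈ Finset.range (n + 1), (fun x : X => b ^ (j * T) • x) ⁻¹' M) ≤
        ENNReal.ofReal η := by
      refine (measure_biUnion_finset_le _ _).trans ?_
      refine (Finset.sum_le_sum fun j _ => hpre j).trans ?_
      rw [Finset.sum_const, Finset.card_range, nsmul_eq_mul]
      have h2 : ((n + 1 : ℕ) : ENNReal) = ENNReal.ofReal ((n : ℝ) + 1) := by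
        rw [← ENNReal.ofReal_natCast]
        push_cast
        rfl
      rw [h2, ← ENNReal.ofReal_mul hn1.le]
      refine ENNReal.ofReal_le_ofReal (le_of_eq ?_)
      field_simp
    exact ENNReal.toReal_le_of_le_ofReal hη.le h1
  · intro x hx j hj
    by_contra h
    apply hx
    rw [Set.mem_iUnion₂]
    refine ⟨j, Finset.mem_range.2 (by omega), ?_⟩
    rw [Set.mem_preimage, hM]
    apply subset_toMeasurable μ (B T)
    rw [hB]
    exact h

end Pool.Agent.H10.PS
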