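import Mathlib

/-!
MODULE TEb (110 lines).  Numerical choices for the two-ended closeness (real numbers only).

With `g = exp (T / (n+1))`: `g^(n+1) = exp T`, `K^T = exp (T log K)`, `K1^T = exp (T log K1)`.  All claims are of the
form `const * exp (-(κ T)) ≤ const'` with `κ > 0` (`κ ≥ 1` except in the 2nd and 3rd claim), so they hold for
large `T` (`tendsto`, or `exp (-(κ T)) ≤ 1 / (κ T)`).
* 3rd: `exp (-(δ T)) = exp (-(δ/4 T))^2 * exp (-(δ/2 T))`.
* 5th: `n * (g K1^T exp(-θT) C) (2g)^n = n C 2^n exp (T + T log K1 - θ T) ≤ n C 2^n exp (-T)`.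
* 6th: `4 g C^2 (2g)^n exp (-(3MθT)) ≤ 4 C^2 2^n exp (T - 3MθT)` and `T + MθT ≤ 3MθT - T` as `Mθ ≥ 3`;
  `4 g C^2 exp (-(2MθT)) ≤ 4 C^2 exp (T - 2MθT)`, and `T - 2MθT ≤ -(MθT) - T`.  Each is
  `≤ exp (-(MθT)) / 2` for large `T`.
-/

set_option autoImplicit false

namespace Pool.Agent.H10.PS

open Filter Topology

private theorem teb_ev (A κ c : ℝ) (hκ : 0 < κ) (hc : 0 < c) :
    ∀ᶠ T : ℕ in atTop, A * Real.exp (-(κ * (T : ℝ))) ≤ c := by
  have h1 : Tendsto (fun T : ℕ => κ * (T : ℝ)) atTop atTop :=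
    tendsto_natCast_atTop_atTop.const_mul_atTop hκ
  have h2 : Tendsto (fun T : ℕ => Real.exp (-(κ * (T : ℝ)))) atTop (𝓝 0) :=
    Real.tendsto_exp_neg_atTop_nhds_zero.comp h1
  have h3 : Tendsto (fun T : ℕ => A * Real.exp (-(κ * (T : ℝ)))) atTop (𝓝 (A * 0)) :=
    h2.const_mul A
  rw [mul_zero] at h3
  exact (h3.eventually (gt_mem_nhds hc)).mono fun T hT => le_of_lt hT

private theorem teb_pow {K : ℝ} (hK : 1 ≤ K) (T : ℕ) :
    K ^ T = Real.exp ((T : ℝ) * Real.log K) := by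
  rw [Real.exp_nat_mul, Real.exp_log (by linarith)]

theorem te_num {K K1 C δ δ0 θ : ℝ} {M n : ℕ} (hK : 1 ≤ K) (hK1 : 1 ≤ K1) (hC : 1 ≤ C)
    (hδ : 0 < δ) (hδ0 : 0 < δ0) (hθ : Real.log K + Real.log K1 + 3 ≤ θ) (hM : 1 ≤ M) :
    ∃ T0 : ℕ, ∀ T : ℕ, T0 ≤ T →
      K ^ T * Real.exp (-(θ * T)) ≤ δ0 ∧
      Real.exp (-(δ / 4 * T)) ≤ 1 / 2 ∧
      Real.exp (-(δ * T)) ≤ Real.exp (-(δ / 4 * T)) ^ 2 / 2 ∧
      Real.exp (1 / (n + 1) * T) * K1 ^ T * Real.exp (-(θ * T)) * C ≤ 1 / 16 ∧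
      n * (Real.exp (1 / (n + 1) * T) * K1 ^ T * Real.exp (-(θ * T)) * C) *
        (2 * Real.exp (1 / (n + 1) * T)) ^ n ≤ 1 / 2 ∧
      4 * Real.exp (1 / (n + 1) * T) * C ^ 2 * ((2 * Real.exp (1 / (n + 1) * T)) ^ n *
        Real.exp (-(3 * M * θ * T)) + Real.exp (-(2 * M * θ * T))) ≤ Real.exp (-(M * θ * T)) := by
  classical
  have hlK : 0 ≤ Real.log K := Real.log_nonneg hK
  have hlK1 : 0 ≤ Real.log K1 := Real.log_nonneg hK1
  have hθ3 : 3 ≤ θ := by linarith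
  have hM1 : (1 : ℝ) ≤ M := by exact_mod_cast hM
  have hMθ : 3 ≤ (M : ℝ) * θ := by nlinarith
  have e1 := teb_ev 1 1 δ0 one_pos hδ0
  have e2 := teb_ev 1 (δ / 4) (1 / 2) (by positivity) (by norm_num)
  have e3 := teb_ev 1 (δ / 2) (1 / 2) (by positivity) (by norm_num)
  have e4 := teb_ev C 1 (1 / 16) one_pos (by norm_num)
  have e5 := teb_ev ((n : ℝ) * C * 2 ^ n) 1 (1 / 2) one_pos (by norm_num)
  have e6 := teb_ev (4 * C ^ 2 * 2 ^ n) 1 (1 / 2) one_pos (by norm_num)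
  have e7 := teb_ev (4 * C ^ 2) 1 (1 / 2) one_pos (by norm_num)
  obtain ⟨T0, hT0⟩ := Filter.eventually_atTop.1
    ((((((e1.and e2).and e3).and e4).and e5).and e6).and e7)
  refine ⟨T0, fun T hT => ?_⟩
  obtain ⟨⟨⟨⟨⟨⟨f1, f2⟩, f3⟩, f4⟩, f5⟩, f6⟩, f7⟩ := hT0 T hT
  have hx : (0 : ℝ) ≤ (T : ℝ) := Nat.cast_nonneg T
  generalize hxT : (T : ℝ) = x at *
  have hpK : K ^ T = Real.exp (x * Real.log K) := by rw [teb_pow hK, hxT]
  have hpK1 : K1 ^ T = Real.exp (x * Real.log K1) := by rw [teb_pow hK1, hxT]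
  have hn0 : (0 : ℝ) < (n : ℝ) + 1 := by positivity
  have hg1 : 1 / ((n : ℝ) + 1) * x ≤ x := by
    have : 1 / ((n : ℝ) + 1) ≤ 1 := by
      rw [div_le_one hn0]; linarith [Nat.cast_nonneg (α := ℝ) n]
    nlinarith
  have hgn : Real.exp (1 / ((n : ℝ) + 1) * x) ^ (n + 1) = Real.exp x := by
    rw [← Real.exp_nat_mul]
    congr 1
    push_cast
    field_simp
  have hgl : Real.exp (1 / ((n : ℝ) + 1) * x) ≤ Real.exp x := Real.exp_le_exp.2 hg1
  have hg0 : 0 < Real.exp (1 / ((n : ℝ) + 1) * x) := Real.exp_pos _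
  generalize Real.exp (1 / ((n : ℝ) + 1) * x) = g at *
  have h23 : (2 * g) ^ n * g = 2 ^ n * Real.exp x := by
    rw [mul_pow, mul_assoc, ← pow_succ, hgn]
  refine ⟨?_, ?_, ?_, ?_, ?_, ?_⟩
  · rw [hpK, ← Real.exp_add]
    refine le_trans (Real.exp_le_exp.2 ?_) (by rw [one_mul] at f1; exact f1)
    nlinarith
  · rw [one_mul] at f2; exact f2
  · have : Real.exp (-(δ * x)) = Real.exp (-(δ / 4 * x)) ^ 2 * Real.exp (-(δ / 2 * x)) := by
      rw [← Real.exp_nat_mul, ← Real.exp_add]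
      congr 1
      push_cast
      ring
    rw [this, one_mul] at *
    have h0 : 0 ≤ Real.exp (-(δ / 4 * x)) ^ 2 := by positivity
    nlinarith
  · have h1 : g * K1 ^ T * Real.exp (-(θ * x)) ≤ Real.exp (-(1 * x)) := by
      calc g * K1 ^ T * Real.exp (-(θ * x)) ≤
          Real.exp x * K1 ^ T * Real.exp (-(θ * x)) := by
            have : 0 ≤ K1 ^ T := by positivity
            gcongr
        _ = Real.exp (x + x * Real.log K1 + -(θ * x)) := by
            rw [hpK1, ← Real.exp_add, ← Real.exp_add]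
        _ ≤ Real.exp (-(1 * x)) := by
            apply Real.exp_le_exp.2
            nlinarith
    calc g * K1 ^ T * Real.exp (-(θ * x)) * C ≤ Real.exp (-(1 * x)) * C := by gcongr
      _ = C * Real.exp (-(1 * x)) := by ring
      _ ≤ 1 / 16 := f4
  · have h1 : Real.exp x * K1 ^ T * Real.exp (-(θ * x)) ≤ Real.exp (-(1 * x)) := by
      rw [hpK1, ← Real.exp_add, ← Real.exp_add]
      apply Real.exp_le_exp.2
      nlinarith
    calc (n : ℝ) * (g * K1 ^ T * Real.exp (-(θ * x)) * C) * (2 * g) ^ n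
        = (n : ℝ) * C * ((2 * g) ^ n * g) * (K1 ^ T * Real.exp (-(θ * x))) := by ring
      _ = (n : ℝ) * C * 2 ^ n * (Real.exp x * K1 ^ T * Real.exp (-(θ * x))) := by
          rw [h23]; ring
      _ ≤ (n : ℝ) * C * 2 ^ n * Real.exp (-(1 * x)) := by
          apply mul_le_mul_of_nonneg_left h1
          positivity
      _ ≤ 1 / 2 := f5
  · have a1 : Real.exp x * Real.exp (-(3 * M * θ * x)) ≤
        Real.exp (-(M * θ * x)) * Real.exp (-(1 * x)) := by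
      rw [← Real.exp_add, ← Real.exp_add]
      apply Real.exp_le_exp.2
      nlinarith
    have a2 : Real.exp x * Real.exp (-(2 * M * θ * x)) ≤
        Real.exp (-(M * θ * x)) * Real.exp (-(1 * x)) := by
      rw [← Real.exp_add, ← Real.exp_add]
      apply Real.exp_le_exp.2
      nlinarith
    have hE : 0 ≤ Real.exp (-(M * θ * x)) := (Real.exp_pos _).le
    calc 4 * g * C ^ 2 * ((2 * g) ^ n * Real.exp (-(3 * M * θ * x)) + Real.exp (-(2 * M * θ * x)))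
        = 4 * C ^ 2 * ((2 * g) ^ n * g) * Real.exp (-(3 * M * θ * x)) +
          4 * C ^ 2 * (g * Real.exp (-(2 * M * θ * x))) := by ring
      _ ≤ 4 * C ^ 2 * ((2 * g) ^ n * g) * Real.exp (-(3 * M * θ * x)) +
          4 * C ^ 2 * (Real.exp x * Real.exp (-(2 * M * θ * x))) := by gcongr
      _ = 4 * C ^ 2 * 2 ^ n * (Real.exp x * Real.exp (-(3 * M * θ * x))) +
          4 * C ^ 2 * (Real.exp x * Real.exp (-(2 * M * θ * x))) := by
          rw [h23]; ring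
      _ ≤ 4 * C ^ 2 * 2 ^ n * (Real.exp (-(M * θ * x)) * Real.exp (-(1 * x))) +
          4 * C ^ 2 * (Real.exp (-(M * θ * x)) * Real.exp (-(1 * x))) := by
          gcongr
      _ = Real.exp (-(M * θ * x)) * (4 * C ^ 2 * 2 ^ n * Real.exp (-(1 * x))) +
          Real.exp (-(M * θ * x)) * (4 * C ^ 2 * Real.exp (-(1 * x))) := by ring
      _ ≤ Real.exp (-(M * θ * x)) * (1 / 2) + Real.exp (-(M * θ * x)) * (1 / 2) := by
          gcongr
      _ = Real.exp (-(M * θ * x)) := by ring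

end Pool.Agent.H10.PS
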