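import Pool.Agent.H10.PS.Hyp
import Pool.Agent.H23.DM.La1

/-!
MODULE TEd (130 lines).  Two-ended closeness, deterministic part (linear algebra).

`X j = vn (u j *ᵥ z j)`, `Y j = vn (v j *ᵥ z j)`; `vn (z j) ≤ X j + Y j` (`huv`), so `d j ≤ C (X j + Y j)`;
`vn (z (j+1) - A j *ᵥ z j) ≤ E d j ^ 2 ≤ E ρ C (X j + Y j)`.  Let `q = g E ρ C`.
* `v (j+1) *ᵥ z (j+1) = (A j * v j) *ᵥ (v j *ᵥ z j) + v (j+1) *ᵥ err` (idempotents, `hAv`), so
  `Y (j+1) ≤ g Y j + q (X j + Y j) ≤ (2 g) Y j + q X j`.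
* `u j *ᵥ z j = (B (j+1) * u (j+1)) *ᵥ (u (j+1) *ᵥ z (j+1)) - (B (j+1) * u (j+1)) *ᵥ err`
  (`hB`, `hAu`, idempotent), so `X j ≤ (lam^2/2) X (j+1) + E ρ C (X j + Y j)`, hence
  `X j ≤ lam^2 X (j+1) + 2 q Y j` (`q ≤ 1/16`, `1 / (1 - q) ≤ 2`).
`hyp_lemma` with `2 g`; `Y 0 ≤ g C d 0`, `X n ≤ g C ρ`, `d j ≤ C (X j + Y j)`.
(`fn`, `vn`: `vn_mulVec_le` etc. in H23/DM/La1.)
-/

set_option autoImplicit false

open Matrix Pool.Agent.H23.DM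

namespace Pool.Agent.H10.PS

theorem te_det {ι : Type} [Fintype ι] [DecidableEq ι] {n : ℕ} {A B u v : ℕ → Matrix ι ι ℝ}
    {z : ℕ → ι → ℝ} {d : ℕ → ℝ} {C E ρ g lam : ℝ} (hC : 1 ≤ C) (hE : 0 ≤ E) (hg : 1 ≤ g)
    (hl0 : 0 ≤ lam) (hl : lam ≤ 1 / 2) (hd : ∀ j ≤ n, 0 ≤ d j)
    (hz1 : ∀ j ≤ n, vn (z j) ≤ C * d j) (hz2 : ∀ j ≤ n, d j ≤ C * vn (z j))
    (hρ : ∀ j ≤ n, d j ≤ ρ)
    (herr : ∀ j < n, vn (z (j + 1) - A j *ᵥ z j) ≤ E * d j ^ 2)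
    (huv : ∀ j ≤ n, u j + v j = 1) (hu2 : ∀ j ≤ n, u j * u j = u j)
    (hv2 : ∀ j ≤ n, v j * v j = v j) (hAu : ∀ j < n, A j * u j = u (j + 1) * A j)
    (hAv : ∀ j < n, A j * v j = v (j + 1) * A j) (hB : ∀ j < n, B (j + 1) * A j = 1)
    (hfv : ∀ j < n, fn (A j * v j) ≤ g) (hfu : ∀ j < n, fn (B (j + 1) * u (j + 1)) ≤ lam ^ 2 / 2)
    (hu : ∀ j ≤ n, fn (u j) ≤ g) (hv : ∀ j ≤ n, fn (v j) ≤ g)
    (hq : g * E * ρ * C ≤ 1 / 16) (hqg : n * (g * E * ρ * C) * (2 * g) ^ n ≤ 1 / 2) :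
    ∀ j ≤ n, d j ≤ 4 * g * C ^ 2 * ((2 * g) ^ n * d 0 + lam ^ (n - j) * ρ) := by
  have hρ0 : 0 ≤ ρ := (hd 0 (Nat.zero_le n)).trans (hρ 0 (Nat.zero_le n))
  have hC0 : 0 ≤ C := by linarith
  have hg0 : 0 ≤ g := by linarith
  obtain ⟨q, hqd⟩ : ∃ q : ℝ, q = g * E * ρ * C := ⟨_, rfl⟩
  have hq0 : 0 ≤ q := by rw [hqd]; positivity
  rw [← hqd] at hq hqg
  obtain ⟨X, hX⟩ : ∃ X : ℕ → ℝ, X = fun j => vn (u j *ᵥ z j) := ⟨_, rfl⟩
  obtain ⟨Y, hY⟩ : ∃ Y : ℕ → ℝ, Y = fun j => vn (v j *ᵥ z j) := ⟨_, rfl⟩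
  have hX0 : ∀ j, 0 ≤ X j := fun j => by rw [hX]; exact vn_nonneg _
  have hY0 : ∀ j, 0 ≤ Y j := fun j => by rw [hY]; exact vn_nonneg _
  have hz : ∀ j ≤ n, vn (z j) ≤ X j + Y j := by
    intro j hj
    have h1 : z j = u j *ᵥ z j + v j *ᵥ z j := by
      rw [← Matrix.add_mulVec, huv j hj, Matrix.one_mulVec]
    calc vn (z j) = vn (u j *ᵥ z j + v j *ᵥ z j) := by rw [← h1]
      _ ≤ X j + Y j := by rw [hX, hY]; exact vn_add_le _ _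
  have hdj : ∀ j ≤ n, d j ≤ C * (X j + Y j) := fun j hj =>
    (hz2 j hj).trans (mul_le_mul_of_nonneg_left (hz j hj) hC0)
  have he : ∀ j < n, g * vn (z (j + 1) - A j *ᵥ z j) ≤ q * (X j + Y j) := by
    intro j hj
    have h1 : E * d j ^ 2 ≤ E * (ρ * (C * (X j + Y j))) := by
      refine mul_le_mul_of_nonneg_left ?_ hE
      rw [sq]
      exact mul_le_mul (hρ j hj.le) (hdj j hj.le) (hd j hj.le) hρ0
    have h2 := mul_le_mul_of_nonneg_left ((herr j hj).trans h1) hg0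
    rw [hqd]
    linarith
  have s1 : ∀ j < n, X j ≤ lam ^ 2 * X (j + 1) + 2 * q * Y j := by
    intro j hj
    have h1 : u j *ᵥ z j = (B (j + 1) * u (j + 1)) *ᵥ (u (j + 1) *ᵥ z (j + 1)) +
        -((B (j + 1) * u (j + 1)) *ᵥ (z (j + 1) - A j *ᵥ z j)) := by
      have e1 : (B (j + 1) * u (j + 1)) *ᵥ (u (j + 1) *ᵥ z (j + 1)) =
          (B (j + 1) * u (j + 1)) *ᵥ z (j + 1) := by
        rw [Matrix.mulVec_mulVec, Matrix.mul_assoc, hu2 (j + 1) hj]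
      have e2 : (B (j + 1) * u (j + 1)) *ᵥ (A j *ᵥ z j) = u j *ᵥ z j := by
        rw [Matrix.mulVec_mulVec, Matrix.mul_assoc, ← hAu j hj, ← Matrix.mul_assoc, hB j hj,
          Matrix.one_mul]
      rw [e1, Matrix.mulVec_sub, e2]
      abel
    have h2 : X j ≤ lam ^ 2 / 2 * X (j + 1) + lam ^ 2 / 2 * vn (z (j + 1) - A j *ᵥ z j) := by
      have h3 : X j = vn (u j *ᵥ z j) := by rw [hX]
      have h4 : X (j + 1) = vn (u (j + 1) *ᵥ z (j + 1)) := by rw [hX]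
      rw [h3, h1, h4]
      refine (vn_add_le _ _).trans (add_le_add ?_ ?_)
      · exact (vn_mulVec_le _ _).trans (mul_le_mul_of_nonneg_right (hfu j hj) (vn_nonneg _))
      · rw [vn_neg]
        exact (vn_mulVec_le _ _).trans (mul_le_mul_of_nonneg_right (hfu j hj) (vn_nonneg _))
    have h5 : lam ^ 2 / 2 * vn (z (j + 1) - A j *ᵥ z j) ≤ g * vn (z (j + 1) - A j *ᵥ z j) := by
      refine mul_le_mul_of_nonneg_right ?_ (vn_nonneg _)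
      nlinarith
    have h6 := he j hj
    have h7 : (1 - q) * X j ≤ lam ^ 2 / 2 * X (j + 1) + q * Y j := by linarith
    have h8 : 0 ≤ lam ^ 2 / 2 * X (j + 1) := mul_nonneg (by positivity) (hX0 _)
    have h9 : q * X j ≤ 1 / 16 * X j := mul_le_mul_of_nonneg_right hq (hX0 j)
    have h10 : 0 ≤ q * Y j := mul_nonneg hq0 (hY0 j)
    linarith
  have s2 : ∀ j < n, Y (j + 1) ≤ 2 * g * Y j + q * X j := by
    intro j hj
    have h1 : v (j + 1) *ᵥ z (j + 1) = (A j * v j) *ᵥ (v j *ᵥ z j) +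
        v (j + 1) *ᵥ (z (j + 1) - A j *ᵥ z j) := by
      have e1 : (A j * v j) *ᵥ (v j *ᵥ z j) = v (j + 1) *ᵥ (A j *ᵥ z j) := by
        rw [Matrix.mulVec_mulVec, Matrix.mulVec_mulVec, Matrix.mul_assoc, hv2 j hj.le, hAv j hj]
      rw [e1, Matrix.mulVec_sub]
      abel
    have h2 : Y (j + 1) ≤ g * Y j + g * vn (z (j + 1) - A j *ᵥ z j) := by
      have h3 : Y (j + 1) = vn (v (j + 1) *ᵥ z (j + 1)) := by rw [hY]
      have h4 : Y j = vn (v j *ᵥ z j) := by rw [hY]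
      rw [h3, h1, h4]
      refine (vn_add_le _ _).trans (add_le_add ?_ ?_)
      · exact (vn_mulVec_le _ _).trans (mul_le_mul_of_nonneg_right (hfv j hj) (vn_nonneg _))
      · exact (vn_mulVec_le _ _).trans (mul_le_mul_of_nonneg_right (hv (j + 1) hj) (vn_nonneg _))
    have h6 := he j hj
    have h7 : q * Y j ≤ g * Y j := mul_le_mul_of_nonneg_right (by linarith) (hY0 j)
    linarith
  intro j hj
  have hmain := hyp_lemma (n := n) (X := X) (Y := Y) (q := q) (g := 2 * g) (lam := lam)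
    (fun j _ => hX0 j) (fun j _ => hY0 j) s1 s2 (by linarith) hl0 hl hq0 (by linarith) hqg j hj
  have hYz : Y 0 ≤ g * C * d 0 := by
    rw [hY]
    have h1 := (vn_mulVec_le (v 0) (z 0)).trans
      (mul_le_mul (hv 0 (Nat.zero_le n)) (hz1 0 (Nat.zero_le n)) (vn_nonneg _) hg0)
    linarith
  have hXn : X n ≤ g * C * ρ := by
    rw [hX]
    have h1 := (vn_mulVec_le (u n) (z n)).trans
      (mul_le_mul (hu n le_rfl) (hz1 n le_rfl) (vn_nonneg _) hg0)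
    have h2 := mul_le_mul_of_nonneg_left (hρ n le_rfl) (mul_nonneg hg0 hC0)
    linarith
  have h1 : (2 * g) ^ n * Y 0 ≤ (2 * g) ^ n * (g * C * d 0) :=
    mul_le_mul_of_nonneg_left hYz (by positivity)
  have h2 : lam ^ (n - j) * X n ≤ lam ^ (n - j) * (g * C * ρ) :=
    mul_le_mul_of_nonneg_left hXn (by positivity)
  have h3 : X j + Y j ≤ 4 * ((2 * g) ^ n * (g * C * d 0) + lam ^ (n - j) * (g * C * ρ)) := by
    linarith
  have h4 := (hdj j hj).trans (mul_le_mul_of_nonneg_left h3 hC0)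
  calc d j ≤ C * (4 * ((2 * g) ^ n * (g * C * d 0) + lam ^ (n - j) * (g * C * ρ))) := h4
    _ = 4 * g * C ^ 2 * ((2 * g) ^ n * d 0 + lam ^ (n - j) * ρ) := by ring

end Pool.Agent.H10.PS
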