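import Pool.Agent.H10.PS.Alg

/-!
MODULE Tay (150 lines).  Lipschitz and Taylor constants along the powers of `b`.

`al d.b` takes finitely many values (`al_fin`), so `lip`, `tay`, `bdd`, `cmp` give common constants
`K, C0, B, δ0`.  `al (b^(t+1)) f = al b (b^t • f) * al (b^t) f` (`pow_succ'`, `al_mul`, `mul_smul`).
* `lip` by induction.
* `tay` by induction: let `m_t = al (b^t) f • m`, `e t = dist`, `J_t = jv m_t m'_t`, `D_t = DJ (al (b^t) f) m`.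
  `J_{t+1} - D_{t+1} J_0 = (J_{t+1} - DJ (al b ..) m_t J_t) + DJ (al b ..) m_t (J_t - D_t J_0)`, so with
  `a_t = vn (J_t - D_t J_0)`: `a_{t+1} ≤ C0 e_t^(r+1) + B a_t ≤ C0 K^(t (r+1)) e_0^(r+1) + B a_t` (`e_t ≤ K^t e_0 ≤ δ`), and
  `a_t ≤ K1^t e_0^(r+1)` with `K1 = C0 + B + K^(r+1) + 1` or larger (`a_0 = 0` by `one`: `al 1 f = 1` from
  `al_K`).  Check: `C0 K^(t(r+1)) + B K1^t ≤ K1^(t+1)` if `K1 ≥ C0 + B` and `K1 ≥ K^(r+1)`.
* replace `δ` by the minimum with `1` and the `δ` of `cmp`, `C` by the maximum with `1`.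
-/

set_option autoImplicit false

open MeasureTheory Matrix Pool.Agent.H23.DM

namespace Pool.Agent.H10.PS

namespace Dat

variable {p : ℕ} [Fact p.Prime] {G F M Γ X : Type} [Group G] [Group Γ] [MulAction G F]
  [MulAction Γ M] [MulAction G X] [MeasurableSpace X] [TopologicalSpace X] {D : ℕ}

/-- Constants for the powers of `b`. -/
structure TC (d : Dat p G F M Γ X D) {r : ℕ} (J : d.Jet r) (K K1 C δ : ℝ) : Prop where
  hK : 1 ≤ K
  hK1 : 1 ≤ K1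
  hC : 1 ≤ C
  hδ : 0 < δ
  hδ1 : δ ≤ 1
  lip : ∀ (t : ℕ) (f : F) (m m' : M), dist (d.ψ (d.al (d.b ^ t) f • m))
    (d.ψ (d.al (d.b ^ t) f • m')) ≤ K ^ t * dist (d.ψ m) (d.ψ m')
  tay : ∀ (t : ℕ) (f : F) (m m' : M), K ^ t * dist (d.ψ m) (d.ψ m') ≤ δ →
    vn (J.jv (d.al (d.b ^ t) f • m) (d.al (d.b ^ t) f • m') -
      J.DJ (d.al (d.b ^ t) f) m *ᵥ J.jv m m') ≤ K1 ^ t * dist (d.ψ m) (d.ψ m') ^ (r + 1)
  cmp : ∀ m m', dist (d.ψ m) (d.ψ m') ≤ δ → vn (J.jv m m') ≤ C * dist (d.ψ m) (d.ψ m') ∧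
    dist (d.ψ m) (d.ψ m') ≤ C * vn (J.P1 *ᵥ J.jv m m') ∧
    vn (J.jv m m' - J.P1 *ᵥ J.jv m m') ≤ C * dist (d.ψ m) (d.ψ m') ^ 2

private theorem Tay_one (d : Dat p G F M Γ X D) (f : F) : d.al (d.b ^ 0) f = 1 := by
  rw [pow_zero]
  exact d.al_K 1 (one_mem _) f

private theorem Tay_succ (d : Dat p G F M Γ X D) (t : ℕ) (f : F) :
    d.al (d.b ^ (t + 1)) f = d.al d.b (d.b ^ t • f) * d.al (d.b ^ t) f := by
  rw [pow_succ', d.al_mul]

/-- a common bound on a finite set -/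
private theorem Tay_bd {A : Type} {s : Set A} (hs : s.Finite) (L : A → ℝ) :
    ∃ K : ℝ, 1 ≤ K ∧ ∀ a ∈ s, L a ≤ K := by
  obtain ⟨K, hK⟩ := (hs.image L).bddAbove
  refine ⟨max K 1, le_max_right _ _, fun a ha => ?_⟩
  exact (hK (Set.mem_image_of_mem L ha)).trans (le_max_left _ _)

private theorem Tay_lip (d : Dat p G F M Γ X D) {K : ℝ} (hK : 1 ≤ K)
    (h : ∀ (f : F) (m m' : M), dist (d.ψ (d.al d.b f • m)) (d.ψ (d.al d.b f • m')) ≤
      K * dist (d.ψ m) (d.ψ m')) (t : ℕ) : ∀ (f : F) (m m' : M),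
    dist (d.ψ (d.al (d.b ^ t) f • m)) (d.ψ (d.al (d.b ^ t) f • m')) ≤
      K ^ t * dist (d.ψ m) (d.ψ m') := by
  induction t with
  | zero =>
    intro f m m'
    rw [Tay_one, one_smul, one_smul, pow_zero, one_mul]
  | succ t ih =>
    intro f m m'
    rw [Tay_succ, mul_smul, mul_smul]
    calc dist (d.ψ (d.al d.b (d.b ^ t • f) • d.al (d.b ^ t) f • m))
          (d.ψ (d.al d.b (d.b ^ t • f) • d.al (d.b ^ t) f • m'))
        ≤ K * dist (d.ψ (d.al (d.b ^ t) f • m)) (d.ψ (d.al (d.b ^ t) f • m')) := h _ _ _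
      _ ≤ K * (K ^ t * dist (d.ψ m) (d.ψ m')) :=
          mul_le_mul_of_nonneg_left (ih f m m') (by linarith)
      _ = K ^ (t + 1) * dist (d.ψ m) (d.ψ m') := by ring

private theorem Tay_tay (d : Dat p G F M Γ X D) {r : ℕ} (J : d.Jet r) {K C0 B K1 δ : ℝ}
    (hK : 1 ≤ K) (hC0 : 0 ≤ C0) (hB : 0 ≤ B) (hK1 : C0 + B ≤ K1) (hK1' : K ^ (r + 1) ≤ K1)
    (hl : ∀ (f : F) (m m' : M), dist (d.ψ (d.al d.b f • m)) (d.ψ (d.al d.b f • m')) ≤
      K * dist (d.ψ m) (d.ψ m'))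
    (h1 : ∀ (f : F) (m m' : M), dist (d.ψ m) (d.ψ m') ≤ δ →
      vn (J.jv (d.al d.b f • m) (d.al d.b f • m') - J.DJ (d.al d.b f) m *ᵥ J.jv m m') ≤
        C0 * dist (d.ψ m) (d.ψ m') ^ (r + 1))
    (h2 : ∀ (f : F) (m : M), fn (J.DJ (d.al d.b f) m) ≤ B) (t : ℕ) : ∀ (f : F) (m m' : M),
    K ^ t * dist (d.ψ m) (d.ψ m') ≤ δ →
    vn (J.jv (d.al (d.b ^ t) f • m) (d.al (d.b ^ t) f • m') -
      J.DJ (d.al (d.b ^ t) f) m *ᵥ J.jv m m') ≤ K1 ^ t * dist (d.ψ m) (d.ψ m') ^ (r + 1) := by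
  have hK10 : 0 ≤ K1 := by linarith
  induction t with
  | zero =>
    intro f m m' _
    rw [Tay_one, one_smul, one_smul, J.one, Matrix.one_mulVec, sub_self, pow_zero, one_mul,
      vn_eq_zero.2 rfl]
    positivity
  | succ t ih =>
    intro f m m' h
    have e0 : 0 ≤ dist (d.ψ m) (d.ψ m') := dist_nonneg
    have hKt : 0 ≤ K ^ t := by positivity
    have h3 : K ^ t * dist (d.ψ m) (d.ψ m') ≤ δ := by
      refine le_trans ?_ h
      rw [pow_succ]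
      have : 0 ≤ K ^ t * dist (d.ψ m) (d.ψ m') := mul_nonneg hKt e0
      nlinarith
    have hlt := Tay_lip d hK hl t f m m'
    have hih := ih f m m' h3
    have ht1 := h1 (d.b ^ t • f) (d.al (d.b ^ t) f • m) (d.al (d.b ^ t) f • m') (hlt.trans h3)
    have ht2 := h2 (d.b ^ t • f) (d.al (d.b ^ t) f • m)
    rw [Tay_succ, mul_smul, mul_smul, J.mul]
    set γ := d.al d.b (d.b ^ t • f)
    set γ' := d.al (d.b ^ t) f
    set e := dist (d.ψ m) (d.ψ m')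
    have key : J.jv (γ • γ' • m) (γ • γ' • m') - (J.DJ γ (γ' • m) * J.DJ γ' m) *ᵥ J.jv m m' =
        (J.jv (γ • γ' • m) (γ • γ' • m') - J.DJ γ (γ' • m) *ᵥ J.jv (γ' • m) (γ' • m')) +
          J.DJ γ (γ' • m) *ᵥ (J.jv (γ' • m) (γ' • m') - J.DJ γ' m *ᵥ J.jv m m') := by
      rw [Matrix.mulVec_sub, Matrix.mulVec_mulVec]
      abel
    rw [key]
    have b1 : C0 * dist (d.ψ (γ' • m)) (d.ψ (γ' • m')) ^ (r + 1) ≤ C0 * (K1 ^ t * e ^ (r + 1)) := by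
      refine mul_le_mul_of_nonneg_left ?_ hC0
      calc dist (d.ψ (γ' • m)) (d.ψ (γ' • m')) ^ (r + 1) ≤ (K ^ t * e) ^ (r + 1) :=
            pow_le_pow_left₀ dist_nonneg hlt _
        _ = (K ^ (r + 1)) ^ t * e ^ (r + 1) := by rw [mul_pow, ← pow_mul, ← pow_mul, mul_comm t]
        _ ≤ K1 ^ t * e ^ (r + 1) := by
            refine mul_le_mul_of_nonneg_right ?_ (by positivity)
            exact pow_le_pow_left₀ (by positivity) hK1' _
    have b2 : fn (J.DJ γ (γ' • m)) * vn (J.jv (γ' • m) (γ' • m') - J.DJ γ' m *ᵥ J.jv m m') ≤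
        B * (K1 ^ t * e ^ (r + 1)) := mul_le_mul ht2 hih (vn_nonneg _) hB
    have b3 : 0 ≤ K1 ^ t * e ^ (r + 1) := by positivity
    calc _ ≤ vn (J.jv (γ • γ' • m) (γ • γ' • m') - J.DJ γ (γ' • m) *ᵥ J.jv (γ' • m) (γ' • m')) +
          vn (J.DJ γ (γ' • m) *ᵥ (J.jv (γ' • m) (γ' • m') - J.DJ γ' m *ᵥ J.jv m m')) :=
          vn_add_le _ _
      _ ≤ C0 * (K1 ^ t * e ^ (r + 1)) + B * (K1 ^ t * e ^ (r + 1)) :=
          add_le_add (ht1.trans b1) ((vn_mulVec_le _ _).trans b2)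
      _ = (C0 + B) * (K1 ^ t * e ^ (r + 1)) := by ring
      _ ≤ K1 * (K1 ^ t * e ^ (r + 1)) := mul_le_mul_of_nonneg_right hK1 b3
      _ = K1 ^ (t + 1) * e ^ (r + 1) := by ring

theorem exists_TC (d : Dat p G F M Γ X D) {r : ℕ} (J : d.Jet r) :
    ∃ K K1 C δ : ℝ, d.TC J K K1 C δ := by
  have hfin := d.al_fin d.b
  choose L hL using d.lip
  choose C0 δ0 hδ0 hC0 using J.tay
  choose B hB using J.bdd
  obtain ⟨Cc, δc, hδc, hcmp⟩ := J.cmp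
  obtain ⟨K, hK, hKL⟩ := Tay_bd hfin L
  obtain ⟨C1, hC1, hC1C⟩ := Tay_bd hfin C0
  obtain ⟨B1, hB1, hB1B⟩ := Tay_bd hfin B
  obtain ⟨E, hE, hEδ⟩ := Tay_bd hfin fun γ => (δ0 γ)⁻¹
  have hmem : ∀ f : F, d.al d.b f ∈ Set.range (d.al d.b) := fun f => ⟨f, rfl⟩
  have hl : ∀ (f : F) (m m' : M), dist (d.ψ (d.al d.b f • m)) (d.ψ (d.al d.b f • m')) ≤
      K * dist (d.ψ m) (d.ψ m') := fun f m m' =>
    (hL _ m m').trans (mul_le_mul_of_nonneg_right (hKL _ (hmem f)) dist_nonneg)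
  have hEinv : ∀ f : F, E⁻¹ ≤ δ0 (d.al d.b f) := fun f => by
    have h1 := hEδ _ (hmem f)
    have h2 := hδ0 (d.al d.b f)
    exact inv_le_of_inv_le₀ h2 h1
  have hδp : 0 < min (min E⁻¹ δc) 1 :=
    lt_min (lt_min (inv_pos.2 (by linarith)) hδc) one_pos
  have h1 : ∀ (f : F) (m m' : M), dist (d.ψ m) (d.ψ m') ≤ min (min E⁻¹ δc) 1 →
      vn (J.jv (d.al d.b f • m) (d.al d.b f • m') - J.DJ (d.al d.b f) m *ᵥ J.jv m m') ≤
        C1 * dist (d.ψ m) (d.ψ m') ^ (r + 1) := fun f m m' h =>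
    (hC0 _ m m' (h.trans (((min_le_left _ _).trans (min_le_left _ _)).trans (hEinv f)))).trans
      (mul_le_mul_of_nonneg_right (hC1C _ (hmem f)) (by positivity))
  have h2 : ∀ (f : F) (m : M), fn (J.DJ (d.al d.b f) m) ≤ B1 := fun f m =>
    (hB _ m).trans (hB1B _ (hmem f))
  have hKr : 1 ≤ K ^ (r + 1) := one_le_pow₀ hK
  refine ⟨K, C1 + B1 + K ^ (r + 1), max Cc 1, min (min E⁻¹ δc) 1, ?_⟩
  refine ⟨hK, by linarith, le_max_right _ _, hδp, min_le_right _ _, Tay_lip d hK hl,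
    Tay_tay d J hK (by linarith) (by linarith) (by linarith) (by linarith) hl h1 h2, ?_⟩
  intro m m' h
  obtain ⟨c1, c2, c3⟩ := hcmp m m' (h.trans ((min_le_left _ _).trans (min_le_right _ _)))
  have e0 : 0 ≤ dist (d.ψ m) (d.ψ m') := dist_nonneg
  refine ⟨c1.trans (mul_le_mul_of_nonneg_right (le_max_left _ _) e0),
    c2.trans (mul_le_mul_of_nonneg_right (le_max_left _ _) (vn_nonneg _)),
    c3.trans (mul_le_mul_of_nonneg_right (le_max_left _ _) (by positivity))⟩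

end Dat

end Pool.Agent.H10.PS
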