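import Pool.Agent.H10.PS.TEa
import Pool.Agent.H10.PS.TEb
import Pool.Agent.H10.PS.TEd
import Pool.Agent.H10.PS.Tay

/-!
MODULE TEc (helper1).  The two-ended closeness for a `Dat`.

`TC` from `exists_TC` (`K, K1, C, δ0`); `split2 hE c bA` gives `s, δ`; `Λ = log K`, `c0 = 8 / δ`,
`θ0 = log K + log K1 + 3`; `C' = C * (fn J.P1 + 1)`, `r = 1 / (n + 1)`, `T0` from `good_nodes`, `te_num` (with `C'`); `G = Gx ×ˢ univ`;
`l` from `al_same (n * T)`.  For `ω = (y, z)`, `ω' = (y', z')` with `y ∈ Gx` put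
`x_j = b^(jT) • y`, `m'_j = fb (b^(jT) • y') = al (b^(jT)) (bs y) • fb y'` (`fb_smul`, `al_same`), `d_j = dist (ψ (fb x_j)) (ψ m'_j)`
(`dist_pi_le_iff`, `E.τ^[jT] ω = (b^(jT) • y, z)`).  `m'_(j+1) = al (b^T) (bs x_j) • m'_j` (`al_mul`, `bs_smul`).
`te_det` with `z_j = J.jv (fb x_j) m'_j`, `A_j = c.D (bA^T) x_j = DJ (al (b^T) (bs x_j)) (fb x_j)` (`Cj.coc`, `Cj.hb`; `aG (bA^t) = b^t`
by induction), `B_(j+1) = c.D (bA⁻¹^T) x_(j+1)`, `u_j = s x_j`, `v_j = 1 - s x_j` (`c.D 1 x = 1`: `Cj.one`, `al_K`, `J.one`),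
`E = K1^T`, `ρ = exp (-(θT))`, `g = exp (rT)`, `lam = exp (-(δ/4 T))`: the hypotheses are `Node` and `TC`.
Let `c' = ⌈c0 M θ⌉`.  For `j ≤ n - c'` with `c' ≤ n`: `lam^(n-j) ≤ lam^c' ≤ exp (-(2MθT))`, `ρ ≤ 1`.  For `j ≥ n - c'`: by the
Lipschitz bound `K^((j-(n-c'))T) ≤ K^(c'T)` from the node `n - c'` (third hypothesis of `TE`).
-/

set_option autoImplicit false

open MeasureTheory Filter Matrix
open scoped Topology
open Pool.Agent.H23.DM Pool.Agent.H67.LX H31.BE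

namespace Pool.Agent.H10.PS

namespace Dat

variable {p : ℕ} [Fact p.Prime] {G F M Γ X : Type} [Group G] [Group Γ] [MulAction G F]
  [MulAction Γ M] [MulAction G X] [MeasurableSpace X] [TopologicalSpace X] {D : ℕ}

private theorem tec_one (d : Dat p G F M Γ X D) (f : F) : d.al 1 f = 1 :=
  d.al_K 1 (one_mem _) f

private theorem tec_pow (d : Dat p G F M Γ X D) {r : ℕ} {J : d.Jet r} {μ : Measure X} {A : Type}
    [CommGroup A] [MulAction A X] {aG : A → G} {bA : A} {c : Coc A X J.ι μ}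
    (hc : d.Cj J aG c bA) (t : ℕ) : aG (bA ^ t) = d.b ^ t := by
  induction t with
  | zero => rw [pow_zero, pow_zero, hc.one]
  | succ t ih => rw [pow_succ, pow_succ, hc.mul, ih, hc.hb]

private theorem tec_smul (d : Dat p G F M Γ X D) {r : ℕ} {J : d.Jet r} {μ : Measure X} {A : Type}
    [CommGroup A] [MulAction A X] {aG : A → G} {bA : A} {c : Coc A X J.ι μ}
    (hc : d.Cj J aG c bA) (t : ℕ) (x : X) : bA ^ t • x = d.b ^ t • x := by
  rw [hc.act, tec_pow d hc]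

private theorem tec_D (d : Dat p G F M Γ X D) {r : ℕ} {J : d.Jet r} {μ : Measure X} {A : Type}
    [CommGroup A] [MulAction A X] {aG : A → G} {bA : A} {c : Coc A X J.ι μ}
    (hc : d.Cj J aG c bA) (t : ℕ) (x : X) :
    c.D (bA ^ t) x = J.DJ (d.al (d.b ^ t) (d.bs x)) (d.fb x) := by
  rw [hc.coc, tec_pow d hc]

private theorem tec_D1 (d : Dat p G F M Γ X D) {r : ℕ} {J : d.Jet r} {μ : Measure X} {A : Type}
    [CommGroup A] [MulAction A X] {aG : A → G} {bA : A} {c : Coc A X J.ι μ}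
    (hc : d.Cj J aG c bA) (x : X) : c.D 1 x = 1 := by
  rw [hc.coc, hc.one, tec_one, J.one]

/-- iterates of the dynamics -/
private theorem tec_iter (d : Dat p G F M Γ X D) {Z : Type} {τ : X × Z → X × Z}
    (h : ∀ ω, τ ω = (d.b • ω.1, ω.2)) (t : ℕ) (ω : X × Z) : τ^[t] ω = (d.b ^ t • ω.1, ω.2) := by
  induction t with
  | zero => rw [Function.iterate_zero, id, pow_zero, one_smul]
  | succ t ih => rw [Function.iterate_succ_apply', ih, h, pow_succ', mul_smul]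

/-- exponential estimates for the nodes near the end -/
private theorem tec_end {K θ dd da : ℝ} {M cc k T : ℕ} (hK : 1 ≤ K) (hθ : 0 ≤ θ)
    (hda : 0 ≤ da) (hk : k ≤ cc)
    (h1 : dd ≤ K ^ (k * T) * da)
    (h2 : da ≤ Real.exp (-((2 * M * θ + Real.log K * cc) * T))) :
    dd ≤ Real.exp (-(M * θ * T)) := by
  have hK0 : 0 < K := by linarith
  have h3 : K ^ (k * T) ≤ K ^ (cc * T) := pow_le_pow_right₀ hK (Nat.mul_le_mul_right T hk)
  have h4 : K ^ (cc * T) = Real.exp (Real.log K * cc * T) := by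
    rw [← Real.exp_log (pow_pos hK0 (cc * T)), Real.log_pow]
    congr 1
    push_cast
    ring
  have h5 : 0 < K ^ (cc * T) := pow_pos hK0 _
  calc dd ≤ K ^ (k * T) * da := h1
    _ ≤ K ^ (cc * T) * Real.exp (-((2 * M * θ + Real.log K * cc) * T)) :=
        mul_le_mul h3 h2 hda h5.le
    _ = Real.exp (-(2 * M * θ * T)) := by
        rw [h4, ← Real.exp_add]
        congr 1
        ring
    _ ≤ Real.exp (-(M * θ * T)) := by
        apply Real.exp_le_exp.2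
        have h6 : 0 ≤ (M : ℝ) * θ * T := by positivity
        linarith

/-- the exponential factor for the nodes far from the end -/
private theorem tec_far {δ θ : ℝ} {M cc k T : ℕ} (hδ : 0 < δ)
    (hc : 8 / δ * M * θ ≤ cc) (hk : cc ≤ k) :
    Real.exp (-(δ / 4 * T)) ^ k ≤ Real.exp (-(2 * M * θ * T)) := by
  rw [← Real.exp_nat_mul]
  apply Real.exp_le_exp.2
  have h1 : (cc : ℝ) ≤ k := Nat.cast_le.2 hk
  have h2 : 8 / δ * M * θ * (δ / 4 * T) ≤ k * (δ / 4 * T) :=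
    mul_le_mul_of_nonneg_right (hc.trans h1) (by positivity)
  have h3 : 8 / δ * M * θ * (δ / 4 * T) = 2 * M * θ * T := by
    field_simp
    ring
  linarith

theorem exists_TE (d : Dat p G F M Γ X D) {μ : Measure X} {A : Type} [CommGroup A]
    [MulAction A X] (hE : Sys A X μ) (J : d.Jet 1) {aG : A → G} {bA : A} (c : Coc A X J.ι μ)
    (hc : d.Cj J aG c bA) {Z : Type} [MeasurableSpace Z] {ν : Measure Z}
    (hν : IsProbabilityMeasure ν) {S : Z → ℤ_[p]} (E : ESys p (X × Z) (μ.prod ν) D)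
    (h1 : ∀ ω, E.τ ω = (d.b • ω.1, ω.2)) (h3 : ∀ ω, E.ψ ω = d.ψ (d.fb ω.1))
    (h4 : ∀ l ω ω', E.Ξ.ξ l ω = E.Ξ.ξ l ω' → ∃ k ∈ d.K l,
        d.ud (-(S ω'.2)) • d.bs ω'.1 = k • d.ud (-(S ω.2)) • d.bs ω.1) :
    ∃ Λ c0 θ0 : ℝ, 0 ≤ Λ ∧ 0 ≤ c0 ∧ ∀ θ : ℝ, θ0 ≤ θ → ∀ M n : ℕ, 1 ≤ M → E.TE Λ c0 θ M n := by
  classical
  have hprob := hE.prob
  obtain ⟨K, K1, C, δ0, hTC⟩ := d.exists_TC J
  obtain ⟨s, hs, ⟨δ, hδ, hdn⟩, hup⟩ := split2 hE c bA
  have hK0 : 0 < K := by have := hTC.hK; linarith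
  have hlK : 0 ≤ Real.log K := Real.log_nonneg hTC.hK
  have hlK1 : 0 ≤ Real.log K1 := Real.log_nonneg hTC.hK1
  have hC0 : 0 ≤ C := by have := hTC.hC; linarith
  refine ⟨Real.log K, 8 / δ, Real.log K + Real.log K1 + 3, hlK, by positivity, ?_⟩
  intro θ hθ m0 n hM η hη
  have hθ0 : 0 ≤ θ := by linarith
  set C' : ℝ := C * (fn J.P1 + 1) with hC'
  have hP1 : 0 ≤ fn J.P1 := fn_nonneg _
  have hCC' : C ≤ C' := by rw [hC']; nlinarith
  have hC'1 : 1 ≤ C' := hTC.hC.trans hCC'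
  have hr : (0 : ℝ) < 1 / (n + 1) := by positivity
  obtain ⟨T1, hT1⟩ := good_nodes hE c hs bA hdn hup hr n hη
  obtain ⟨T2, hT2⟩ := te_num (K := K) (K1 := K1) (C := C') (δ := δ) (δ0 := δ0) (θ := θ) (M := m0)
    (n := n) hTC.hK hTC.hK1 hC'1 hδ hTC.hδ hθ hM
  refine ⟨max T1 T2, fun T hT => ?_⟩
  obtain ⟨Gx, hGm, hGμ, hnode⟩ := hT1 T ((le_max_left _ _).trans hT)
  obtain ⟨n1, n2, n3, n4, n5, n6⟩ := hT2 T ((le_max_right _ _).trans hT)
  obtain ⟨l, hl⟩ := d.al_same (n * T)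
  refine ⟨Gx ×ˢ Set.univ, hGm.prod MeasurableSet.univ, ?_, l, ?_⟩
  · have e1 : (Gx ×ˢ (Set.univ : Set Z))ᶜ = Gxᶜ ×ˢ Set.univ := by
      ext ω
      simp
    rw [e1, measureReal_prod_prod]
    simpa using hGμ
  rintro ⟨y, z⟩ hyG ⟨y', z'⟩ hξ hy1 hy2 hy3
  have hy : y ∈ Gx := hyG.1
  have hsame : ∀ t ≤ n * T, d.al (d.b ^ t) (d.bs y') = d.al (d.b ^ t) (d.bs y) :=
    hl y y' (S z) (S z') (h4 l _ _ hξ)
  -- the points
  obtain ⟨xx, hxx⟩ : ∃ xx : ℕ → X, ∀ j, xx j = d.b ^ (j * T) • y := ⟨_, fun _ => rfl⟩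
  obtain ⟨mm, hmm⟩ : ∃ mm : ℕ → M, ∀ j, mm j = d.al (d.b ^ (j * T)) (d.bs y) • d.fb y' :=
    ⟨_, fun _ => rfl⟩
  obtain ⟨dd, hdd⟩ : ∃ dd : ℕ → ℝ, ∀ j, dd j = dist (d.ψ (d.fb (xx j))) (d.ψ (mm j)) :=
    ⟨_, fun _ => rfl⟩
  have hdd0 : ∀ j, 0 ≤ dd j := fun j => by rw [hdd]; exact dist_nonneg
  have hgen1 : ∀ a k, xx (a + k) = d.b ^ (k * T) • xx a := by
    intro a k
    rw [hxx, hxx, add_mul, add_comm (a * T), pow_add, mul_smul]
  have hgen2 : ∀ a k, d.fb (xx (a + k)) = d.al (d.b ^ (k * T)) (d.bs (xx a)) • d.fb (xx a) := by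
    intro a k
    rw [hgen1, d.fb_smul]
  have hgen3 : ∀ a k, mm (a + k) = d.al (d.b ^ (k * T)) (d.bs (xx a)) • mm a := by
    intro a k
    rw [hmm, hmm, add_mul, add_comm (a * T), pow_add, d.al_mul, mul_smul, hxx, d.bs_smul]
  have hψ1 : ∀ j, E.ψ (E.τ^[j * T] (y, z)) = d.ψ (d.fb (xx j)) := by
    intro j
    rw [h3, tec_iter d h1, hxx]
  have hψ2 : ∀ j ≤ n, E.ψ (E.τ^[j * T] (y', z')) = d.ψ (mm j) := by
    intro j hj
    rw [h3, tec_iter d h1, hmm, d.fb_smul, hsame _ (Nat.mul_le_mul_right T hj)]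
  have hto : ∀ j ≤ n, ∀ B : ℝ, 0 ≤ B →
      (∀ i, |E.ψ (E.τ^[j * T] (y, z)) i - E.ψ (E.τ^[j * T] (y', z')) i| ≤ B) → dd j ≤ B := by
    intro j hj B hB h
    rw [hdd, dist_pi_le_iff hB]
    intro i
    rw [Real.dist_eq, ← hψ1, ← hψ2 j hj]
    exact h i
  have hρ : ∀ j ≤ n, dd j ≤ Real.exp (-(θ * T)) := fun j hj =>
    hto j hj _ (Real.exp_pos _).le (hy1 j hj)
  have hd0 : dd 0 ≤ Real.exp (-(3 * m0 * θ * T)) := by
    refine hto 0 (Nat.zero_le n) _ (Real.exp_pos _).le ?_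
    rw [zero_mul, Function.iterate_zero]
    exact hy2
  obtain ⟨cc, hcc⟩ : ∃ cc : ℕ, cc = ⌈8 / δ * m0 * θ⌉₊ := ⟨_, rfl⟩
  rw [← hcc] at hy3
  have hda : dd (n - cc) ≤ Real.exp (-((2 * m0 * θ + Real.log K * cc) * T)) :=
    hto (n - cc) (Nat.sub_le n cc) _ (Real.exp_pos _).le hy3
  have hccr : 8 / δ * m0 * θ ≤ cc := by rw [hcc]; exact Nat.le_ceil _
  have hKT : 1 ≤ K ^ T := one_le_pow₀ hTC.hK
  have hKd : ∀ j ≤ n, K ^ T * dd j ≤ δ0 := fun j hj =>
    (mul_le_mul_of_nonneg_left (hρ j hj) (by linarith)).trans n1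
  have hdδ : ∀ j ≤ n, dd j ≤ δ0 := fun j hj =>
    (le_mul_of_one_le_left (hdd0 j) hKT).trans (hKd j hj)
  have hstep : ∀ j, bA ^ T • xx j = xx (j + 1) := by
    intro j
    rw [tec_smul d hc, hgen1, one_mul]
  have hnd : ∀ j ≤ n, Node c s bA (1 / (n + 1)) δ T (xx j) := by
    intro j hj
    have h := hnode y hy j hj
    rwa [tec_smul d hc, ← hxx] at h
  have hD1 : ∀ x, c.D 1 x = 1 := tec_D1 d hc
  have hmain := te_det (n := n) (A := fun j => c.D (bA ^ T) (xx j))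
    (B := fun j => c.D (bA⁻¹ ^ T) (xx j)) (u := fun j => s (xx j)) (v := fun j => 1 - s (xx j))
    (z := fun j => J.jv (d.fb (xx j)) (mm j)) (d := dd) (C := C') (E := K1 ^ T)
    (ρ := Real.exp (-(θ * T))) (g := Real.exp (1 / (n + 1) * T))
    (lam := Real.exp (-(δ / 4 * T))) hC'1
    (by have := hTC.hK1; positivity)
    (Real.one_le_exp (by positivity)) (Real.exp_pos _).le n2 (fun j _ => hdd0 j)
    (fun j hj => by
      have h := (hTC.cmp (d.fb (xx j)) (mm j) (by rw [← hdd]; exact hdδ j hj)).1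
      rw [← hdd] at h
      exact h.trans (mul_le_mul_of_nonneg_right hCC' (hdd0 j)))
    (fun j hj => by
      have h := (hTC.cmp (d.fb (xx j)) (mm j) (by rw [← hdd]; exact hdδ j hj)).2.1
      rw [← hdd] at h
      have h5 : vn (J.P1 *ᵥ J.jv (d.fb (xx j)) (mm j)) ≤
          (fn J.P1 + 1) * vn (J.jv (d.fb (xx j)) (mm j)) :=
        (vn_mulVec_le _ _).trans (mul_le_mul_of_nonneg_right (by linarith) (vn_nonneg _))
      calc dd j ≤ C * vn (J.P1 *ᵥ J.jv (d.fb (xx j)) (mm j)) := h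
        _ ≤ C * ((fn J.P1 + 1) * vn (J.jv (d.fb (xx j)) (mm j))) :=
            mul_le_mul_of_nonneg_left h5 hC0
        _ = C' * vn (J.jv (d.fb (xx j)) (mm j)) := by rw [hC']; ring)
    hρ
    (fun j hj => by
      have h := hTC.tay T (d.bs (xx j)) (d.fb (xx j)) (mm j) (by rw [← hdd]; exact hKd j hj.le)
      have e2 := hgen2 j 1
      have e3 := hgen3 j 1
      rw [one_mul] at e2 e3
      rw [← e2, ← e3, ← hdd] at h
      show vn (J.jv (d.fb (xx (j + 1))) (mm (j + 1)) -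
        c.D (bA ^ T) (xx j) *ᵥ J.jv (d.fb (xx j)) (mm j)) ≤ K1 ^ T * dd j ^ 2
      rw [tec_D d hc]
      exact h)
    (fun j _ => by
      show s (xx j) + (1 - s (xx j)) = 1
      abel)
    (fun j hj => (hnd j hj).idem)
    (fun j hj => by
      show (1 - s (xx j)) * (1 - s (xx j)) = 1 - s (xx j)
      rw [mul_sub, mul_one, sub_mul, one_mul, (hnd j hj).idem]
      abel)
    (fun j hj => by
      have h := (hnd j hj.le).eqv
      rw [hstep] at h
      exact h.symm)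
    (fun j hj => by
      have h := (hnd j hj.le).eqv
      rw [hstep] at h
      show c.D (bA ^ T) (xx j) * (1 - s (xx j)) = (1 - s (xx (j + 1))) * c.D (bA ^ T) (xx j)
      rw [mul_sub, mul_one, sub_mul, one_mul, h])
    (fun j hj => by
      have h := (hnd j hj.le).inv
      rw [hstep, hD1] at h
      exact h)
    (fun j hj => by
      have h := (hnd j hj.le).up
      rw [hD1] at h
      exact h)
    (fun j hj => by
      have h := (hnd j hj.le).dn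
      rw [hstep, neg_mul] at h
      exact h.trans n3)
    (fun j hj => (hnd j hj).fs)
    (fun j hj => by
      have h := (hnd j hj).fs'
      rw [hD1] at h
      exact h)
    n4 n5
  intro j hj i
  have hfin : dd j ≤ Real.exp (-(m0 * θ * T)) := by
    by_cases hjc : n - cc ≤ j
    · obtain ⟨k, rfl⟩ := Nat.exists_eq_add_of_le hjc
      have hk : k ≤ cc := by omega
      refine tec_end (k := k) (cc := cc) hTC.hK hθ0 (hdd0 (n - cc)) hk ?_ hda
      have h := hTC.lip (k * T) (d.bs (xx (n - cc))) (d.fb (xx (n - cc))) (mm (n - cc))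
      rw [← hgen2, ← hgen3, ← hdd, ← hdd] at h
      exact h
    · have hk : cc ≤ n - j := by omega
      have h := hmain j hj
      refine h.trans (le_trans ?_ n6)
      refine mul_le_mul_of_nonneg_left (add_le_add ?_ ?_) (by positivity)
      · exact mul_le_mul_of_nonneg_left hd0 (by positivity)
      · have h5 := tec_far (T := T) hδ hccr hk
        have h6 : Real.exp (-(θ * T)) ≤ 1 := Real.exp_le_one_iff.2 (by
          have : 0 ≤ θ * (T : ℝ) := by positivity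
          linarith)
        calc Real.exp (-(δ / 4 * T)) ^ (n - j) * Real.exp (-(θ * T))
            ≤ Real.exp (-(2 * m0 * θ * T)) * 1 :=
              mul_le_mul h5 h6 (Real.exp_pos _).le (Real.exp_pos _).le
          _ = Real.exp (-(2 * m0 * θ * T)) := mul_one _
  rw [hψ1, hψ2 j hj, ← Real.dist_eq]
  rw [hdd] at hfin
  exact (dist_le_pi_dist _ _ i).trans hfin

end Dat

end Pool.Agent.H10.PS
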