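import Pool.Agent.H10.PS.En1
import Pool.Agent.H88.ENT.Bridge

/-!
MODULE TVs (helper1).  Nearly uniform digits: total variation.

`H88.ENT.tv_of_count_Fm` with `U = E.Sm (i + q)`, `R ω = (E.Sm i ω, N ω, ξ_l ω)`,
`A = {(r, u) | u mod p^i = r.1}` (`PadicInt.zmod_cast_comp_toZModPow` or `cast_toZModPow`: `hA`), `N = p ^ q`
(the fibres of `ZMod (p^(i+q)) → ZMod (p^i)` have `p^q` elements: `hcard`), `e (r, u) = (r, u + p^i)`
(`Equiv.addRight`; `p^i` is `0` in `ZMod (p^i)`: `heA`).  So the sum over `x` of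
`|P.real {(R, U) = x} - P.real {(R, U) = e x}|` is `≤ 4 √δ`.  Finally
`∫ φ (..) - φ (.. + p^i) = ∑ x, (P.real {(R,U) = x} - P.real {(R,U) = e.symm x}) * φ x`, `|φ| ≤ 1`
(`MeasureTheory.integral` of a function of an `Fm` function: finite sum of indicators; or
`integral_fintype` after `Measure.map`); reindex by `e`.
-/

set_option autoImplicit false

open MeasureTheory H31.BE

namespace Pool.Agent.H10.PS

variable {p : ℕ} [Fact p.Prime] {Ω : Type} [MeasurableSpace Ω] {P : Measure Ω}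
  [IsProbabilityMeasure P] {D : ℕ}

private theorem tvs_integral {β : Type} [Fintype β] {g : Ω → β} (hg : Fm g) (φ : β → ℝ) :
    ∫ ω, φ (g ω) ∂P = ∑ b, P.real (g ⁻¹' {b}) * φ b := by
  classical
  have h1 : ∀ ω, φ (g ω) = ∑ b, (g ⁻¹' {b}).indicator (fun _ => φ b) ω := by
    intro ω
    rw [Finset.sum_eq_single (g ω)]
    · simp
    · intro b _ hb
      exact Set.indicator_of_notMem (fun h => hb h.symm) _
    · intro h
      exact absurd (Finset.mem_univ _) h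
  simp_rw [h1]
  rw [integral_finsetSum]
  · refine Finset.sum_congr rfl fun b _ => ?_
    rw [integral_indicator (hg b)]
    simp [Measure.real]
  · intro b _
    exact (integrable_const _).indicator (hg b)

private theorem tvs_perm {β : Type} [Fintype β] (x Φ : β → ℝ) (e : Equiv.Perm β)
    (hΦ : ∀ b, 0 ≤ Φ b ∧ Φ b ≤ 1) {η : ℝ} (h : ∑ b, |x b - x (e b)| ≤ η) :
    |∑ b, x b * (Φ b - Φ (e b))| ≤ η := by
  have h1 : ∑ b, x b * Φ b = ∑ b, x (e b) * Φ (e b) :=
    (Equiv.sum_comp e (fun b => x b * Φ b)).symm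
  have h2 : ∑ b, x b * (Φ b - Φ (e b)) = ∑ b, (x (e b) - x b) * Φ (e b) := by
    simp_rw [mul_sub, sub_mul, Finset.sum_sub_distrib]
    rw [h1]
  rw [h2]
  refine (Finset.abs_sum_le_sum_abs _ _).trans (le_trans (Finset.sum_le_sum fun b _ => ?_) h)
  rw [abs_mul, abs_sub_comm, abs_of_nonneg (hΦ (e b)).1]
  exact mul_le_of_le_one_right (abs_nonneg _) (hΦ (e b)).2

private theorem tvs_fibre (i q : ℕ) (c : ZMod (p ^ i)) (F : Finset (ZMod (p ^ (i + q))))
    (hF : ∀ u ∈ F, ZMod.castHom (pow_dvd_pow p (Nat.le_add_right i q)) (ZMod (p ^ i)) u = c) :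
    F.card ≤ p ^ q := by
  classical
  have hp : 0 < p := (Fact.out : p.Prime).pos
  have : NeZero (p ^ (i + q)) := ⟨(pow_pos hp _).ne'⟩
  have : NeZero (p ^ i) := ⟨(pow_pos hp _).ne'⟩
  rw [← Finset.card_range (p ^ q)]
  refine Finset.card_le_card_of_injOn (fun u => u.val / p ^ i) ?_ ?_
  · intro u _
    have h1 : u.val < p ^ (i + q) := ZMod.val_lt u
    rw [Finset.coe_range, Set.mem_Iio]
    exact Nat.div_lt_of_lt_mul (h1.trans_eq (pow_add p i q))
  · intro u hu v hv huv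
    have h1 := (hF u hu).trans (hF v hv).symm
    rw [ZMod.castHom_apply, ZMod.castHom_apply, ← ZMod.natCast_val, ← ZMod.natCast_val,
      ZMod.natCast_eq_natCast_iff'] at h1
    have h2 : u.val / p ^ i = v.val / p ^ i := huv
    apply ZMod.val_injective
    rw [← Nat.div_add_mod u.val (p ^ i), ← Nat.div_add_mod v.val (p ^ i), h1, h2]

theorem hl_tv (E : ESys p Ω P D) {α : Type} [Finite α] {N : Ω → α} (hN : Fm N) (i q l : ℕ)
    {δ : ℝ} (h : q * Real.log p -
      hl P E.Ξ (E.Sm (i + q)) (fun ω => (E.Sm i ω, N ω)) l ≤ δ)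
    (φ : E.Ξ.α l → α → ZMod (p ^ (i + q)) → ℝ) (hφ : ∀ c a t, 0 ≤ φ c a t ∧ φ c a t ≤ 1) :
    |∫ ω, (φ (E.Ξ.ξ l ω) (N ω) (E.Sm (i + q) ω) -
      φ (E.Ξ.ξ l ω) (N ω) (E.Sm (i + q) ω + (p : ZMod (p ^ (i + q))) ^ i)) ∂P| ≤ 4 * √δ := by
  classical
  have hp : 0 < p := (Fact.out : p.Prime).pos
  let _ : Fintype α := Fintype.ofFinite α
  have : NeZero (p ^ (i + q)) := ⟨(pow_pos hp _).ne'⟩
  have : NeZero (p ^ i) := ⟨(pow_pos hp _).ne'⟩
  let _ : Fintype (E.Ξ.α l) := Fintype.ofFinite _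
  set cst := ZMod.castHom (pow_dvd_pow p (Nat.le_add_right i q)) (ZMod (p ^ i)) with hcst
  have hSm : ∀ k, Fm (E.Sm k) := fun k => E.Smeas k
  have hU : Fm (E.Sm (i + q)) := hSm _
  have hR : Fm (fun ω => ((E.Sm i ω, N ω), E.Ξ.ξ l ω)) := ((hSm i).prodMk hN).prodMk (E.Ξ.meas l)
  have hc : ∀ ω, cst (E.Sm (i + q) ω) = E.Sm i ω := by
    intro ω
    have h1 := PadicInt.zmod_cast_comp_toZModPow (p := p) i (i + q) (Nat.le_add_right i q)
    exact congrArg (fun f => f (E.S ω)) h1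
  have hp0 : ((p : ZMod (p ^ i)) ^ i) = 0 := by
    rw [← Nat.cast_pow]
    exact ZMod.natCast_self _
  have hadd : ∀ u, cst (u + (p : ZMod (p ^ (i + q))) ^ i) = cst u := by
    intro u
    rw [map_add, map_pow, map_natCast, hp0, add_zero]
  set e : Equiv.Perm (((ZMod (p ^ i) × α) × E.Ξ.α l) × ZMod (p ^ (i + q))) :=
    Equiv.prodCongr (Equiv.refl _) (Equiv.addRight ((p : ZMod (p ^ (i + q))) ^ i)) with he
  have hev : ∀ x, e x = (x.1, x.2 + (p : ZMod (p ^ (i + q))) ^ i) := fun x => rfl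
  set A : Finset (((ZMod (p ^ i) × α) × E.Ξ.α l) × ZMod (p ^ (i + q))) :=
    Finset.univ.filter fun x => cst x.2 = x.1.1.1 with hA
  have htv := H88.ENT.tv_of_count_Fm (P := P) hU hR A
    (fun ω => by simp only [hA, Finset.mem_filter, Finset.mem_univ, true_and]; exact hc ω)
    (N := p ^ q) (pow_pos hp q)
    (by
      intro r
      have h1 : (A.filter fun x => x.1 = r).card =
          ((A.filter fun x => x.1 = r).image Prod.snd).card := by
        refine (Finset.card_image_of_injOn ?_).symm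
        intro x hx y hy hxy
        have hx' := (Finset.mem_filter.1 hx).2
        have hy' := (Finset.mem_filter.1 hy).2
        exact Prod.ext (hx'.trans hy'.symm) hxy
      rw [h1]
      refine tvs_fibre i q r.1.1 _ ?_
      intro u hu
      obtain ⟨x, hx, rfl⟩ := Finset.mem_image.1 hu
      obtain ⟨hx1, hx2⟩ := Finset.mem_filter.1 hx
      rw [← hx2]
      exact (Finset.mem_filter.1 hx1).2)
    e (fun x => rfl)
    (fun x hx => by
      simp only [hA, Finset.mem_filter, Finset.mem_univ, true_and] at hx ⊢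
      rw [hev]
      exact (hadd x.2).trans hx)
  have hent : Real.log ((p ^ q : ℕ) : ℝ) - entc P (E.Sm (i + q))
      (fun ω => ((E.Sm i ω, N ω), E.Ξ.ξ l ω)) ≤ δ := by
    rw [Nat.cast_pow, Real.log_pow]
    exact h
  have hη := htv.trans (mul_le_mul_of_nonneg_left (Real.sqrt_le_sqrt hent) (by norm_num))
  set Φ : ((ZMod (p ^ i) × α) × E.Ξ.α l) × ZMod (p ^ (i + q)) → ℝ :=
    fun x => φ x.1.2 x.1.1.2 x.2 with hΦ
  have hV : Fm (fun ω => (((E.Sm i ω, N ω), E.Ξ.ξ l ω), E.Sm (i + q) ω)) := hR.prodMk hU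
  have hint : ∫ ω, (φ (E.Ξ.ξ l ω) (N ω) (E.Sm (i + q) ω) -
      φ (E.Ξ.ξ l ω) (N ω) (E.Sm (i + q) ω + (p : ZMod (p ^ (i + q))) ^ i)) ∂P =
      ∑ x, P.real ((fun ω => (((E.Sm i ω, N ω), E.Ξ.ξ l ω), E.Sm (i + q) ω)) ⁻¹' {x}) *
        (Φ x - Φ (e x)) :=
    tvs_integral (P := P) hV (fun x => Φ x - Φ (e x))
  rw [hint]
  exact tvs_perm _ Φ e (fun x => hφ _ _ _) hη

end Pool.Agent.H10.PS
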