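import Pool.Agent.H10.PS.Defs

/-!
MODULE Zp (90 lines).  A probability space with a uniformly distributed `p`-adic integer.

Take `Z = ℤ_[p]` with its Borel structure and the normalised Haar measure
(`MeasureTheory.Measure.addHaarMeasure ⊤`, `CompactSpace ℤ_[p]`), `S = id`: the fibres of `toZModPow k` are
open (`toZModPow` is continuous for the discrete topology, or: the fibre of `a` is
`{z | ‖z - z0‖ ≤ p ^ (-k)}`, `PadicInt.norm_le_pow_iff_mem_span_pow`, kernel of `toZModPow`), they are translates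
of each other (`measure_preimage_add`), there are `p ^ k` of them and they cover `Z`
(`ZMod.card`, surjectivity from `(n : ℤ_[p])`, `n : ℕ`).  (Alternatively: `Z = ℕ → Fin p` with the product of
the uniform measures, `S z = ∑ z_i p^i`.)
-/

set_option autoImplicit false

open MeasureTheory H31.BE Set

namespace Pool.Agent.H10.PS

theorem exists_Zp (p : ℕ) [Fact p.Prime] :
    ∃ (Z : Type) (_ : MeasurableSpace Z) (ν : Measure Z) (S : Z → ℤ_[p]), IsProbabilityMeasure ν ∧
      ∀ (k : ℕ) (a : ZMod (p ^ k)), MeasurableSet {z | PadicInt.toZModPow k (S z) = a} ∧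
        ν.real {z | PadicInt.toZModPow k (S z) = a} = 1 / (p : ℝ) ^ k := by
  let _ : MeasurableSpace ℤ_[p] := borel ℤ_[p]
  have _ : BorelSpace ℤ_[p] := ⟨rfl⟩
  let K₀ : TopologicalSpace.PositiveCompacts ℤ_[p] := ⊤
  let ν : Measure ℤ_[p] := Measure.addHaarMeasure K₀
  have h1 : ν univ = 1 := by
    have h := Measure.addHaarMeasure_self (K₀ := K₀)
    rwa [TopologicalSpace.PositiveCompacts.coe_top] at h
  have hp : IsProbabilityMeasure ν := ⟨h1⟩
  refine ⟨ℤ_[p], inferInstance, ν, id, hp, fun k => ?_⟩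
  have hsur : Function.Surjective (PadicInt.toZModPow (p := p) k) := ZMod.ringHom_surjective _
  have hball : ∀ z0 : ℤ_[p], {z : ℤ_[p] | PadicInt.toZModPow k z = PadicInt.toZModPow k z0} =
      Metric.closedBall z0 ((p : ℝ) ^ (-(k : ℤ))) := by
    intro z0
    ext z
    rw [Metric.mem_closedBall, dist_eq_norm, PadicInt.norm_le_pow_iff_mem_span_pow,
      ← PadicInt.ker_toZModPow, RingHom.mem_ker, map_sub, sub_eq_zero]
    rfl
  have hmeas : ∀ a : ZMod (p ^ k), MeasurableSet {z : ℤ_[p] | PadicInt.toZModPow k z = a} := by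
    intro a
    obtain ⟨z0, rfl⟩ := hsur a
    rw [hball]
    exact Metric.isClosed_closedBall.measurableSet
  have htr : ∀ a : ZMod (p ^ k), ν {z : ℤ_[p] | PadicInt.toZModPow k z = a} =
      ν {z : ℤ_[p] | PadicInt.toZModPow k z = 0} := by
    intro a
    obtain ⟨z0, rfl⟩ := hsur a
    rw [← measure_preimage_add ν (-z0) {z : ℤ_[p] | PadicInt.toZModPow k z = 0}]
    congr 1
    ext z
    simp only [mem_setOf_eq, mem_preimage, map_add, map_neg]
    rw [neg_add_eq_zero, eq_comm]
  have hsum : ∑ a : ZMod (p ^ k), ν {z : ℤ_[p] | PadicInt.toZModPow k z = a} = 1 := by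
    rw [← h1, ← tsum_fintype (L := .unconditional _), ← measure_iUnion ?_ hmeas]
    · congr 1
      ext z
      simp
    · intro a b hab
      refine Set.disjoint_left.2 fun z hz hz' => hab ?_
      exact hz.symm.trans hz'
  have hcard : (Finset.univ : Finset (ZMod (p ^ k))).card = p ^ k := by
    rw [Finset.card_univ, ZMod.card]
  intro a
  refine ⟨hmeas a, ?_⟩
  have h2 : ((p : ENNReal) ^ k) * ν {z : ℤ_[p] | PadicInt.toZModPow k z = 0} = 1 := by
    rw [← hsum, Finset.sum_congr rfl fun a _ => htr a, Finset.sum_const, hcard, nsmul_eq_mul]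
    push_cast
    rfl
  have h3 := congrArg ENNReal.toReal h2
  rw [ENNReal.toReal_mul, ENNReal.toReal_pow, ENNReal.toReal_natCast, ENNReal.toReal_one] at h3
  have hp0 : (p : ℝ) ^ k ≠ 0 := by
    have := (Fact.out : p.Prime).pos
    positivity
  show (ν {z : ℤ_[p] | PadicInt.toZModPow k z = a}).toReal = _
  rw [htr a, eq_div_iff hp0, mul_comm]
  exact h3

end Pool.Agent.H10.PS
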